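import Pool.Agent.H547R8.Stm

/-!
# What a gate set generates outside of the easy classes
-/

set_option autoImplicit false

namespace Pool.Agent.H547R8

open Pool.Agent.H547R6 Pool.Agent.H547R7 Pool.Agent.NPC

variable {B : Set BFun}

theorem and_of_oS (h : Op3 B oS) : Op2 B band :=
  (h.app v0_2 v1_2 v1_2).congr fun x => by
    simp only [oS, band]
    cases x 0 <;> cases x 1 <;> rfl

/-- with `a ∧ (b ∨ c)` and a function that has two ones without common one coordinate, there is
the disjunction -/
theorem or_of_oS (h : Op3 B oS) (hB : ¬ B ⊆ And2) : Op2 B bor := by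
  have hA := and_of_oS h
  rw [Set.not_subset] at hB
  obtain ⟨⟨k, f⟩, hf, hf'⟩ := hB
  simp only [And2, Set.mem_ofPred_eq, not_forall] at hf'
  obtain ⟨a, b, hab, hn⟩ := hf'
  rw [not_or, Bool.not_eq_false, Bool.not_eq_false] at hn
  let G : Bool → Bool → Bool := fun p q => f fun i =>
    if a i = true then p else if b i = true then q else p && q
  have hG : Op2 B G := by
    refine (Gen.app k f hf (fun i => if a i = true then (fun x => x 0) else
      if b i = true then (fun x => x 1) else fun x => x 0 && x 1) ?_).congr ?_
    · intro i
      by_cases h1 : a i = true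
      · rw [if_pos h1]
        exact v0_2
      · by_cases h2 : b i = true
        · rw [if_neg h1, if_pos h2]
          exact v1_2
        · rw [if_neg h1, if_neg h2]
          exact hA.app v0_2 v1_2
    · intro x
      simp only [G]
      congr 1
      funext i
      by_cases h1 : a i = true <;> by_cases h2 : b i = true <;> simp [h1, h2]
  have e1 : G true false = true := by
    have : (fun i => if a i = true then true else if b i = true then false else true && false) =
        a := by
      funext i
      cases a i <;> cases b i <;> rfl
    simp only [G]
    rw [this]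
    exact hn.1
  have e2 : G false true = true := by
    have : (fun i => if a i = true then false else if b i = true then true else false && true) =
        b := by
      funext i
      rcases hab i with h1 | h1
      · rw [h1]
        cases b i <;> rfl
      · rw [h1]
        cases a i <;> rfl
    simp only [G]
    rw [this]
    exact hn.2
  cases h11 : G true true
  · cases h00 : G false false
    · refine (hG.app hG (hA.app v0_2 v1_2)).congr fun x => ?_
      simp only [bor]
      cases x 0 <;> cases x 1 <;> simp [h11, h00, e1, e2]
    · have hN : Op1 B bnot := (hG.app v0_1 v0_1).congr fun x => by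
        simp only [bnot]
        cases x 0 <;> simp [h11, h00]
      refine (hN.app (hA.app (hN.app v0_2) (hN.app v1_2))).congr fun x => ?_
      simp only [bor]
      cases x 0 <;> cases x 1 <;> rfl
  · refine (h.app hG v0_2 v1_2).congr fun x => ?_
    simp only [bor, oS]
    cases hx : x 0 <;> cases hy : x 1 <;> simp [h11, e1, e2]

theorem and2_dual (f : BFun) (h : dualF f ∈ And2) : f ∈ Or2 := by
  intro x y hxy
  have := h (fun i => !x i) (fun i => !y i) (fun i => by
    rcases hxy i with h1 | h1
    · left; simp [h1]
    · right; simp [h1])
  simp only [dualF, Bool.not_not] at this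
  revert this
  cases f.2 x <;> cases f.2 y <;> simp

theorem or2_dual (f : BFun) (h : dualF f ∈ Or2) : f ∈ And2 := by
  intro x y hxy
  have := h (fun i => !x i) (fun i => !y i) (fun i => by
    rcases hxy i with h1 | h1
    · left; simp [h1]
    · right; simp [h1])
  simp only [dualF, Bool.not_not] at this
  revert this
  cases f.2 x <;> cases f.2 y <;> simp

theorem t_CPP : S_CPP := by
  intro B hE hO
  simp only [EasyPP, not_or] at hE
  obtain ⟨hA, hC, hD, hS, h2, _⟩ := hE
  rcases t_CLO B hA hC hD hS with h | h
  · exact ⟨and_of_oS h, or_of_oS h h2⟩
  · have hd : Op3 (dualB B) oS := by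
      refine (Gen.dual h).congr fun x => ?_
      simp only [oS]
      cases x 0 <;> cases x 1 <;> cases x 2 <;> rfl
    have h1 := and_of_oS hd
    have h3 := or_of_oS hd (not_sub_dual and2_dual hO)
    have h1' := Gen.dual h1
    have h3' := Gen.dual h3
    rw [dualB_dualB] at h1' h3'
    refine ⟨h3'.congr fun x => ?_, h1'.congr fun x => ?_⟩
    · simp only [bor, band]
      cases x 0 <;> cases x 1 <;> rfl
    · simp only [bor, band]
      cases x 0 <;> cases x 1 <;> rfl

/-- generated functions of `Or2` sets -/
theorem Gen.or2 {X : Type} (hB : B ⊆ Or2) {f : (X → Bool) → Bool} (h : Gen B X f) :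
    ∀ x y, (∀ i, x i = true ∨ y i = true) → f x = true ∨ f y = true := by
  induction h with
  | var i => exact fun x y hxy => hxy i
  | app k f hf g hg ih =>
    intro x y hxy
    exact hB hf _ _ fun i => ih i x y hxy

theorem oD_of_or2 (hA : ¬ B ⊆ Aff) (hC : ¬ B ⊆ Conj) (hD : ¬ B ⊆ Disj) (hS : ¬ B ⊆ SelfDual)
    (hO : B ⊆ Or2) : Op3 B oD := by
  rcases t_CLO B hA hC hD hS with h | h
  · exfalso
    have := Gen.or2 hO h ![false, true, true] ![true, false, false] (fun i => by
      fin_cases i <;> simp)
    simp at this
  · exact h

theorem or_of_oD (h : Op3 B oD) : Op2 B bor :=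
  (h.app v0_2 v1_2 v1_2).congr fun x => by
    simp only [oD, bor]
    cases x 0 <;> cases x 1 <;> rfl

/-- non-monotone case -/
theorem cn_nonmon (h : Op3 B oD) (hM : ¬ B ⊆ Mon) : Op3 B (fun a b c => a || (b && !c)) := by
  rw [Set.not_subset] at hM
  obtain ⟨⟨k, f⟩, hf, hf'⟩ := hM
  simp only [Mon, Set.mem_ofPred_eq, not_forall] at hf'
  obtain ⟨x, y, hxy, hx, hy⟩ := hf'
  rw [Bool.not_eq_true] at hy
  -- `g a c b`: value of `f` with `a` for zeros of `y`, `c` for the difference, `b` for ones of `x`
  have hG : Gen B (Fin 3) (fun v => f fun i => if x i = true then v 1 else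
      if y i = true then v 2 else v 0) := by
    refine (Gen.app k f hf (fun i => if x i = true then (fun v => v 1) else
      if y i = true then (fun v => v 2) else fun v => v 0) ?_).congr ?_
    · intro i
      by_cases h1 : x i = true
      · rw [if_pos h1]
        exact v1_3
      · by_cases h2 : y i = true
        · rw [if_neg h1, if_pos h2]
          exact v2_3
        · rw [if_neg h1, if_neg h2]
          exact v0_3
    · intro v
      congr 1
      funext i
      by_cases h1 : x i = true <;> by_cases h2 : y i = true <;> simp [h1, h2]
  refine (h.app v0_3 v1_3 hG).congr fun v => ?_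
  simp only [oD]
  cases h0 : v 0
  · cases h1 : v 1
    · simp
    · cases h2 : v 2
      · have e : (fun i => if x i = true then true else if y i = true then false else false) =
            x := by
          funext i
          cases x i <;> cases y i <;> rfl
        rw [e, hx]
        rfl
      · have e : (fun i => if x i = true then true else if y i = true then true else false) =
            y := by
          funext i
          have := hxy i
          revert this
          cases x i <;> cases y i <;> simp
        rw [e, hy]
        rfl
  · simp

/-- monotone case -/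
theorem cn_mon (hO : Op2 B bor) (hM : B ⊆ Mon) (h2 : B ⊆ Or2) (h3 : ¬ B ⊆ Or3) :
    Op3 B bmaj := by
  rw [Set.not_subset] at h3
  obtain ⟨⟨k, f⟩, hf, hf'⟩ := h3
  simp only [Or3, Set.mem_ofPred_eq, not_forall] at hf'
  obtain ⟨x, y, z, hxyz, hn⟩ := hf'
  rw [not_or, not_or, Bool.not_eq_true, Bool.not_eq_true, Bool.not_eq_true] at hn
  obtain ⟨hx, hy, hz⟩ := hn
  have mon := hM hf
  have or2 := h2 hf
  have hG : Gen B (Fin 3) (fun v => f fun i => (x i && v 0) || ((y i && v 1) || (z i && v 2))) := by
    refine (Gen.app k f hf (fun i v => (x i && v 0) || ((y i && v 1) || (z i && v 2))) ?_)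
    intro i
    rcases hxyz i with h1 | h1 | h1 <;> rw [h1]
    · cases y i <;> cases z i
      · exact v0_3.congr fun v => by simp
      · exact (hO.app v0_3 v2_3).congr fun v => by simp
      · exact (hO.app v0_3 v1_3).congr fun v => by simp
      · exact (hO.app v0_3 (hO.app v1_3 v2_3)).congr fun v => by simp
    · cases x i <;> cases z i
      · exact v1_3.congr fun v => by simp
      · exact (hO.app v1_3 v2_3).congr fun v => by simp
      · exact (hO.app v0_3 v1_3).congr fun v => by simp
      · exact (hO.app v0_3 (hO.app v1_3 v2_3)).congr fun v => by simp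
    · cases x i <;> cases y i
      · exact v2_3.congr fun v => by simp
      · exact (hO.app v1_3 v2_3).congr fun v => by simp
      · exact (hO.app v0_3 v2_3).congr fun v => by simp
      · exact (hO.app v0_3 (hO.app v1_3 v2_3)).congr fun v => by simp
  have exy : f (fun i => x i || y i) = true := by
    rcases or2 (fun i => x i || y i) z (fun i => by
      rcases hxyz i with h1 | h1 | h1
      · left; simp [h1]
      · left; simp [h1]
      · right; exact h1) with h | h
    · exact h
    · exact absurd (h.symm.trans hz) (by simp)
  have exz : f (fun i => x i || z i) = true := by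
    rcases or2 (fun i => x i || z i) y (fun i => by
      rcases hxyz i with h1 | h1 | h1
      · left; simp [h1]
      · right; exact h1
      · left; simp [h1]) with h | h
    · exact h
    · exact absurd (h.symm.trans hy) (by simp)
  have eyz : f (fun i => y i || z i) = true := by
    rcases or2 (fun i => y i || z i) x (fun i => by
      rcases hxyz i with h1 | h1 | h1
      · right; exact h1
      · left; simp [h1]
      · left; simp [h1]) with h | h
    · exact h
    · exact absurd (h.symm.trans hx) (by simp)
  have e0 : f (fun _ => false) = false := by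
    by_contra h
    rw [Bool.not_eq_false] at h
    have := mon (fun _ => false) x (fun i hi => by simp at hi) h
    change f x = true at this
    rw [hx] at this
    simp at this
  have e1 : f (fun i => x i || (y i || z i)) = true :=
    mon (fun i => x i || y i) _ (fun i hi => by
      revert hi
      cases x i <;> cases y i <;> simp) exy
  refine hG.congr fun v => ?_
  simp only [bmaj]
  cases h0 : v 0 <;> cases h1 : v 1 <;> cases h2 : v 2 <;>
    simp [e0, hx, hy, hz, exy, exz, eyz, e1]

theorem t_CN : S_CN := by
  intro B hE hO
  simp only [EasyPP, not_or, not_and] at hE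
  obtain ⟨hA, hC, hD, hS, _, h3⟩ := hE
  have h := oD_of_or2 hA hC hD hS hO
  by_cases hM : B ⊆ Mon
  · right
    exact ⟨cn_mon (or_of_oD h) hM hO (h3 hM), or_of_oD h⟩
  · left
    exact cn_nonmon h hM

end Pool.Agent.H547R8
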