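import Pool.Agent.H547R8.Stm2
import Pool.Agent.H547R8.T_CLN

/-!
# Assembly
-/

set_option autoImplicit false

namespace Pool.Agent.H547R8

open Pool.Agent.H547R6 Pool.Agent.H547R7 Pool.Agent.NPC

/-- the easy gate sets for acceptance by at least half -/
def EasyGe (B : Set BFun) : Prop :=
  B ⊆ Aff ∨ B ⊆ Conj ∨ B ⊆ Disj ∨ B ⊆ SelfDual ∨ B ⊆ Or2 ∨ (B ⊆ Mon ∧ B ⊆ And3)

theorem ppover_sub_pp (B : Set BFun) : PPover B ⊆ PP := by
  rintro L ⟨V, p, q, hV, h⟩
  exact ⟨V, p, hV, fun x => (h x).2⟩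

theorem pp_sub (hckt : S_CKT) (hdrc : S_DRC) (hmbb : S_MBB) (hpfr : S_PFR) (htfr : S_TFR)
    (hnfp : S_NFP) {B : Set BFun} (hA : Op2 B band) (hO : Op2 B bor) : PP ⊆ PPover B := by
  intro L hL
  obtain ⟨V, p, hV, hp, h⟩ := hnfp L hL
  obtain ⟨q, hq⟩ := hckt V hV p hp
  obtain ⟨V', hV', hacc⟩ := htfr V hV
  obtain ⟨c, hc⟩ := hmbb B hA hO
  refine ⟨V', p + p, Polynomial.C c * (2 * q + 4 * p), hV', fun x => ?_⟩
  rw [Polynomial.eval_add, hacc]
  constructor
  · have := hc _ _ _ (hdrc _ _ _ (hq x))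
    simpa [Polynomial.eval_add, Polynomial.eval_mul] using this
  · rw [h x]
    have e := hpfr _ (acc V x (p.eval x.length))
    have h2 : (0 : ℝ) < 2 ^ (p.eval x.length) := by positivity
    constructor
    · intro h1
      have : 0 < (pr (acc V x (p.eval x.length)) - 1 / 2) / 2 ^ (p.eval x.length) :=
        div_pos (by linarith) h2
      linarith
    · intro h1
      by_contra h3
      have : (pr (acc V x (p.eval x.length)) - 1 / 2) / 2 ^ (p.eval x.length) ≤ 0 :=
        div_nonpos_of_nonpos_of_nonneg (by linarith) h2.le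
      linarith

theorem np_sub_s2 (hckt : S_CKT) (hs2c : S_S2C) (hps2 : S_PS2) (hts2 : S_TS2)
    (hnfn : S_NFN) (hcard : ∀ (n : ℕ) (C : BF n), 0 < pr C ↔ ∃ r, C r = true) {B : Set BFun}
    (hB : Op3 B (fun a b c => a || (b && !c))) : NP ⊆ PPover B := by
  intro L hL
  obtain ⟨V, p, hV, hp, h⟩ := hnfn L hL
  obtain ⟨q, hq⟩ := hckt V hV p hp
  obtain ⟨V', hV', hacc⟩ := hts2 V hV
  obtain ⟨c, hc⟩ := hs2c B hB
  refine ⟨V', p + 2, Polynomial.C c * (q + p + 1), hV', fun x => ?_⟩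
  have e2 : (p + 2 : Polynomial ℕ).eval x.length = p.eval x.length + 2 := by
    simp [Polynomial.eval_add]
  rw [e2, hacc]
  constructor
  · have := hc _ _ _ (hq x)
    simpa [Polynomial.eval_add, Polynomial.eval_mul] using this
  · rw [h x, ← hcard, hps2]
    constructor <;> intro h1 <;> linarith

theorem np_sub_wm (hckt : S_CKT) (hwmc : S_WMC) (hpwm : S_PWM) (htwm : S_TWM)
    (hnfn : S_NFN) {B : Set BFun} (hM : Op3 B bmaj) (hO : Op2 B bor) : NP ⊆ PPover B := by
  intro L hL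
  obtain ⟨V, p, hV, hp, h⟩ := hnfn L hL
  obtain ⟨q, hq⟩ := hckt V hV p hp
  obtain ⟨V', hV', hacc⟩ := htwm V hV
  obtain ⟨c, hc⟩ := hwmc B hM hO
  refine ⟨V', p + p + 2, Polynomial.C c * (q + p + 1), hV', fun x => ?_⟩
  have e2 : (p + p + 2 : Polynomial ℕ).eval x.length =
      p.eval x.length + p.eval x.length + 2 := by
    simp [Polynomial.eval_add]
  rw [e2, hacc]
  constructor
  · have := hc _ _ _ (hq x)
    simpa [Polynomial.eval_add, Polynomial.eval_mul] using this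
  · rw [h x, hpwm]

theorem pr_pos (n : ℕ) (C : BF n) : 0 < pr C ↔ ∃ r, C r = true := by
  unfold pr
  have h2 : (0 : ℝ) < Fintype.card (Fin n → Bool) := by
    exact_mod_cast Fintype.card_pos
  rw [div_pos_iff_of_pos_right h2, Nat.cast_pos, Finset.card_pos]
  constructor
  · rintro ⟨r, hr⟩
    exact ⟨r, (Finset.mem_filter.1 hr).2⟩
  · rintro ⟨r, hr⟩
    exact ⟨r, Finset.mem_filter.2 ⟨Finset.mem_univ _, hr⟩⟩

theorem dual_sub {K K' : Set BFun} {B : Set BFun} (h : ∀ f, dualF f ∈ K → f ∈ K')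
    (hB : dualB B ⊆ K) : B ⊆ K' := by
  intro f hf
  refine h f (hB ?_)
  change dualF (dualF f) ∈ B
  rwa [dualF_dualF]

theorem dual_sub' {K K' : Set BFun} {B : Set BFun} (h : ∀ f, dualF f ∈ K → f ∈ K')
    (hB : B ⊆ K) : dualB B ⊆ K' := fun f hf => h f (hB hf)

theorem mon_dual (f : BFun) (h : dualF f ∈ Mon) : f ∈ Mon := by
  intro x y hxy hx
  have := h (fun i => !y i) (fun i => !x i) (fun i => by
    have := hxy i
    revert this
    cases x i <;> cases y i <;> simp)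
  simp only [dualF, Bool.not_not] at this
  revert this hx
  cases f.2 x <;> cases f.2 y <;> simp

theorem and3_dual (f : BFun) (h : dualF f ∈ And3) : f ∈ Or3 := by
  intro x y z hxy
  have := h (fun i => !x i) (fun i => !y i) (fun i => !z i) (fun i => by
    rcases hxy i with h1 | h1 | h1
    · left; simp [h1]
    · right; left; simp [h1]
    · right; right; simp [h1])
  simp only [dualF, Bool.not_not] at this
  revert this
  cases f.2 x <;> cases f.2 y <;> cases f.2 z <;> simp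

theorem or3_dual (f : BFun) (h : dualF f ∈ Or3) : f ∈ And3 := by
  intro x y z hxy
  have := h (fun i => !x i) (fun i => !y i) (fun i => !z i) (fun i => by
    rcases hxy i with h1 | h1 | h1
    · left; simp [h1]
    · right; left; simp [h1]
    · right; right; simp [h1])
  simp only [dualF, Bool.not_not] at this
  revert this
  cases f.2 x <;> cases f.2 y <;> cases f.2 z <;> simp

theorem easy_dual (B : Set BFun) : EasyPP (dualB B) ↔ EasyGe B := by
  constructor
  · rintro (h | h | h | h | h | ⟨h, h'⟩)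
    · exact Or.inl (dual_sub aff_dual h)
    · exact Or.inr (Or.inr (Or.inl (dual_sub conj_dual h)))
    · exact Or.inr (Or.inl (dual_sub disj_dual h))
    · exact Or.inr (Or.inr (Or.inr (Or.inl (dual_sub self_dual h))))
    · exact Or.inr (Or.inr (Or.inr (Or.inr (Or.inl (dual_sub and2_dual h)))))
    · exact Or.inr (Or.inr (Or.inr (Or.inr (Or.inr ⟨dual_sub mon_dual h, dual_sub or3_dual h'⟩))))
  · rintro (h | h | h | h | h | ⟨h, h'⟩)
    · exact Or.inl (dual_sub' aff_dual h)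
    · exact Or.inr (Or.inr (Or.inl (dual_sub' conj_dual h)))
    · exact Or.inr (Or.inl (dual_sub' disj_dual h))
    · exact Or.inr (Or.inr (Or.inr (Or.inl (dual_sub' self_dual h))))
    · exact Or.inr (Or.inr (Or.inr (Or.inr (Or.inl (dual_sub' or2_dual h)))))
    · exact Or.inr (Or.inr (Or.inr (Or.inr (Or.inr ⟨dual_sub' mon_dual h,
        dual_sub' and3_dual h'⟩))))

theorem or2_and2 (B : Set BFun) : dualB B ⊆ Or2 ↔ B ⊆ And2 :=
  ⟨dual_sub or2_dual, dual_sub' and2_dual⟩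

theorem ge_eq (hdul : S_DUL) (B : Set BFun) : PPgeOver B = co (PPover (dualB B)) :=
  Set.ext fun L => hdul B L

/-- the main theorem from the tasks -/
theorem main_of (hckt : S_CKT) (hup1 : S_UP1) (hup2 : S_UP2) (hup3 : S_UP3) (hdrc : S_DRC)
    (hmbb : S_MBB) (hs2c : S_S2C) (hwmc : S_WMC) (hpfr : S_PFR) (hps2 : S_PS2) (hpwm : S_PWM)
    (htfr : S_TFR) (hts2 : S_TS2) (htwm : S_TWM) (hnfp : S_NFP) (hnfn : S_NFN) (hdul : S_DUL)
    (hcop : S_COP) (hcpc : S_CPC) (B : Set BFun) :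
    ((EasyPP B → PPover B ⊆ P) ∧ (¬ EasyPP B → B ⊆ Or2 → PPover B = NP) ∧
      (¬ EasyPP B → ¬ B ⊆ Or2 → PPover B = PP)) ∧
    ((EasyGe B → PPgeOver B ⊆ P) ∧ (¬ EasyGe B → B ⊆ And2 → PPgeOver B = co NP) ∧
      (¬ EasyGe B → ¬ B ⊆ And2 → PPgeOver B = PP)) := by
  have key : ∀ B : Set BFun, (EasyPP B → PPover B ⊆ P) ∧
      (¬ EasyPP B → B ⊆ Or2 → PPover B = NP) ∧ (¬ EasyPP B → ¬ B ⊆ Or2 → PPover B = PP) := by
    intro B
    refine ⟨?_, ?_, ?_⟩
    · rintro (h | h | h | h | h | h)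
      · exact hup1 B (Or.inl h)
      · exact hup1 B (Or.inr (Or.inl h))
      · exact hup1 B (Or.inr (Or.inr h))
      · exact hup2 B (Or.inl h)
      · exact hup2 B (Or.inr (Or.inl h))
      · exact hup2 B (Or.inr (Or.inr h))
    · intro hE hO
      refine Set.Subset.antisymm (hup3 B hO) ?_
      rcases t_CN B hE hO with h | ⟨h1, h2⟩
      · exact np_sub_s2 hckt hs2c hps2 hts2 hnfn pr_pos h
      · exact np_sub_wm hckt hwmc hpwm htwm hnfn h1 h2
    · intro hE hO
      obtain ⟨h1, h2⟩ := t_CPP B hE hO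
      exact Set.Subset.antisymm (ppover_sub_pp B) (pp_sub hckt hdrc hmbb hpfr htfr hnfp h1 h2)
  refine ⟨key B, ?_⟩
  obtain ⟨k1, k2, k3⟩ := key (dualB B)
  rw [easy_dual] at k1 k2 k3
  rw [or2_and2] at k2 k3
  rw [ge_eq hdul]
  refine ⟨fun h => ?_, fun h h' => by rw [k2 h h'], fun h h' => by rw [k3 h h']; exact hcpc⟩
  intro L hL
  rw [← hcop]
  exact k1 h hL

end Pool.Agent.H547R8
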