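import Pool.Agent.H547R7.Defs
import Pool.Agent.NPC.Classes

/-!
# Probabilistic polynomial time over sets of Boolean functions: definitions
-/

set_option autoImplicit false

namespace Pool.Agent.H547R8

open Pool.Agent.H547R6 Pool.Agent.H547R7 Pool.Agent.NPC

/-- any three zeros of the function have a common zero coordinate -/
def Or3 : Set BFun := {f | ∀ x y z, (∀ i, x i = true ∨ y i = true ∨ z i = true) →
  f.2 x = true ∨ f.2 y = true ∨ f.2 z = true}

/-- any three ones of the function have a common one coordinate -/
def And3 : Set BFun := {f | ∀ x y z, (∀ i, x i = false ∨ y i = false ∨ z i = false) →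
  f.2 x = false ∨ f.2 y = false ∨ f.2 z = false}

/-- the predicate on `n` random bits defined by `V` and the input `x` -/
def acc (V : List Bool → List Bool) (x : List Bool) (n : ℕ) : BF n :=
  fun r => decide (V (pairBits x (List.ofFn r)) = [true])

/-- The class `P`. -/
def P : Set (Set (List Bool)) := {L | InP L}

/-- The class `NP`. -/
def NP : Set (Set (List Bool)) := {L | InNP L}

/-- The class `PP`: `x` is in the language if and only if more than half of the strings of length
`p(|x|)` are accepted by a fixed polynomial-time algorithm. -/
def PP : Set (Set (List Bool)) :=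
  {L | ∃ (V : List Bool → List Bool) (p : Polynomial ℕ), PolyTime V ∧
    ∀ x, x ∈ L ↔ 1 / 2 < pr (acc V x (p.eval x.length))}

/-- `PP` over `B`: the class of the languages in `PP` that have an algorithm whose predicate on the
random bits is, for each input `x`, computed by a circuit of polynomial size over `B`. -/
def PPover (B : Set BFun) : Set (Set (List Bool)) :=
  {L | ∃ (V : List Bool → List Bool) (p q : Polynomial ℕ), PolyTime V ∧
    ∀ x, Computes B (p.eval x.length) (q.eval x.length) (acc V x (p.eval x.length)) ∧
      (x ∈ L ↔ 1 / 2 < pr (acc V x (p.eval x.length)))}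

/-- The same with at least half of the strings in place of more than half of them. -/
def PPgeOver (B : Set BFun) : Set (Set (List Bool)) :=
  {L | ∃ (V : List Bool → List Bool) (p q : Polynomial ℕ), PolyTime V ∧
    ∀ x, Computes B (p.eval x.length) (q.eval x.length) (acc V x (p.eval x.length)) ∧
      (x ∈ L ↔ 1 / 2 ≤ pr (acc V x (p.eval x.length)))}

/-- The complements of the languages in a class. -/
def co (C : Set (Set (List Bool))) : Set (Set (List Bool)) := {L | Lᶜ ∈ C}

/-! ### auxiliary notions for the proof -/

/-- the first of the pairs `(u i, v i)` with equal components decides; if there is none: `c` -/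
def fnd {n : ℕ} (u v : Fin n → Bool) (c : Bool) : Bool :=
  (((List.ofFn fun i => (u i, v i)).filter fun p => p.1 == p.2).map Prod.fst ++ [c]).headD false

/-- the monotone version of `C`, on pairs of bits -/
def FR (n : ℕ) (C : BF n) : BF (n + n) := fun z =>
  fnd (fun i => z (Fin.castAdd n i)) (fun i => z (Fin.natAdd n i)) (C fun i => z (Fin.castAdd n i))

/-- the self-dual version of `M` -/
def MJ (n : ℕ) (M : BF n) : BF (n + 2) := fun y =>
  if y 0 = y 1 then y 0 else if y 1 = true then M (fun i => y i.succ.succ)
  else !M (fun i => !y i.succ.succ)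

/-- the function for the gate sets with majority and disjunction -/
def WM (n : ℕ) (C : BF n) : BF (n + n + 2) := fun y =>
  MJ (n + n) (FR n C) y || MJ (n + n) (FR n fun _ => false) y

/-- the function for the gate sets with `a ∨ (b ∧ ¬ c)` -/
def S2 (n : ℕ) (C : BF n) : BF (n + 2) := fun y => y 0 || (y 1 && C fun i => y i.succ.succ)

/-- dual function -/
def dualBF {n : ℕ} (f : BF n) : BF n := fun x => !f fun i => !x i

/-- the easy gate sets -/
def EasyPP (B : Set BFun) : Prop :=
  B ⊆ Aff ∨ B ⊆ Conj ∨ B ⊆ Disj ∨ B ⊆ SelfDual ∨ B ⊆ And2 ∨ (B ⊆ Mon ∧ B ⊆ Or3)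

end Pool.Agent.H547R8
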