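import Pool.Agent.H547R8.Defs
import Pool.Agent.H547R7.T_CLO
import Pool.Agent.H545R2.KS.Base
import Pool.Agent.NPC.CookLevin3

/-!
# Statements of the tasks
-/

set_option autoImplicit false

namespace Pool.Agent.H547R8

open Pool.Agent.H547R6 Pool.Agent.H547R7 Pool.Agent.NPC

/-- The bits of the configurations `R r` with pointers and cell numbers below `H` are constant or
available. -/
def AvB {n : ℕ} {Q K A : Type} [DecidableEq Q] [DecidableEq A] (H : ℕ) (l : List (BF n))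
    (R : (Fin n → Bool) → CL.Cf Q K A) : Prop :=
  (∀ q, MCa l fun r => decide ((R r).q = q)) ∧
  (∀ k h, h < H → MCa l fun r => decide ((R r).h k = h)) ∧
  (∀ k j o, j < H → MCa l fun r => decide ((R r).m k j = o))

/-- one step of a machine in normal form by circuits -/
def S_LAY : Prop := ∀ (Q K A : Type) [Fintype Q] [Fintype K] [Fintype A] [DecidableEq Q]
  [DecidableEq K] [DecidableEq A] (M : CL.NM Q K A), ∃ c : ℕ, ∀ (n H s : ℕ) (l : List (BF n))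
  (R : (Fin n → Bool) → CL.Cf Q K A), AON n s l → AvB H l R → (∀ r k, (R r).h k < H) →
    (∀ r k, (M.step (R r)).h k < H) →
    ∃ (l' : List (BF n)) (s' : ℕ), AON n s' (l' ++ l) ∧ s' ≤ s + c * (H + 1) ^ 2 ∧
      AvB H (l' ++ l) fun r => M.step (R r)

/-- polynomial-time predicates have circuits of polynomial size -/
def S_CKT : Prop := ∀ V : List Bool → List Bool, PolyTime V → ∀ p : Polynomial ℕ,
  (∀ m, 1 ≤ p.eval m) → ∃ q : Polynomial ℕ, ∀ x : List Bool,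
    Comp0 (p.eval x.length) (q.eval x.length) (acc V x (p.eval x.length))

/-- the classes are closed under composition -/
def S_CLS : Prop := ∀ B K : Set BFun, (K = Aff ∨ K = Conj ∨ K = Disj ∨ K = SelfDual ∨ K = And2 ∨
  K = Or2 ∨ K = Mon ∨ K = Or3) → B ⊆ K → ∀ (n s : ℕ) (C : BF n), Computes B n s C →
  (⟨n, C⟩ : BFun) ∈ K

/-- unit vector -/
def ev {n : ℕ} (i : Fin n) : Fin n → Bool := fun j => decide (j = i)

/-- probabilities for the classes, first part -/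
def S_PR1 : Prop := ∀ (n : ℕ) (C : BF n),
  ((⟨n, C⟩ : BFun) ∈ SelfDual → pr C = 1 / 2) ∧
  ((⟨n, C⟩ : BFun) ∈ And2 → pr C ≤ 1 / 2) ∧
  ((⟨n, C⟩ : BFun) ∈ Or2 → (1 / 2 < pr C ↔ ∃ x, C x = true ∧ C (fun i => !x i) = true)) ∧
  ((⟨n, C⟩ : BFun) ∈ Mon → (⟨n, C⟩ : BFun) ∈ Or3 →
    (1 / 2 < pr C ↔ ¬ ∃ i, C (ev i) = true ∧ C (fun j => !ev i j) = false))

/-- probabilities for the classes, second part -/
def S_PR2 : Prop := ∀ (n : ℕ) (C : BF n),
  ((⟨n, C⟩ : BFun) ∈ Aff → (1 / 2 < pr C ↔ C (fun _ => false) = true ∧ ∀ i, C (ev i) = true)) ∧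
  ((⟨n, C⟩ : BFun) ∈ Conj → (1 / 2 < pr C ↔ C (fun _ => false) = true)) ∧
  ((⟨n, C⟩ : BFun) ∈ Disj → (1 / 2 < pr C ↔
    C (fun _ => false) = true ∨ ∃ i j, i ≠ j ∧ C (ev i) = true ∧ C (ev j) = true))

/-- upper bounds, first part -/
def S_UP1 : Prop := ∀ B : Set BFun, (B ⊆ Aff ∨ B ⊆ Conj ∨ B ⊆ Disj) → PPover B ⊆ P

/-- upper bounds, second part -/
def S_UP2 : Prop := ∀ B : Set BFun, (B ⊆ SelfDual ∨ B ⊆ And2 ∨ (B ⊆ Mon ∧ B ⊆ Or3)) →
  PPover B ⊆ P

/-- upper bounds, third part -/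
def S_UP3 : Prop := ∀ B : Set BFun, B ⊆ Or2 → PPover B ⊆ NP

/-- closure, first part -/
def S_CPP : Prop := ∀ B : Set BFun, ¬ EasyPP B → ¬ B ⊆ Or2 → Op2 B band ∧ Op2 B bor

/-- closure, second part -/
def S_CN : Prop := ∀ B : Set BFun, ¬ EasyPP B → B ⊆ Or2 →
  Op3 B (fun a b c => a || (b && !c)) ∨ (Op3 B bmaj ∧ Op2 B bor)

/-- monotone circuits for `FR` -/
def S_DRC : Prop := ∀ (n s : ℕ) (C : BF n), Comp0 n s C →
  Computes MB (n + n) (2 * s + 4 * n) (FR n C)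

/-- simulation of monotone circuits -/
def S_MBB : Prop := ∀ B : Set BFun, Op2 B band → Op2 B bor →
  ∃ c : ℕ, ∀ (n s : ℕ) (f : BF n), Computes MB n s f → Computes B n (c * s) f

/-- circuits for `S2` -/
def S_S2C : Prop := ∀ B : Set BFun, Op3 B (fun a b c => a || (b && !c)) →
  ∃ c : ℕ, ∀ (n s : ℕ) (C : BF n), Comp0 n s C → Computes B (n + 2) (c * (s + n + 1)) (S2 n C)

/-- circuits for `MJ` -/
def S_MJC : Prop := ∀ B : Set BFun, Op3 B bmaj →
  ∃ c : ℕ, ∀ (n s : ℕ) (M : BF n), Computes MB n s M → Computes B (n + 2) (c * (s + 1)) (MJ n M)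

/-- circuits for `WM` -/
def S_WMC : Prop := ∀ B : Set BFun, Op3 B bmaj → Op2 B bor →
  ∃ c : ℕ, ∀ (n s : ℕ) (C : BF n), Comp0 n s C →
    Computes B (n + n + 2) (c * (s + n + 1)) (WM n C)

/-- probability of `FR` -/
def S_PFR : Prop := ∀ (n : ℕ) (C : BF n), pr (FR n C) - 1 / 2 = (pr C - 1 / 2) / 2 ^ n

/-- probability of `S2` -/
def S_PS2 : Prop := ∀ (n : ℕ) (C : BF n), pr (S2 n C) = 1 / 2 + pr C / 4

/-- probability of `WM` -/
def S_PWM : Prop := ∀ (n : ℕ) (C : BF n), (1 / 2 < pr (WM n C) ↔ ∃ r, C r = true)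

/-- `FR` in polynomial time -/
def S_TFR : Prop := ∀ V : List Bool → List Bool, PolyTime V →
  ∃ V' : List Bool → List Bool, PolyTime V' ∧ ∀ x n, acc V' x (n + n) = FR n (acc V x n)

/-- `S2` in polynomial time -/
def S_TS2 : Prop := ∀ V : List Bool → List Bool, PolyTime V →
  ∃ V' : List Bool → List Bool, PolyTime V' ∧ ∀ x n, acc V' x (n + 2) = S2 n (acc V x n)

/-- `WM` in polynomial time -/
def S_TWM : Prop := ∀ V : List Bool → List Bool, PolyTime V →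
  ∃ V' : List Bool → List Bool, PolyTime V' ∧ ∀ x n, acc V' x (n + n + 2) = WM n (acc V x n)

/-- normal form for `PP` -/
def S_NFP : Prop := ∀ L ∈ PP, ∃ (V : List Bool → List Bool) (p : Polynomial ℕ), PolyTime V ∧
  (∀ m, 1 ≤ p.eval m) ∧ ∀ x, x ∈ L ↔ 1 / 2 < pr (acc V x (p.eval x.length))

/-- normal form for `NP` -/
def S_NFN : Prop := ∀ L ∈ NP, ∃ (V : List Bool → List Bool) (p : Polynomial ℕ), PolyTime V ∧
  (∀ m, 1 ≤ p.eval m) ∧ ∀ x, x ∈ L ↔ ∃ r, acc V x (p.eval x.length) r = true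

/-- duality -/
def S_DUL : Prop := ∀ (B : Set BFun) (L : Set (List Bool)),
  L ∈ PPgeOver B ↔ Lᶜ ∈ PPover (dualB B)

/-- `P` is closed under complement -/
def S_COP : Prop := co P = P

end Pool.Agent.H547R8
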