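import Pool.Agent.H547R8.Stm

/-!
# Statements of the tasks, second part
-/

set_option autoImplicit false

namespace Pool.Agent.H547R8

open Pool.Agent.H547R6 Pool.Agent.H547R7 Pool.Agent.NPC

/-- `PP` is closed under complement -/
def S_CPC : Prop := co PP = PP

end Pool.Agent.H547R8
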