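import Pool.Agent.H547R8.T_LAY

/-!
# Polynomial-time predicates have polynomial-size circuits
-/

set_option autoImplicit false

namespace Pool.Agent.H547R8

open Pool.Agent.H547R6 Pool.Agent.H547R7 Pool.Agent.NPC

lemma CKT_fun1 {n : ℕ} {l : List (BF n)} (g : Bool → Bool) (i : Fin n) :
    Ob 0 l fun r => g (r i) := by
  have hv : Ob 0 l fun r => r i := Ob.of_MCa (Or.inr (Or.inr ⟨i, rfl⟩))
  cases h1 : g true <;> cases h0 : g false
  · have : (fun r : Fin n → Bool => g (r i)) = fun _ => false := by
      funext r; cases h : r i <;> simp [h0, h1]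
    rw [this]; exact Ob.const _
  · have : (fun r : Fin n → Bool => g (r i)) = fun r => !r i := by
      funext r; cases h : r i <;> simp [h0, h1]
    rw [this]; exact hv.not
  · have : (fun r : Fin n → Bool => g (r i)) = fun r => r i := by
      funext r; cases h : r i <;> simp [h0, h1]
    rw [this]; exact hv
  · have : (fun r : Fin n → Bool => g (r i)) = fun _ => true := by
      funext r; cases h : r i <;> simp [h0, h1]
    rw [this]; exact Ob.const _

/-- the initial configuration costs nothing -/
lemma CKT_init {Q K A : Type} [Fintype Q] [Fintype K] [Fintype A] [DecidableEq Q]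
    [DecidableEq K] [DecidableEq A] (D : CL.Tab Q K A) (n : ℕ) (y : List Bool) (H : ℕ) :
    ∃ l : List (BF n), AON n 0 l ∧ AvB H l fun r => CL.init D n y (List.ofFn r) := by
  have hq : ∀ q', Ob 0 ([] : List (BF n)) fun r =>
      decide ((CL.init D n y (List.ofFn r)).q = q') := fun q' => Ob.const (decide (D.q₀ = q'))
  have hh : ∀ k h', Ob 0 ([] : List (BF n)) fun r =>
      decide ((CL.init D n y (List.ofFn r)).h k = h') := fun k h' =>
    Ob.const (decide ((if k = D.k₀ then n + y.length else 0) = h'))
  have hm : ∀ k j o', Ob 0 ([] : List (BF n)) fun r =>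
      decide ((CL.init D n y (List.ofFn r)).m k j = o') := by
    intro k j o'
    by_cases hk : k = D.k₀
    · have key : ∀ r : Fin n → Bool, (CL.init D n y (List.ofFn r)).m k j =
          if hj : j < n then some (D.sym (r ⟨n - 1 - j, by omega⟩)) else
            ((y.reverse.map fun b => some (D.sym b))[j - n]?).join := by
        intro r
        simp only [CL.init, if_pos hk, List.length_ofFn, Nat.sub_self, List.replicate_zero,
          List.nil_append, List.map_append, List.reverse_append]
        by_cases hj : j < n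
        · rw [dif_pos hj, List.getElem?_append_left (by simpa using hj),
            List.getElem?_reverse (by simpa using hj)]
          simp [show n - 1 - j < n by omega]
        · rw [dif_neg hj, List.getElem?_append_right (by simpa using hj)]
          simp
      by_cases hj : j < n
      · have : (fun r : Fin n → Bool => decide ((CL.init D n y (List.ofFn r)).m k j = o')) =
            fun r => (fun b => decide (some (D.sym b) = o')) (r ⟨n - 1 - j, by omega⟩) := by
          funext r
          rw [Bool.eq_iff_iff, decide_eq_true_iff, decide_eq_true_iff, key r, dif_pos hj]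
        rw [this]
        exact CKT_fun1 (fun b => decide (some (D.sym b) = o')) _
      · have : (fun r : Fin n → Bool => decide ((CL.init D n y (List.ofFn r)).m k j = o')) =
            fun _ => decide (((y.reverse.map fun b => some (D.sym b))[j - n]?).join = o') := by
          funext r
          rw [Bool.eq_iff_iff, decide_eq_true_iff, decide_eq_true_iff, key r, dif_neg hj]
        rw [this]
        exact Ob.const _
    · have : (fun r : Fin n → Bool => decide ((CL.init D n y (List.ofFn r)).m k j = o')) =
          fun _ => decide (none = o') := by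
        funext r
        rw [Bool.eq_iff_iff, decide_eq_true_iff, decide_eq_true_iff]
        simp only [CL.init, if_neg hk]
      rw [this]
      exact Ob.const _
  let L1 : List (BF n) := (Finset.univ : Finset Q).toList.map
    fun q r => decide ((CL.init D n y (List.ofFn r)).q = q)
  let L2 : List (BF n) := (Finset.univ : Finset K).toList.flatMap fun k =>
    (List.range H).map fun h r => decide ((CL.init D n y (List.ofFn r)).h k = h)
  let L3 : List (BF n) := (Finset.univ : Finset (K × Option A)).toList.flatMap fun k =>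
    (List.range H).map fun j r => decide ((CL.init D n y (List.ofFn r)).m k.1 j = k.2)
  have hL : ∀ f ∈ L1 ++ (L2 ++ L3), Ob 0 ([] : List (BF n)) f := by
    intro f hf
    rw [List.mem_append, List.mem_append] at hf
    rcases hf with hf | hf | hf
    · obtain ⟨q, _, rfl⟩ := List.mem_map.1 hf
      exact hq q
    · obtain ⟨k, _, hf⟩ := List.mem_flatMap.1 hf
      obtain ⟨h, _, rfl⟩ := List.mem_map.1 hf
      exact hh k h
    · obtain ⟨k, _, hf⟩ := List.mem_flatMap.1 hf
      obtain ⟨j, _, rfl⟩ := List.mem_map.1 hf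
      exact hm k.1 j k.2
  obtain ⟨l', s', h1, h2, h3⟩ := Ob.family _ hL AON.nil
  rw [List.append_nil] at h1 h3
  have hs' : s' = 0 := by simpa using h2
  subst hs'
  refine ⟨l', h1, ?_, ?_, ?_⟩
  · intro q
    exact h3 _ (List.mem_append_left _ (List.mem_map.2 ⟨q, by simp, rfl⟩))
  · intro k h hh'
    exact h3 _ (List.mem_append_right _ (List.mem_append_left _
      (List.mem_flatMap.2 ⟨k, by simp, List.mem_map.2 ⟨h, List.mem_range.2 hh', rfl⟩⟩)))
  · intro k j o hj
    exact h3 _ (List.mem_append_right _ (List.mem_append_right _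
      (List.mem_flatMap.2 ⟨(k, o), by simp, List.mem_map.2 ⟨j, List.mem_range.2 hj, rfl⟩⟩)))

lemma CKT_ptr {Q K A : Type} [DecidableEq K] (D : CL.Tab Q K A) (P : ℕ) (y w : List Bool)
    (t : ℕ) (k : K) : (CL.run D P y w t).h k ≤ P + y.length + t := by
  have h1 := CL.iterate_ptr_le D.M (CL.init D P y w) k t
  have h2 : (CL.init D P y w).h k ≤ P + y.length := by
    simp only [CL.init]
    split_ifs <;> omega
  unfold CL.run
  omega

/-- the configurations at time `t` -/
lemma CKT_run {Q K A : Type} [Fintype Q] [Fintype K] [Fintype A] [DecidableEq Q]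
    [DecidableEq K] [DecidableEq A] (D : CL.Tab Q K A) (c : ℕ)
    (hc : ∀ (n H s : ℕ) (l : List (BF n)) (R : (Fin n → Bool) → CL.Cf Q K A), AON n s l →
      AvB H l R → (∀ r k, (R r).h k < H) → (∀ r k, (D.M.step (R r)).h k < H) →
      ∃ (l' : List (BF n)) (s' : ℕ), AON n s' (l' ++ l) ∧ s' ≤ s + c * (H + 1) ^ 2 ∧
        AvB H (l' ++ l) fun r => D.M.step (R r))
    (n : ℕ) (y : List Bool) (N : ℕ) (t : ℕ) (ht : t ≤ N) :
    ∃ (l : List (BF n)) (s : ℕ), AON n s l ∧ s ≤ t * (c * (n + y.length + N + 2 + 1) ^ 2) ∧
      AvB (n + y.length + N + 2) l fun r => CL.run D n y (List.ofFn r) t := by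
  induction t with
  | zero =>
    obtain ⟨l, h1, h2⟩ := CKT_init D n y (n + y.length + N + 2)
    exact ⟨l, 0, h1, by omega, h2⟩
  | succ t ih =>
    obtain ⟨l, s, h1, h2, h3⟩ := ih (by omega)
    obtain ⟨l', s', g1, g2, g3⟩ := hc n (n + y.length + N + 2) s l _ h1 h3
      (fun r k => by have := CKT_ptr D n y (List.ofFn r) t k; omega)
      (fun r k => by
        have := CKT_ptr D n y (List.ofFn r) (t + 1) k
        rw [CL.run_succ] at this
        omega)
    refine ⟨l' ++ l, s', g1, ?_, ?_⟩
    · rw [add_mul, one_mul]; omega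
    · have e : (fun r : Fin n → Bool => CL.run D n y (List.ofFn r) (t + 1)) =
          fun r => D.M.step (CL.run D n y (List.ofFn r) t) := by
        funext r
        rw [CL.run_succ]
      rw [e]
      exact g3

/-- the cell below is empty -/
def CKT_prev {Q K A : Type} [DecidableEq A] (D : CL.Tab Q K A) (c : CL.Cf Q K A) : ℕ → Bool
  | 0 => true
  | n + 1 => decide (c.m D.k₁ n = none)

/-- the acceptance condition -/
def CKT_f {Q K A : Type} [DecidableEq A] (D : CL.Tab Q K A) (H : ℕ) (c : CL.Cf Q K A) : Bool :=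
  D.acc c.q && (List.range (H - 1)).any fun n => decide (c.h D.k₁ = n + 1) &&
    (D.good (c.m D.k₁ n) && CKT_prev D c n)

lemma CKT_f_iff {Q K A : Type} [DecidableEq A] (D : CL.Tab Q K A) (H : ℕ) (c : CL.Cf Q K A)
    (hH : c.h D.k₁ < H) : CKT_f D H c = true ↔ CL.Accepts D c := by
  unfold CKT_f CL.Accepts
  rw [Bool.and_eq_true, List.any_eq_true]
  refine and_congr_right fun _ => ?_
  constructor
  · rintro ⟨n, _, h⟩
    rw [Bool.and_eq_true, Bool.and_eq_true, decide_eq_true_iff] at h
    refine ⟨n, h.1, h.2.1, ?_⟩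
    intro n' hn'
    subst hn'
    simpa [CKT_prev] using h.2.2
  · rintro ⟨n, h1, h2, h3⟩
    refine ⟨n, List.mem_range.2 (by omega), ?_⟩
    rw [Bool.and_eq_true, Bool.and_eq_true, decide_eq_true_iff]
    refine ⟨h1, h2, ?_⟩
    cases n with
    | zero => rfl
    | succ n' => simpa [CKT_prev] using h3 n' rfl

lemma CKT_acc {Q K A : Type} [Fintype Q] [Fintype A] [DecidableEq Q]
    [DecidableEq A] (D : CL.Tab Q K A) {n H : ℕ} {l : List (BF n)}
    {R : (Fin n → Bool) → CL.Cf Q K A} (hA : AvB H l R) :
    Ob (2 * Fintype.card Q + (H * (2 * Fintype.card A + 5)) + 1) l fun r => CKT_f D H (R r) := by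
  have h1 : Ob (2 * Fintype.card Q) l fun r => D.acc (R r).q := by
    have h := Ob.bind (k1 := 0) (k2 := 0) (l := l) (Finset.univ : Finset Q).toList
      (fun r => (R r).q) (fun q _ => D.acc q) (fun r => by simp)
      (fun q _ => Ob.of_MCa (hA.1 q)) (fun q _ => Ob.const _)
    refine h.mono ?_
    rw [Finset.length_toList, Finset.card_univ]
    apply le_of_eq; ring
  have h2 : ∀ j, j < H → Ob (2 * (Fintype.card A + 1)) l fun r => D.good ((R r).m D.k₁ j) := by
    intro j hj
    have h := Ob.bind (k1 := 0) (k2 := 0) (l := l) (Finset.univ : Finset (Option A)).toList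
      (fun r => (R r).m D.k₁ j) (fun o _ => D.good o) (fun r => by simp)
      (fun o _ => Ob.of_MCa (hA.2.2 D.k₁ j o hj)) (fun o _ => Ob.const _)
    refine h.mono ?_
    rw [Finset.length_toList, Finset.card_univ, Fintype.card_option]
    apply le_of_eq; ring
  have h3 : ∀ j ∈ List.range (H - 1), Ob (0 + (2 * (Fintype.card A + 1) + 0 + 1) + 1) l fun r =>
      decide ((R r).h D.k₁ = j + 1) && (D.good ((R r).m D.k₁ j) && CKT_prev D (R r) j) := by
    intro j hj
    rw [List.mem_range] at hj
    have h5 : Ob 0 l fun r => CKT_prev D (R r) j := by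
      cases j with
      | zero => exact Ob.const true
      | succ j => exact Ob.of_MCa (hA.2.2 D.k₁ j none (by omega))
    have h6 : Ob 0 l fun r => decide ((R r).h D.k₁ = j + 1) :=
      Ob.of_MCa (hA.2.1 D.k₁ (j + 1) (by omega))
    exact h6.and ((h2 j (by omega)).and h5)
  have h4 := h1.and (Ob.any (List.range (H - 1)) _ h3)
  refine h4.mono ?_
  rw [List.length_range]
  have : (H - 1) * (0 + (2 * (Fintype.card A + 1) + 0 + 1) + 1 + 1) ≤
      H * (2 * Fintype.card A + 5) := by
    apply Nat.mul_le_mul (Nat.sub_le _ _)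
    omega
  omega

lemma CKT_comp {n s k : ℕ} {l : List (BF n)} {f : BF n} (hn : 1 ≤ n) (hs : AON n s l)
    (h : Ob k l f) : Comp0 n (s + k + 1) f := by
  obtain ⟨l', s', h1, h2, h3⟩ := h [] s hs
  rw [List.nil_append] at h1 h3
  rcases h3 with ⟨b, hb⟩ | h3
  · let i : Fin n := ⟨0, by omega⟩
    have a1 : Avail (l' ++ l) fun x : Fin n → Bool => x i := Or.inr ⟨i, rfl⟩
    have g1 := AON.not s' (l' ++ l) _ h1 a1
    have g2 := AON.and s' _ (fun x : Fin n → Bool => x i) (fun x => !x i) g1 (Or.inr ⟨i, rfl⟩)
      (Or.inl List.mem_cons_self)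
    cases b
    · refine ⟨_, s' + 1, g2, by omega, Or.inl ?_⟩
      have e : f = fun x => x i && !x i := by
        funext x; rw [hb x]; simp
      rw [e]
      exact List.mem_cons_self
    · have g3 := AON.not (s' + 1) _ (fun x => x i && !x i) g2 (Or.inl List.mem_cons_self)
      refine ⟨_, s' + 1, g3, by omega, Or.inl ?_⟩
      have e : f = fun x => !(x i && !x i) := by
        funext x; rw [hb x]; simp
      rw [e]
      exact List.mem_cons_self
  · exact ⟨_, s', h1, by omega, h3⟩

theorem t_CKT (h : S_LAY) : S_CKT := by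
  classical
  intro V hV p hp
  obtain ⟨hV⟩ := hV
  obtain ⟨c, hc⟩ := h (CL.NQ hV.tm) hV.tm.K (CL.NA hV.tm)
    (CL.tab hV.tm hV.inputAlphabet hV.outputAlphabet).M
  let R : Polynomial ℕ := (hV.time.comp (Polynomial.C 2 * Polynomial.X + Polynomial.C 1 + p)) *
      Polynomial.C (CL.maxDepth hV.tm)
  let Hp : Polynomial ℕ := p + (Polynomial.C 2 * Polynomial.X + Polynomial.C 1) + R + Polynomial.C 2
  refine ⟨R * (Polynomial.C c * (Hp + Polynomial.C 1) ^ 2) +
    (Polynomial.C (2 * Fintype.card (CL.NQ hV.tm)) +
      Hp * Polynomial.C (2 * Fintype.card (CL.NA hV.tm) + 5) + Polynomial.C 1) +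
    Polynomial.C 1, ?_⟩
  intro x
  have key : ∀ w : List Bool, w.length ≤ p.eval x.length →
      (V (pairBits x w) = [true] ↔ CL.Accepts (CL.tab hV.tm hV.inputAlphabet hV.outputAlphabet)
        (CL.run (CL.tab hV.tm hV.inputAlphabet hV.outputAlphabet) (p.eval x.length)
          (CL.pairPre x) w (R.eval x.length))) := by
    intro w hw
    rw [CL.pairBits_eq]
    refine CL.tab_correct hV.tm hV.inputAlphabet hV.outputAlphabet V _ _ _ _ _ hw
      (hV.outputsFun (CL.pairPre x ++ w)) ?_
    simp only [R]
    rw [Polynomial.eval_mul, Polynomial.eval_C, Polynomial.eval_comp]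
    refine Nat.mul_le_mul_right _ (eval_mono _ ?_)
    simp only [id_eq, List.length_append, CL.pairPre_length, Polynomial.eval_add,
      Polynomial.eval_mul, Polynomial.eval_C, Polynomial.eval_X]
    omega
  set D := CL.tab hV.tm hV.inputAlphabet hV.outputAlphabet with hD
  set n := p.eval x.length with hn
  obtain ⟨l, s, h1, h2, h3⟩ := CKT_run D c hc n (CL.pairPre x) (R.eval x.length)
    (R.eval x.length) le_rfl
  have h4 := CKT_comp (hp x.length) h1 (CKT_acc D h3)
  have h5 : acc V x n = fun r => CKT_f D (n + (CL.pairPre x).length + R.eval x.length + 2)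
      (CL.run D n (CL.pairPre x) (List.ofFn r) (R.eval x.length)) := by
    funext r
    unfold acc
    rw [Bool.eq_iff_iff, decide_eq_true_iff, key (List.ofFn r) (by simp), CKT_f_iff]
    have := CKT_ptr D n (CL.pairPre x) (List.ofFn r) (R.eval x.length) D.k₁
    omega
  rw [h5]
  obtain ⟨l', s', g1, g2, g3⟩ := h4
  refine ⟨l', s', g1, g2.trans ?_, g3⟩
  have hHp : Hp.eval x.length = n + (CL.pairPre x).length + R.eval x.length + 2 := by
    simp only [Hp, Polynomial.eval_add, Polynomial.eval_mul, Polynomial.eval_C, Polynomial.eval_X,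
      CL.pairPre_length]
    omega
  simp only [Polynomial.eval_add, Polynomial.eval_mul, Polynomial.eval_C, Polynomial.eval_pow]
  rw [hHp]
  omega

end Pool.Agent.H547R8
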