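import Pool.Agent.H547R8.Stm

/-!
# The classes are closed under composition
-/

set_option autoImplicit false

namespace Pool.Agent.H547R8

open Pool.Agent.H547R6 Pool.Agent.H547R7 Pool.Agent.NPC

theorem CLS_gen {B K : Set BFun} (hv : ∀ (n : ℕ) (i : Fin n), (⟨n, fun x => x i⟩ : BFun) ∈ K)
    (hc : ∀ (n k : ℕ) (f : (Fin k → Bool) → Bool) (g : Fin k → BF n), (⟨k, f⟩ : BFun) ∈ K →
      (∀ j, (⟨n, g j⟩ : BFun) ∈ K) → (⟨n, fun x => f fun j => g j x⟩ : BFun) ∈ K)
    (hB : B ⊆ K) (n : ℕ) (l : List (BF n)) (hl : Gates B n l) :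
    ∀ f, Avail l f → (⟨n, f⟩ : BFun) ∈ K := by
  induction hl with
  | nil =>
    rintro f (h | ⟨i, rfl⟩)
    · simp at h
    · exact hv n i
  | gate l k f g hf hg hl ih =>
    rintro e (h | ⟨i, rfl⟩)
    · rcases List.mem_cons.mp h with h | h
      · rw [h]
        exact hc n k f g (hB hf) fun j => ih _ (hg j)
      · exact ih e (Or.inl h)
    · exact hv n i

theorem CLS_comp {B K : Set BFun} (hv : ∀ (n : ℕ) (i : Fin n), (⟨n, fun x => x i⟩ : BFun) ∈ K)
    (hc : ∀ (n k : ℕ) (f : (Fin k → Bool) → Bool) (g : Fin k → BF n), (⟨k, f⟩ : BFun) ∈ K →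
      (∀ j, (⟨n, g j⟩ : BFun) ∈ K) → (⟨n, fun x => f fun j => g j x⟩ : BFun) ∈ K)
    (hB : B ⊆ K) (n s : ℕ) (C : BF n) (h : Computes B n s C) : (⟨n, C⟩ : BFun) ∈ K := by
  obtain ⟨l, hl, -, hC⟩ := h
  exact CLS_gen hv hc hB n l hl C hC

theorem CLS_Aff {n : ℕ} {f : BF n} : (⟨n, f⟩ : BFun) ∈ Aff ↔ ∀ x y z : Fin n → Bool,
    f (fun i => xor (x i) (xor (y i) (z i))) = xor (f x) (xor (f y) (f z)) := Iff.rfl

theorem CLS_Conj {n : ℕ} {f : BF n} : (⟨n, f⟩ : BFun) ∈ Conj ↔ ∀ x y : Fin n → Bool,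
    f (fun i => x i && y i) = (f x && f y) := Iff.rfl

theorem CLS_Disj {n : ℕ} {f : BF n} : (⟨n, f⟩ : BFun) ∈ Disj ↔ ∀ x y : Fin n → Bool,
    f (fun i => x i || y i) = (f x || f y) := Iff.rfl

theorem CLS_SelfDual {n : ℕ} {f : BF n} : (⟨n, f⟩ : BFun) ∈ SelfDual ↔ ∀ x : Fin n → Bool,
    f (fun i => !x i) = !f x := Iff.rfl

theorem CLS_And2 {n : ℕ} {f : BF n} : (⟨n, f⟩ : BFun) ∈ And2 ↔ ∀ x y : Fin n → Bool,
    (∀ i, x i = false ∨ y i = false) → f x = false ∨ f y = false := Iff.rfl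

theorem CLS_Or2 {n : ℕ} {f : BF n} : (⟨n, f⟩ : BFun) ∈ Or2 ↔ ∀ x y : Fin n → Bool,
    (∀ i, x i = true ∨ y i = true) → f x = true ∨ f y = true := Iff.rfl

theorem CLS_Mon {n : ℕ} {f : BF n} : (⟨n, f⟩ : BFun) ∈ Mon ↔ ∀ x y : Fin n → Bool,
    (∀ i, x i = true → y i = true) → f x = true → f y = true := Iff.rfl

theorem CLS_Or3 {n : ℕ} {f : BF n} : (⟨n, f⟩ : BFun) ∈ Or3 ↔ ∀ x y z : Fin n → Bool,
    (∀ i, x i = true ∨ y i = true ∨ z i = true) → f x = true ∨ f y = true ∨ f z = true := Iff.rfl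

theorem t_CLS : S_CLS := by
  intro B K hK hB n s C hC
  rcases hK with rfl | rfl | rfl | rfl | rfl | rfl | rfl | rfl
  · refine CLS_comp (fun n i => CLS_Aff.mpr fun x y z => rfl) (fun n k f g hf hg =>
      CLS_Aff.mpr fun x y z => ?_) hB n s C hC
    have h2 : (fun j => g j fun i => xor (x i) (xor (y i) (z i))) =
        fun j => xor (g j x) (xor (g j y) (g j z)) := funext fun j => CLS_Aff.mp (hg j) x y z
    rw [h2]
    exact CLS_Aff.mp hf (fun j => g j x) (fun j => g j y) (fun j => g j z)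
  · refine CLS_comp (fun n i => CLS_Conj.mpr fun x y => rfl) (fun n k f g hf hg =>
      CLS_Conj.mpr fun x y => ?_) hB n s C hC
    have h2 : (fun j => g j fun i => x i && y i) =
        fun j => (g j x && g j y) := funext fun j => CLS_Conj.mp (hg j) x y
    rw [h2]
    exact CLS_Conj.mp hf (fun j => g j x) (fun j => g j y)
  · refine CLS_comp (fun n i => CLS_Disj.mpr fun x y => rfl) (fun n k f g hf hg =>
      CLS_Disj.mpr fun x y => ?_) hB n s C hC
    have h2 : (fun j => g j fun i => x i || y i) =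
        fun j => (g j x || g j y) := funext fun j => CLS_Disj.mp (hg j) x y
    rw [h2]
    exact CLS_Disj.mp hf (fun j => g j x) (fun j => g j y)
  · refine CLS_comp (fun n i => CLS_SelfDual.mpr fun x => rfl) (fun n k f g hf hg =>
      CLS_SelfDual.mpr fun x => ?_) hB n s C hC
    have h2 : (fun j => g j fun i => !x i) = fun j => !g j x :=
      funext fun j => CLS_SelfDual.mp (hg j) x
    rw [h2]
    exact CLS_SelfDual.mp hf (fun j => g j x)
  · exact CLS_comp (fun n i => CLS_And2.mpr fun x y h => h i) (fun n k f g hf hg =>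
      CLS_And2.mpr fun x y h => CLS_And2.mp hf (fun j => g j x) (fun j => g j y)
        fun j => CLS_And2.mp (hg j) x y h) hB n s C hC
  · exact CLS_comp (fun n i => CLS_Or2.mpr fun x y h => h i) (fun n k f g hf hg =>
      CLS_Or2.mpr fun x y h => CLS_Or2.mp hf (fun j => g j x) (fun j => g j y)
        fun j => CLS_Or2.mp (hg j) x y h) hB n s C hC
  · exact CLS_comp (fun n i => CLS_Mon.mpr fun x y h => h i) (fun n k f g hf hg =>
      CLS_Mon.mpr fun x y h => CLS_Mon.mp hf (fun j => g j x) (fun j => g j y)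
        fun j => CLS_Mon.mp (hg j) x y h) hB n s C hC
  · exact CLS_comp (fun n i => CLS_Or3.mpr fun x y z h => h i) (fun n k f g hf hg =>
      CLS_Or3.mpr fun x y z h => CLS_Or3.mp hf (fun j => g j x) (fun j => g j y) (fun j => g j z)
        fun j => CLS_Or3.mp (hg j) x y z h) hB n s C hC

end Pool.Agent.H547R8
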