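import Pool.Agent.H547R8.T_UP1

/-!
# `P` is closed under complement
-/

set_option autoImplicit false

namespace Pool.Agent.H547R8

open Pool.Agent.H547R6 Pool.Agent.H547R7 Pool.Agent.NPC
open Pool.Agent.H583R2 Pool.Agent.H545R2.KS

theorem COP_compl {L : Set (List Bool)} (h : L ∈ P) : Lᶜ ∈ P := by
  obtain ⟨V, hV, hL⟩ := h
  refine UP1_inP (b := fun x => !(V x == [true]))
    (PF.not (PF.beqStr (pf_of_polyTime hV) (PF.const [true]))) fun x => ?_
  rw [Set.mem_compl_iff, hL x, Bool.not_eq_true', beq_eq_false_iff_ne]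

theorem t_COP : S_COP := by
  ext L
  constructor
  · intro h
    have := COP_compl (L := Lᶜ) h
    rwa [compl_compl] at this
  · intro h
    exact COP_compl h

end Pool.Agent.H547R8
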