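import Pool.Agent.H547R8.Stm

/-!
# Upper bounds, first part
-/

set_option autoImplicit false

namespace Pool.Agent.H547R8

open Pool.Agent.H547R6 Pool.Agent.H547R7 Pool.Agent.NPC
open Pool.Agent.H583R2 Pool.Agent.H545R2.KS

theorem UP1_inP {L : Set (List Bool)} {b : List Bool → Bool} (hb : PF b)
    (h : ∀ x, x ∈ L ↔ b x = true) : L ∈ P := by
  refine ⟨fun x => if b x = true then [true] else [], polyTime_of_pf ?_, fun x => ?_⟩
  · exact PF.ite hb (PF.const [true]) (PF.const [])
  · rw [h x]
    cases hx : b x <;> simp [hx]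

/-- the unit vector as a list -/
def UP1_u (p : Polynomial ℕ) (x : List Bool) (i : ℕ) : List Bool :=
  (List.range (p.eval x.length)).map fun j => decide (j = i)

theorem UP1_pf_u {α : Type} [H583R2.TEnc α] (p : Polynomial ℕ) {x : α → List Bool} {i : α → ℕ} (hx : PF x)
    (hi : PF i) : PF (fun a => UP1_u p (x a) (i a)) := by
  unfold UP1_u
  exact PF.map (f := fun a j => decide (j = i a)) (PF.range (pf_eval (PF.length hx) p))
    (PF.natEq PF.snd (hi.comp PF.fst))

/-- the string is accepted -/
def UP1_A (V : List Bool → List Bool) (x w : List Bool) : Bool := V (pairBits x w) == [true]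

theorem UP1_pf_A {α : Type} [H583R2.TEnc α] {V : List Bool → List Bool} (hV : PolyTime V)
    {x w : α → List Bool} (hx : PF x) (hw : PF w) : PF (fun a => UP1_A V (x a) (w a)) := by
  unfold UP1_A
  exact PF.beqStr ((pf_of_polyTime hV).comp (pf_pairBits hx hw)) (PF.const [true])

theorem UP1_acc {V : List Bool → List Bool} {x : List Bool} {n : ℕ} (r : Fin n → Bool) :
    acc V x n r = UP1_A V x (List.ofFn r) := by
  unfold acc UP1_A
  by_cases h : V (pairBits x (List.ofFn r)) = [true] <;> simp [h]

theorem UP1_zero {V : List Bool → List Bool} {x : List Bool} {n : ℕ} :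
    acc V x n (fun _ => false) = UP1_A V x (List.replicate n false) := by
  rw [UP1_acc, List.ofFn_const]

theorem UP1_ev {V : List Bool → List Bool} (p : Polynomial ℕ) {x : List Bool}
    (i : Fin (p.eval x.length)) :
    acc V x (p.eval x.length) (ev i) = UP1_A V x (UP1_u p x i.val) := by
  rw [UP1_acc]
  congr 1
  unfold UP1_u
  apply List.ext_getElem
  · simp
  · intro k h1 h2
    simp [ev, Fin.ext_iff]

theorem t_UP1 (h1 : S_CLS) (h2 : S_PR2) : S_UP1 := by
  intro B hB L hL
  obtain ⟨V, p, q, hV, hL⟩ := hL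
  have hn : PF (fun x : List Bool => p.eval x.length) := pf_eval (PF.length PF.id) p
  rcases hB with hB | hB | hB
  · -- affine
    have hcls : ∀ x : List Bool, (⟨_, acc V x (p.eval x.length)⟩ : BFun) ∈ Aff := fun x =>
      h1 B Aff (Or.inl rfl) hB _ _ _ (hL x).1
    refine UP1_inP (b := fun x => UP1_A V x (List.replicate (p.eval x.length) false) &&
      (List.range (p.eval x.length)).all fun i => UP1_A V x (UP1_u p x i)) ?_ fun x => ?_
    · exact PF.and (UP1_pf_A hV PF.id (PF.replicate hn (PF.const false)))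
        (PF.all (f := fun x i => UP1_A V x (UP1_u p x i)) (PF.range hn)
          (UP1_pf_A hV PF.fst (UP1_pf_u p PF.fst PF.snd)))
    · rw [(hL x).2, ((h2 _ _).1 (hcls x)), UP1_zero, Bool.and_eq_true, List.all_eq_true]
      refine and_congr_right fun _ => ⟨fun h i hi => ?_, fun h i => ?_⟩
      · have := h ⟨i, List.mem_range.1 hi⟩
        rw [UP1_ev] at this
        exact this
      · rw [UP1_ev]
        exact h i.val (List.mem_range.2 i.2)
  · -- conjunctive
    have hcls : ∀ x : List Bool, (⟨_, acc V x (p.eval x.length)⟩ : BFun) ∈ Conj := fun x =>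
      h1 B Conj (Or.inr (Or.inl rfl)) hB _ _ _ (hL x).1
    refine UP1_inP (b := fun x => UP1_A V x (List.replicate (p.eval x.length) false)) ?_ fun x => ?_
    · exact UP1_pf_A hV PF.id (PF.replicate hn (PF.const false))
    · rw [(hL x).2, ((h2 _ _).2.1 (hcls x)), UP1_zero]
  · -- disjunctive
    have hcls : ∀ x : List Bool, (⟨_, acc V x (p.eval x.length)⟩ : BFun) ∈ Disj := fun x =>
      h1 B Disj (Or.inr (Or.inr (Or.inl rfl))) hB _ _ _ (hL x).1
    refine UP1_inP (b := fun x => UP1_A V x (List.replicate (p.eval x.length) false) ||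
      (List.range (p.eval x.length)).any fun i => (List.range (p.eval x.length)).any fun j =>
        ((!decide (i = j)) && UP1_A V x (UP1_u p x i)) && UP1_A V x (UP1_u p x j)) ?_ fun x => ?_
    · refine PF.or (UP1_pf_A hV PF.id (PF.replicate hn (PF.const false)))
        (PF.any (f := fun x i => (List.range (p.eval x.length)).any fun j =>
        ((!decide (i = j)) && UP1_A V x (UP1_u p x i)) && UP1_A V x (UP1_u p x j)) (PF.range hn) ?_)
      refine PF.any (f := fun (a : List Bool × ℕ) j => ((!decide (a.2 = j)) &&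
        UP1_A V a.1 (UP1_u p a.1 a.2)) && UP1_A V a.1 (UP1_u p a.1 j))
        (PF.range (hn.comp PF.fst)) ?_
      exact PF.and (PF.and (PF.not (PF.natEq (PF.snd' PF.fst) PF.snd))
        (UP1_pf_A hV (PF.fst' PF.fst) (UP1_pf_u p (PF.fst' PF.fst) (PF.snd' PF.fst))))
        (UP1_pf_A hV (PF.fst' PF.fst) (UP1_pf_u p (PF.fst' PF.fst) PF.snd))
    · rw [(hL x).2, ((h2 _ _).2.2 (hcls x)), UP1_zero, Bool.or_eq_true, List.any_eq_true]
      refine or_congr_right ⟨?_, ?_⟩
      · rintro ⟨i, j, hij, hi, hj⟩
        refine ⟨i.val, List.mem_range.2 i.2, ?_⟩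
        rw [List.any_eq_true]
        refine ⟨j.val, List.mem_range.2 j.2, ?_⟩
        rw [UP1_ev] at hi hj
        rw [hi, hj]
        have : ¬ (i.val = j.val) := fun h => hij (Fin.ext h)
        simp [this]
      · rintro ⟨i, hi, h⟩
        rw [List.any_eq_true] at h
        obtain ⟨j, hj, h⟩ := h
        rw [Bool.and_eq_true, Bool.and_eq_true] at h
        obtain ⟨⟨h3, h4⟩, h5⟩ := h
        refine ⟨⟨i, List.mem_range.1 hi⟩, ⟨j, List.mem_range.1 hj⟩, ?_, ?_, ?_⟩
        · intro h
          have : i = j := congrArg Fin.val h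
          simp [this] at h3
        · rw [UP1_ev]; exact h4
        · rw [UP1_ev]; exact h5

end Pool.Agent.H547R8
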