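import Pool.Agent.H547R8.Stm2
import Pool.Agent.H547R8.T_UP1

/-!
# `PP` is closed under complement
-/

set_option autoImplicit false

namespace Pool.Agent.H547R8

open Pool.Agent.H547R6 Pool.Agent.H547R7 Pool.Agent.NPC
open Pool.Agent.H583R2 Pool.Agent.H545R2.KS

/-- the new predicate -/
def CPC_b (p : Polynomial ℕ) (V : List Bool → List Bool) (w : List Bool) : Bool :=
  (!UP1_A V (spl w).1 ((spl w).2.take (p.eval (spl w).1.length))) ||
    !(((spl w).2.drop (p.eval (spl w).1.length)).any fun b => b)

/-- the new algorithm -/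
def CPC_W (p : Polynomial ℕ) (V : List Bool → List Bool) (w : List Bool) : List Bool :=
  if CPC_b p V w = true then [true] else []

theorem CPC_poly (p : Polynomial ℕ) {V : List Bool → List Bool} (hV : PolyTime V) :
    PolyTime (CPC_W p V) := by
  apply polyTime_of_pf
  have hs : PF (fun w : List Bool => spl w) := PF.spl PF.id
  have h1 : PF (fun w : List Bool => (spl w).1) := PF.fst' hs
  have h2 : PF (fun w : List Bool => (spl w).2) := PF.snd' hs
  have hn : PF (fun w : List Bool => p.eval (spl w).1.length) := pf_eval (PF.length h1) p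
  refine PF.ite (PF.or (PF.not (UP1_pf_A hV h1 (PF.take hn h2))) (PF.not ?_)) (PF.const [true])
    (PF.const [])
  exact PF.any (f := fun _ b => b) (PF.drop hn h2) PF.snd

theorem CPC_acc (p : Polynomial ℕ) (V : List Bool → List Bool) (x : List Bool)
    (r s : Fin (p.eval x.length) → Bool) :
    acc (CPC_W p V) x (p.eval x.length + p.eval x.length) (Fin.append r s) =
      ((!acc V x (p.eval x.length) r) || decide (s = fun _ => false)) := by
  have e1 : (List.ofFn r ++ List.ofFn s).take (p.eval x.length) = List.ofFn r := by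
    rw [List.take_append_of_le_length (by simp), List.take_of_length_le (by simp)]
  have e2 : (List.ofFn r ++ List.ofFn s).drop (p.eval x.length) = List.ofFn s := by
    rw [List.drop_append_of_le_length (by simp), List.drop_of_length_le (by simp), List.nil_append]
  have e3 : CPC_b p V (pairBits x (List.ofFn (Fin.append r s))) =
      ((!acc V x (p.eval x.length) r) || decide (s = fun _ => false)) := by
    unfold CPC_b
    rw [spl_pairBits, List.ofFn_fin_append]
    simp only
    rw [e1, e2, ← UP1_acc]
    congr 1
    rw [Bool.eq_iff_iff, decide_eq_true_iff, Bool.not_eq_true', ← Bool.not_eq_true,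
      List.any_eq_true]
    push Not
    constructor
    · intro h
      funext i
      have := h (s i) (by rw [List.mem_ofFn]; exact ⟨i, rfl⟩)
      simpa using this
    · intro h b hb
      rw [List.mem_ofFn] at hb
      obtain ⟨i, rfl⟩ := hb
      rw [h]; simp
  show decide (CPC_W p V (pairBits x (List.ofFn (Fin.append r s))) = [true]) = _
  unfold CPC_W
  rw [e3]
  generalize ((!acc V x (p.eval x.length) r) || decide (s = fun _ => false)) = b
  cases b <;> simp

theorem CPC_count (n : ℕ) (A : BF n) (B : BF (n + n))
    (h : ∀ r s, B (Fin.append r s) = ((!A r) || decide (s = fun _ => false))) :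
    (Finset.univ.filter fun x => B x = true).card =
      (Finset.univ.filter fun x => A x = true).card +
      (Finset.univ.filter fun x => ¬ A x = true).card * 2 ^ n := by
  rw [Finset.card_filter, Finset.card_filter, Finset.card_filter, Finset.sum_mul,
    ← Finset.sum_add_distrib, ← (Fin.appendEquiv n n).sum_comp, Fintype.sum_prod_type]
  refine Finset.sum_congr rfl fun r _ => ?_
  have e : ∀ s, Fin.appendEquiv n n (r, s) = Fin.append r s := fun s => rfl
  simp only [e, h]
  cases hA : A r
  · simp
  · simp

theorem CPC_key (T a b : ℕ) (n : ℕ) (hn : 1 ≤ n) (hT : T = 2 ^ n) (hab : a + b = T) :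
    T * T < 2 * (a + b * T) ↔ ¬ T < 2 * a := by
  obtain ⟨m, rfl⟩ : ∃ m, n = m + 1 := ⟨n - 1, by omega⟩
  rw [pow_succ] at hT
  set S := 2 ^ m with hS
  have hS0 : 0 < S := by positivity
  subst hT
  constructor
  · intro h hc
    have h1 : S + 1 ≤ a := by omega
    have h2 : b + 1 ≤ S := by omega
    have h3 : b * (S * 2) ≤ (S - 1) * (S * 2) := Nat.mul_le_mul_right _ (by omega)
    have h4 : (S - 1) * (S * 2) + S * 2 = S * (S * 2) := by
      obtain ⟨k, hk⟩ : ∃ k, S = k + 1 := ⟨S - 1, by omega⟩
      rw [hk]; simp; ring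
    have h5 : a ≤ S * 2 := by omega
    nlinarith
  · intro hc
    have h1 : S ≤ b := by omega
    have h2 : S * (S * 2) ≤ b * (S * 2) := Nat.mul_le_mul_right _ h1
    rcases Nat.eq_zero_or_pos a with ha | ha
    · have : b = S * 2 := by omega
      rw [ha, this]; nlinarith
    · nlinarith

theorem CPC_comp (h : S_NFP) (L : Set (List Bool)) (hL : L ∈ PP) : Lᶜ ∈ PP := by
  obtain ⟨V, p, hV, hp, hx⟩ := h L hL
  refine ⟨CPC_W p V, p + p, CPC_poly p hV, fun x => ?_⟩
  rw [Set.mem_compl_iff, hx x, Polynomial.eval_add]
  set n := p.eval x.length with hn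
  have hc := CPC_count n (acc V x n) (acc (CPC_W p V) x (n + n)) (fun r s => CPC_acc p V x r s)
  have hab := Finset.card_filter_add_card_filter_not (s := (Finset.univ : Finset (Fin n → Bool)))
    (fun r => acc V x n r = true)
  rw [Finset.card_univ] at hab
  have hcard : Fintype.card (Fin n → Bool) = 2 ^ n := by simp
  have hcard2 : Fintype.card (Fin (n + n) → Bool) = 2 ^ n * 2 ^ n := by simp [pow_add]
  rw [hcard] at hab
  have key := CPC_key (2 ^ n) _ _ n (hp x.length) rfl hab
  have hT : (0 : ℝ) < ((2 ^ n : ℕ) : ℝ) := by positivity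
  have hTT : (0 : ℝ) < ((2 ^ n * 2 ^ n : ℕ) : ℝ) := by positivity
  have e1 : 1 / 2 < pr (acc V x n) ↔
      2 ^ n < 2 * (Finset.univ.filter fun r => acc V x n r = true).card := by
    unfold pr
    rw [hcard, lt_div_iff₀ hT]
    constructor
    · intro h
      have : ((2 ^ n : ℕ) : ℝ) <
          ((2 * (Finset.univ.filter fun r => acc V x n r = true).card : ℕ) : ℝ) := by
        rw [Nat.cast_mul]; push_cast at h ⊢; linarith
      exact_mod_cast this
    · intro h
      have : ((2 ^ n : ℕ) : ℝ) <
          ((2 * (Finset.univ.filter fun r => acc V x n r = true).card : ℕ) : ℝ) := by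
        exact_mod_cast h
      rw [Nat.cast_mul] at this; push_cast at this ⊢; linarith
  have e2 : 1 / 2 < pr (acc (CPC_W p V) x (n + n)) ↔
      2 ^ n * 2 ^ n <
        2 * (Finset.univ.filter fun r => acc (CPC_W p V) x (n + n) r = true).card := by
    unfold pr
    rw [hcard2, lt_div_iff₀ hTT]
    constructor
    · intro h
      have : ((2 ^ n * 2 ^ n : ℕ) : ℝ) <
          ((2 * (Finset.univ.filter fun r => acc (CPC_W p V) x (n + n) r = true).card : ℕ) : ℝ) := by
        rw [Nat.cast_mul (2 : ℕ)]; push_cast at h ⊢; linarith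
      exact_mod_cast this
    · intro h
      have : ((2 ^ n * 2 ^ n : ℕ) : ℝ) <
          ((2 * (Finset.univ.filter fun r => acc (CPC_W p V) x (n + n) r = true).card : ℕ) : ℝ) := by
        exact_mod_cast h
      rw [Nat.cast_mul (2 : ℕ)] at this; push_cast at this ⊢; linarith
  rw [e1, e2, hc]
  exact key.symm

theorem t_CPC (h : S_NFP) : S_CPC := by
  unfold S_CPC
  ext L
  constructor
  · intro hL
    have := CPC_comp h _ hL
    rwa [compl_compl] at this
  · intro hL
    exact CPC_comp h L hL

end Pool.Agent.H547R8
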