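import Pool.Agent.H547R8.Stm

/-!
# Task DRC: monotone circuits for `FR` (dual rail)
-/

set_option autoImplicit false

namespace Pool.Agent.H547R8

open Pool.Agent.H547R6 Pool.Agent.H547R7 Pool.Agent.NPC

theorem DRC_avail_cons {n : ℕ} {l : List (BF n)} {f : BF n} (g : BF n) (h : Avail l f) :
    Avail (g :: l) f := by
  rcases h with h | h
  · exact Or.inl (List.mem_cons_of_mem _ h)
  · exact Or.inr h

theorem DRC_and {n : ℕ} {l : List (BF n)} {a b : BF n} (h : Gates MB n l) (ha : Avail l a)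
    (hb : Avail l b) : Gates MB n ((fun x => a x && b x) :: l) := by
  have := Gates.gate (B := MB) (n := n) l 2 (fun x => x 0 && x 1) ![a, b] (Or.inl rfl)
    (fun j => by fin_cases j <;> assumption) h
  exact this

theorem DRC_or {n : ℕ} {l : List (BF n)} {a b : BF n} (h : Gates MB n l) (ha : Avail l a)
    (hb : Avail l b) : Gates MB n ((fun x => a x || b x) :: l) := by
  have := Gates.gate (B := MB) (n := n) l 2 (fun x => x 0 || x 1) ![a, b] (Or.inr rfl)
    (fun j => by fin_cases j <;> assumption) h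
  exact this

/-- dual rail pairs -/
def DRC_pair {n : ℕ} (l2 : List (BF (n + n))) (f : BF n) : Prop :=
  ∃ f1 f0 : BF (n + n), Avail l2 f1 ∧ Avail l2 f0 ∧
    ∀ z : Fin (n + n) → Bool, (∀ i, z (Fin.natAdd n i) = !z (Fin.castAdd n i)) →
      f1 z = f (fun i => z (Fin.castAdd n i)) ∧ f0 z = !f (fun i => z (Fin.castAdd n i))

theorem DRC_pair_cons {n : ℕ} {l2 : List (BF (n + n))} {f : BF n} (g : BF (n + n))
    (h : DRC_pair l2 f) : DRC_pair (g :: l2) f := by
  obtain ⟨f1, f0, h1, h0, h⟩ := h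
  exact ⟨f1, f0, DRC_avail_cons g h1, DRC_avail_cons g h0, h⟩

theorem DRC_rail {n s : ℕ} {l : List (BF n)} (h : AON n s l) :
    ∃ l2 : List (BF (n + n)), Gates MB (n + n) l2 ∧ l2.length ≤ 2 * s ∧
      ∀ f, Avail l f → DRC_pair l2 f := by
  induction h with
  | nil =>
    refine ⟨[], Gates.nil, by simp, ?_⟩
    rintro f (hf | ⟨i, rfl⟩)
    · simp at hf
    · exact ⟨fun z => z (Fin.castAdd n i), fun z => z (Fin.natAdd n i), Or.inr ⟨_, rfl⟩,
        Or.inr ⟨_, rfl⟩, fun z hz => ⟨rfl, hz i⟩⟩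
  | not s l a h ha ih =>
    obtain ⟨l2, g2, hl, hp⟩ := ih
    refine ⟨l2, g2, hl, ?_⟩
    rintro f (hf | hf)
    · rcases List.mem_cons.1 hf with rfl | hf
      · obtain ⟨a1, a0, h1, h0, hh⟩ := hp a ha
        refine ⟨a0, a1, h0, h1, fun z hz => ?_⟩
        obtain ⟨e1, e0⟩ := hh z hz
        simp [e1, e0]
      · exact hp f (Or.inl hf)
    · exact hp f (Or.inr hf)
  | and s l a b h ha hb ih =>
    obtain ⟨l2, g2, hl, hp⟩ := ih
    obtain ⟨a1, a0, ha1, ha0, hha⟩ := hp a ha
    obtain ⟨b1, b0, hb1, hb0, hhb⟩ := hp b hb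
    have k1 := DRC_and g2 ha1 hb1
    have k2 := DRC_or k1 (DRC_avail_cons _ ha0) (DRC_avail_cons _ hb0)
    refine ⟨_, k2, by simp; omega, ?_⟩
    rintro f (hf | hf)
    · rcases List.mem_cons.1 hf with rfl | hf
      · refine ⟨fun x => a1 x && b1 x, fun x => a0 x || b0 x, Or.inl (by simp),
          Or.inl (by simp), fun z hz => ?_⟩
        obtain ⟨e1, e0⟩ := hha z hz
        obtain ⟨e1', e0'⟩ := hhb z hz
        simp [e1, e0, e1', e0']
      · exact DRC_pair_cons _ (DRC_pair_cons _ (hp f (Or.inl hf)))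
    · exact DRC_pair_cons _ (DRC_pair_cons _ (hp f (Or.inr hf)))
  | or s l a b h ha hb ih =>
    obtain ⟨l2, g2, hl, hp⟩ := ih
    obtain ⟨a1, a0, ha1, ha0, hha⟩ := hp a ha
    obtain ⟨b1, b0, hb1, hb0, hhb⟩ := hp b hb
    have k1 := DRC_or g2 ha1 hb1
    have k2 := DRC_and k1 (DRC_avail_cons _ ha0) (DRC_avail_cons _ hb0)
    refine ⟨_, k2, by simp; omega, ?_⟩
    rintro f (hf | hf)
    · rcases List.mem_cons.1 hf with rfl | hf
      · refine ⟨fun x => a1 x || b1 x, fun x => a0 x && b0 x, Or.inl (by simp),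
          Or.inl (by simp), fun z hz => ?_⟩
        obtain ⟨e1, e0⟩ := hha z hz
        obtain ⟨e1', e0'⟩ := hhb z hz
        simp [e1, e0, e1', e0']
      · exact DRC_pair_cons _ (DRC_pair_cons _ (hp f (Or.inl hf)))
    · exact DRC_pair_cons _ (DRC_pair_cons _ (hp f (Or.inr hf)))

/-- the first pair with equal components -/
def DRC_g (L : List (Bool × Bool)) (c : Bool) : Bool :=
  ((L.filter fun p => p.1 == p.2).map Prod.fst ++ [c]).headD false

theorem DRC_g_nil (c : Bool) : DRC_g [] c = c := rfl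

theorem DRC_g_cons (p : Bool × Bool) (L : List (Bool × Bool)) (c : Bool) :
    DRC_g (p :: L) c = ((p.1 && p.2) || ((p.1 || p.2) && DRC_g L c)) := by
  obtain ⟨a, b⟩ := p
  cases a <;> cases b <;> simp [DRC_g, List.filter_cons]

theorem DRC_g_indep (L : List (Bool × Bool)) (h : ∃ p ∈ L, p.1 = p.2) (c c' : Bool) :
    DRC_g L c = DRC_g L c' := by
  induction L with
  | nil => obtain ⟨p, hp, _⟩ := h; simp at hp
  | cons q L ih =>
    rw [DRC_g_cons, DRC_g_cons]
    by_cases hq : q.1 = q.2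
    · rw [hq]; cases q.2 <;> simp
    · have : ∃ p ∈ L, p.1 = p.2 := by
        obtain ⟨p, hp, hpe⟩ := h
        rcases List.mem_cons.1 hp with rfl | hp
        · exact absurd hpe hq
        · exact ⟨p, hp, hpe⟩
      rw [ih this]

theorem DRC_chain {N : ℕ} (Ls : List (Fin N × Fin N)) {l : List (BF N)} (hl : Gates MB N l)
    (c : BF N) (hc : Avail l c) : ∃ l' : List (BF N), Gates MB N l' ∧
      l'.length ≤ l.length + 4 * Ls.length ∧
      Avail l' (fun z => DRC_g (Ls.map fun p => (z p.1, z p.2)) (c z)) := by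
  induction Ls with
  | nil => exact ⟨l, hl, by simp, hc⟩
  | cons p Ls ih =>
    obtain ⟨l', g', hlen, hav⟩ := ih
    have hv : ∀ (i : Fin N) (l : List (BF N)), Avail l (fun z => z i) := fun i l => Or.inr ⟨i, rfl⟩
    have k1 := DRC_and g' (hv p.1 _) (hv p.2 _)
    have k2 := DRC_or k1 (hv p.1 _) (hv p.2 _)
    have k3 := DRC_and k2 (a := fun z => z p.1 || z p.2) (Or.inl (by simp))
      (DRC_avail_cons _ (DRC_avail_cons _ hav))
    have k4 := DRC_or k3 (a := fun z => z p.1 && z p.2) (Or.inl (by simp))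
      (b := fun x => (x p.1 || x p.2) && DRC_g (Ls.map fun p => (x p.1, x p.2)) (c x))
      (Or.inl (by simp))
    refine ⟨_, k4, by simp only [List.length_cons]; omega, Or.inl ?_⟩
    have : (fun z : Fin N → Bool => DRC_g ((p :: Ls).map fun p => (z p.1, z p.2)) (c z)) =
        fun x => (x p.1 && x p.2) ||
          ((x p.1 || x p.2) && DRC_g (Ls.map fun p => (x p.1, x p.2)) (c x)) := by
      funext z
      rw [List.map_cons, DRC_g_cons]
    rw [this]
    exact List.mem_cons_self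

theorem t_DRC : S_DRC := by
  intro n s C hC
  obtain ⟨l, s', hl, hs, hav⟩ := hC
  obtain ⟨l2, g2, hlen, hp⟩ := DRC_rail hl
  obtain ⟨c1, c0, hc1, _, hh⟩ := hp C hav
  obtain ⟨l3, g3, hlen3, hav3⟩ := DRC_chain
    (List.ofFn fun i : Fin n => (Fin.castAdd n i, Fin.natAdd n i)) g2 c1 hc1
  refine ⟨l3, g3, ?_, ?_⟩
  · rw [List.length_ofFn] at hlen3
    omega
  · have : FR n C = fun z => DRC_g ((List.ofFn fun i : Fin n =>
        (Fin.castAdd n i, Fin.natAdd n i)).map fun p => (z p.1, z p.2)) (c1 z) := by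
      funext z
      rw [List.map_ofFn]
      have e : FR n C z = DRC_g (List.ofFn ((fun p : Fin (n + n) × Fin (n + n) => (z p.1, z p.2)) ∘
        fun i : Fin n => (Fin.castAdd n i, Fin.natAdd n i))) (C fun i => z (Fin.castAdd n i)) := rfl
      rw [e]
      by_cases hx : ∃ i : Fin n, z (Fin.castAdd n i) = z (Fin.natAdd n i)
      · obtain ⟨i, hi⟩ := hx
        apply DRC_g_indep
        refine ⟨(z (Fin.castAdd n i), z (Fin.natAdd n i)), ?_, hi⟩
        rw [List.mem_ofFn]
        exact ⟨i, rfl⟩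
      · push Not at hx
        have hz : ∀ i, z (Fin.natAdd n i) = !z (Fin.castAdd n i) := by
          intro i
          have := hx i
          cases h1 : z (Fin.castAdd n i) <;> cases h2 : z (Fin.natAdd n i) <;> simp_all
        rw [(hh z hz).1]
    rw [this]
    exact hav3

end Pool.Agent.H547R8
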