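import Pool.Agent.H547R8.Stm

/-!
# Task DUL (helper279): duality
-/

set_option autoImplicit false

namespace Pool.Agent.H547R8

open Pool.Agent.H547R6 Pool.Agent.H547R7 Pool.Agent.NPC
open Pool.Agent.H583R2 Pool.Agent.H545R2.KS

theorem DUL_avail {n : ℕ} {l : List (BF n)} {f : BF n} (h : Avail l f) :
    Avail (l.map dualBF) (dualBF f) := by
  rcases h with h | ⟨i, rfl⟩
  · exact Or.inl (List.mem_map_of_mem h)
  · refine Or.inr ⟨i, ?_⟩
    funext x
    simp [dualBF]

theorem DUL_gates {B : Set BFun} {n : ℕ} {l : List (BF n)} (h : Gates (dualB B) n l) :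
    Gates B n (l.map dualBF) := by
  induction h with
  | nil => exact Gates.nil
  | gate l k f g hf hg hl ih =>
    have h1 := Gates.gate (l.map dualBF) k (fun y => !f (fun j => !y j)) (fun j => dualBF (g j)) hf
      (fun j => DUL_avail (hg j)) ih
    have h2 : ((fun x => f fun j => g j x) :: l).map dualBF =
        (fun x => (fun y => !f (fun j => !y j)) fun j => dualBF (g j) x) :: l.map dualBF := by
      rw [List.map_cons]
      congr 1
      funext x
      simp [dualBF]
    rw [h2]
    exact h1

theorem DUL_comp {B : Set BFun} {n s : ℕ} {C : BF n} (h : Computes (dualB B) n s C) :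
    Computes B n s (dualBF C) := by
  obtain ⟨l, h1, h2, h3⟩ := h
  exact ⟨l.map dualBF, DUL_gates h1, by rw [List.length_map]; exact h2, DUL_avail h3⟩

theorem DUL_comp' {B : Set BFun} {n s : ℕ} {C : BF n} (h : Computes B n s C) :
    Computes (dualB B) n s (dualBF C) := by
  rw [← dualB_dualB B] at h
  exact DUL_comp h

theorem DUL_pr_not {Ω : Type} [Fintype Ω] [Nonempty Ω] (p : Ω → Bool) :
    pr (fun x => !p x) = 1 - pr p := by
  classical
  have h0 : (0 : ℝ) < Fintype.card Ω := by exact_mod_cast Fintype.card_pos
  have h1 : (Finset.univ.filter fun x => p x = true).card +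
      (Finset.univ.filter fun x => (!p x) = true).card = Fintype.card Ω := by
    have h2 := Finset.card_filter_add_card_filter_not (s := (Finset.univ : Finset Ω))
      (fun x => p x = true)
    rw [Finset.card_univ] at h2
    rw [← h2]
    congr 2
    ext x
    simp
  have h3 : ((Finset.univ.filter fun x => p x = true).card : ℝ) +
      (Finset.univ.filter fun x => (!p x) = true).card = Fintype.card Ω := by exact_mod_cast h1
  unfold pr
  rw [eq_sub_iff_add_eq, ← add_div, div_eq_one_iff_eq h0.ne', add_comm]
  exact h3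

theorem DUL_pr_flip {n : ℕ} (C : BF n) : pr (fun x : Fin n → Bool => C (fun i => !x i)) = pr C := by
  classical
  unfold pr
  congr 2
  refine Finset.card_bij' (fun x _ => fun i => !x i) (fun x _ => fun i => !x i) ?_ ?_ ?_ ?_
  · intro x hx
    rw [Finset.mem_filter] at hx ⊢
    exact ⟨Finset.mem_univ _, hx.2⟩
  · intro x hx
    rw [Finset.mem_filter] at hx ⊢
    refine ⟨Finset.mem_univ _, ?_⟩
    simpa using hx.2
  · intro x _
    simp
  · intro x _
    simp

theorem DUL_pr {n : ℕ} (C : BF n) : pr (dualBF C) = 1 - pr C := by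
  have h := DUL_pr_not (fun x : Fin n → Bool => C (fun i => !x i))
  rw [DUL_pr_flip] at h
  exact h

/-- the algorithm with the complemented random bits and the complemented answer -/
def DUL_V (V : List Bool → List Bool) (y : List Bool) : List Bool :=
  if (!(V (pairBits (spl y).1 ((spl y).2.map fun b => !b)) == [true])) = true then [true] else []

theorem DUL_poly {V : List Bool → List Bool} (hV : PolyTime V) : PolyTime (DUL_V V) := by
  refine polyTime_of_pf ?_
  unfold DUL_V
  refine PF.ite (PF.not (PF.beqStr ((pf_of_polyTime hV).comp (pf_pairBits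
    (PF.fst' (PF.spl PF.id)) ?_)) (PF.const [true]))) (PF.const [true]) (PF.const [])
  exact PF.map (f := fun _ b => !b) (PF.snd' (PF.spl PF.id)) (PF.not PF.snd)

theorem DUL_acc (V : List Bool → List Bool) (x : List Bool) (n : ℕ) :
    acc (DUL_V V) x n = dualBF (acc V x n) := by
  funext r
  unfold acc dualBF DUL_V
  rw [spl_pairBits]
  have h : (List.ofFn r).map (fun b => !b) = List.ofFn fun i => !r i := by
    rw [List.map_ofFn]
    rfl
  simp only [h]
  by_cases h1 : V (pairBits x (List.ofFn fun i => !r i)) = [true] <;> simp [h1]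

theorem t_DUL : S_DUL := by
  intro B L
  constructor
  · rintro ⟨V, p, q, hV, h⟩
    refine ⟨DUL_V V, p, q, DUL_poly hV, fun x => ?_⟩
    rw [DUL_acc, DUL_pr]
    refine ⟨DUL_comp' (h x).1, ?_⟩
    rw [Set.mem_compl_iff, (h x).2, not_le]
    constructor
    · intro h1
      linarith
    · intro h1
      linarith
  · rintro ⟨V, p, q, hV, h⟩
    refine ⟨DUL_V V, p, q, DUL_poly hV, fun x => ?_⟩
    rw [DUL_acc, DUL_pr]
    refine ⟨DUL_comp (h x).1, ?_⟩
    rw [← not_iff_not, ← Set.mem_compl_iff, (h x).2, not_le]
    constructor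
    · intro h1
      linarith
    · intro h1
      linarith

end Pool.Agent.H547R8
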