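import Pool.Agent.H547R8.Stm

/-!
# One step of a machine in normal form by circuits
-/

set_option autoImplicit false

namespace Pool.Agent.H547R8

open Pool.Agent.H547R6 Pool.Agent.H547R7 Pool.Agent.NPC

lemma LAY_Avail_mono {n : ℕ} {l : List (BF n)} {f : BF n} (l' : List (BF n)) (h : Avail l f) :
    Avail (l' ++ l) f := by
  rcases h with h | h
  · exact Or.inl (List.mem_append_right _ h)
  · exact Or.inr h

lemma LAY_MCa_mono {n : ℕ} {l : List (BF n)} {f : BF n} (l' : List (BF n)) (h : MCa l f) :
    MCa (l' ++ l) f := by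
  rcases h with h | h
  · exact Or.inl h
  · exact Or.inr (LAY_Avail_mono l' h)

/-- `f` can be obtained with at most `k` gates from every circuit that extends `l` -/
def Ob {n : ℕ} (k : ℕ) (l : List (BF n)) (f : BF n) : Prop :=
  ∀ (m : List (BF n)) (s : ℕ), AON n s (m ++ l) →
    ∃ (l' : List (BF n)) (s' : ℕ), AON n s' (l' ++ (m ++ l)) ∧ s' ≤ s + k ∧ MCa (l' ++ (m ++ l)) f

lemma Ob.of_MCa {n k : ℕ} {l : List (BF n)} {f : BF n} (h : MCa l f) : Ob k l f := by
  intro m s hs
  exact ⟨[], s, hs, by omega, LAY_MCa_mono _ (LAY_MCa_mono _ h)⟩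

lemma Ob.const {n k : ℕ} {l : List (BF n)} (b : Bool) : Ob k l fun _ => b :=
  Ob.of_MCa (Or.inl ⟨b, fun _ => rfl⟩)

lemma Ob.mono {n k k' : ℕ} {l : List (BF n)} {f : BF n} (h : Ob k l f) (hk : k ≤ k') :
    Ob k' l f := by
  intro m s hs
  obtain ⟨l', s', h1, h2, h3⟩ := h m s hs
  exact ⟨l', s', h1, by omega, h3⟩

lemma Ob.not {n k : ℕ} {l : List (BF n)} {f : BF n} (h : Ob k l f) : Ob k l fun x => !f x := by
  intro m s hs
  obtain ⟨l', s', h1, h2, h3⟩ := h m s hs
  rcases h3 with ⟨b, hb⟩ | h3
  · exact ⟨l', s', h1, h2, Or.inl ⟨!b, fun x => by simp [hb x]⟩⟩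
  · refine ⟨(fun x => !f x) :: l', s', ?_, h2, Or.inr (Or.inl (List.mem_append_left _ List.mem_cons_self))⟩
    rw [List.cons_append]
    exact AON.not s' _ f h1 h3

lemma Ob.and {n k1 k2 : ℕ} {l : List (BF n)} {f g : BF n} (h : Ob k1 l f) (h' : Ob k2 l g) :
    Ob (k1 + k2 + 1) l fun x => f x && g x := by
  intro m s hs
  obtain ⟨l1, s1, a1, a2, a3⟩ := h m s hs
  rw [← List.append_assoc] at a1 a3
  obtain ⟨l2, s2, b1, b2, b3⟩ := h' (l1 ++ m) s1 a1
  have a3' := LAY_MCa_mono l2 a3
  rcases a3' with ⟨b, hb⟩ | a3'
  · refine ⟨l2 ++ l1, s2, ?_, by omega, ?_⟩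
    · rw [List.append_assoc, ← List.append_assoc l1]; exact b1
    · rw [List.append_assoc, ← List.append_assoc l1]
      cases b
      · exact Or.inl ⟨false, fun x => by simp [hb x]⟩
      · have : (fun x => f x && g x) = g := by
          funext x; rw [hb x]; rfl
        rw [this]; exact b3
  · rcases b3 with ⟨b, hb⟩ | b3
    · refine ⟨l2 ++ l1, s2, ?_, by omega, ?_⟩
      · rw [List.append_assoc, ← List.append_assoc l1]; exact b1
      · rw [List.append_assoc, ← List.append_assoc l1]
        cases b
        · exact Or.inl ⟨false, fun x => by simp [hb x]⟩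
        · have : (fun x => f x && g x) = f := by
            funext x; rw [hb x]; simp
          rw [this]; exact Or.inr a3'
    · refine ⟨(fun x => f x && g x) :: (l2 ++ l1), s2 + 1, ?_, by omega,
        Or.inr (Or.inl (List.mem_append_left _ List.mem_cons_self))⟩
      rw [List.cons_append, List.append_assoc, ← List.append_assoc l1]
      exact AON.and s2 _ f g b1 a3' b3

lemma Ob.or {n k1 k2 : ℕ} {l : List (BF n)} {f g : BF n} (h : Ob k1 l f) (h' : Ob k2 l g) :
    Ob (k1 + k2 + 1) l fun x => f x || g x := by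
  have h1 := (h.not.and h'.not).not
  have h2 : (fun x => f x || g x) = fun x => !(!f x && !g x) := by
    funext x
    cases f x <;> cases g x <;> rfl
  rw [h2]
  exact h1

lemma Ob.any {n k : ℕ} {l : List (BF n)} {α : Type} (L : List α) (G : α → BF n)
    (h : ∀ a ∈ L, Ob k l (G a)) : Ob (L.length * (k + 1)) l fun r => L.any fun a => G a r := by
  induction L with
  | nil => simpa using Ob.const false
  | cons a L ih =>
    have h1 := h a List.mem_cons_self
    have h2 := ih fun b hb => h b (List.mem_cons_of_mem _ hb)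
    have h3 := h1.or h2
    simp only [List.any_cons]
    refine h3.mono ?_
    rw [List.length_cons]
    apply le_of_eq
    ring

lemma Ob.bind {n k1 k2 : ℕ} {l : List (BF n)} {α : Type} [DecidableEq α] (L : List α)
    (X : (Fin n → Bool) → α) (F : α → BF n) (hX : ∀ r, X r ∈ L)
    (h1 : ∀ a ∈ L, Ob k1 l fun r => decide (X r = a)) (h2 : ∀ a ∈ L, Ob k2 l (F a)) :
    Ob (L.length * (k1 + k2 + 2)) l fun r => F (X r) r := by
  have h3 := Ob.any (k := k1 + k2 + 1) L (fun a r => decide (X r = a) && F a r)
    fun a ha => (h1 a ha).and (h2 a ha)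
  have h4 : (fun r => F (X r) r) = fun r => L.any fun a => decide (X r = a) && F a r := by
    funext r
    rw [Bool.eq_iff_iff, List.any_eq_true]
    constructor
    · intro h
      exact ⟨X r, hX r, by simpa using h⟩
    · rintro ⟨a, _, ha⟩
      rw [Bool.and_eq_true, decide_eq_true_iff] at ha
      rw [ha.1]
      exact ha.2
  rw [h4]
  exact h3

lemma Ob.family {n k : ℕ} {l : List (BF n)} (L : List (BF n)) (h : ∀ f ∈ L, Ob k l f) {s : ℕ}
    (hs : AON n s l) : ∃ (l' : List (BF n)) (s' : ℕ), AON n s' (l' ++ l) ∧ s' ≤ s + L.length * k ∧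
      ∀ f ∈ L, MCa (l' ++ l) f := by
  induction L with
  | nil => exact ⟨[], s, hs, by simp, by simp⟩
  | cons a L ih =>
    obtain ⟨l1, s1, a1, a2, a3⟩ := ih fun f hf => h f (List.mem_cons_of_mem _ hf)
    obtain ⟨l2, s2, b1, b2, b3⟩ := h a List.mem_cons_self l1 s1 a1
    refine ⟨l2 ++ l1, s2, by rw [List.append_assoc]; exact b1, ?_, ?_⟩
    · rw [List.length_cons, add_mul, one_mul]; omega
    · rw [List.append_assoc]
      intro f hf
      rcases List.mem_cons.1 hf with rfl | hf
      · exact b3
      · exact LAY_MCa_mono l2 (a3 f hf)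

lemma LAY_rd {n : ℕ} {Q K A : Type} [DecidableEq Q] [DecidableEq A] {H : ℕ} {l : List (BF n)}
    {R : (Fin n → Bool) → CL.Cf Q K A} (hA : AvB H l R) (hH : ∀ r k, (R r).h k < H) (k : K)
    (o : Option A) : Ob (2 * H) l fun r => decide ((R r).read k = o) := by
  have h1 := Ob.bind (k1 := 0) (k2 := 0) (l := l) (List.range H) (fun r => (R r).h k)
    (fun h r => decide ((match h with
      | 0 => none
      | j + 1 => (R r).m k j) = o))
    (fun r => List.mem_range.2 (hH r k))
    (fun h hh => Ob.of_MCa (hA.2.1 k h (List.mem_range.1 hh)))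
    (by
      intro h hh
      cases h with
      | zero => exact Ob.const (decide (none = o))
      | succ j =>
        exact Ob.of_MCa (hA.2.2 k j o (by have := List.mem_range.1 hh; omega)))
  refine Ob.mono (k := (List.range H).length * (0 + 0 + 2)) ?_ (by rw [List.length_range]; omega)
  exact h1

lemma LAY_ptr {n : ℕ} {Q K A : Type} [DecidableEq Q] [DecidableEq A] {H : ℕ} {l : List (BF n)}
    {R : (Fin n → Bool) → CL.Cf Q K A} (hA : AvB H l R) (hH : ∀ r k, (R r).h k < H) (k : K)
    (F : ℕ → BF n) (hF : ∀ h, h < H → Ob 0 l (F h)) : Ob (2 * H) l fun r => F ((R r).h k) r := by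
  have h1 := Ob.bind (k1 := 0) (k2 := 0) (l := l) (List.range H) (fun r => (R r).h k) F
    (fun r => List.mem_range.2 (hH r k))
    (fun h hh => Ob.of_MCa (hA.2.1 k h (List.mem_range.1 hh)))
    (fun h hh => hF h (List.mem_range.1 hh))
  exact h1.mono (by rw [List.length_range]; omega)

/-- case distinction over the state and the symbol read -/
lemma LAY_case {n : ℕ} {Q K A : Type} [Fintype Q] [Fintype A] [DecidableEq Q] [DecidableEq A]
    {H : ℕ} {l : List (BF n)} (M : CL.NM Q K A)
    {R : (Fin n → Bool) → CL.Cf Q K A} (hA : AvB H l R) (hH : ∀ r k, (R r).h k < H)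
    (F : Q → Option A → BF n) (hF : ∀ q o, Ob (2 * H) l (F q o)) :
    Ob (6 * Fintype.card Q * (Fintype.card A + 1) * (H + 1)) l
      fun r => F (R r).q ((R r).read (M.κ (R r).q)) r := by
  have h1 : ∀ q : Q, Ob ((Fintype.card A + 1) * (4 * H + 2)) l
      fun r => F q ((R r).read (M.κ q)) r := by
    intro q
    have h := Ob.bind (k1 := 2 * H) (k2 := 2 * H) (l := l) (Finset.univ : Finset (Option A)).toList
      (fun r => (R r).read (M.κ q)) (fun o => F q o) (fun r => by simp)
      (fun o _ => LAY_rd hA hH (M.κ q) o) (fun o _ => hF q o)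
    refine h.mono ?_
    rw [Finset.length_toList, Finset.card_univ, Fintype.card_option]
    apply le_of_eq; ring
  have h := Ob.bind (k1 := 0) (k2 := (Fintype.card A + 1) * (4 * H + 2)) (l := l)
    (Finset.univ : Finset Q).toList (fun r => (R r).q) (fun q r => F q ((R r).read (M.κ q)) r)
    (fun r => by simp) (fun q _ => Ob.of_MCa (hA.1 q)) (fun q _ => h1 q)
  refine h.mono ?_
  rw [Finset.length_toList, Finset.card_univ]
  nlinarith [Nat.zero_le (Fintype.card Q), Nat.zero_le (Fintype.card A), Nat.zero_le H,
    Nat.zero_le (Fintype.card Q * Fintype.card A), Nat.zero_le (Fintype.card Q * H),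
    Nat.zero_le (Fintype.card Q * (Fintype.card A * H))]

lemma LAY_step_h {Q K A : Type} [DecidableEq K] (M : CL.NM Q K A) (c : CL.Cf Q K A) (k : K) :
    (M.step c).h k = if k = M.κ c.q then
      CL.newPtr (M.δ c.q (c.read (M.κ c.q))).2 (c.read (M.κ c.q)) (c.h k) else c.h k := by
  by_cases hk : k = M.κ c.q
  · rw [if_pos hk]
    subst hk
    simp [CL.NM.step]
  · rw [if_neg hk]
    simp [CL.NM.step, Function.update_of_ne hk]

lemma LAY_step_m {Q K A : Type} [DecidableEq K] (M : CL.NM Q K A) (c : CL.Cf Q K A) (k : K)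
    (j : ℕ) : (M.step c).m k j = if k = M.κ c.q then
      CL.newMem (M.δ c.q (c.read (M.κ c.q))).2 (c.h k) (c.m k) j else c.m k j := by
  by_cases hk : k = M.κ c.q
  · rw [if_pos hk]
    subst hk
    simp [CL.NM.step]
  · rw [if_neg hk]
    simp [CL.NM.step, Function.update_of_ne hk]

theorem t_LAY : S_LAY := by
  intro Q K A _ _ _ _ _ _ M
  refine ⟨(Fintype.card Q + Fintype.card K + Fintype.card K * (Fintype.card A + 1)) *
    (6 * Fintype.card Q * (Fintype.card A + 1)), ?_⟩
  intro n H s l R hs hA hH _
  set C := 6 * Fintype.card Q * (Fintype.card A + 1) * (H + 1) with hC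
  -- the bits of the next configuration
  have hq : ∀ q', Ob C l fun r => decide ((M.step (R r)).q = q') := by
    intro q'
    exact LAY_case M hA hH (fun q o _ => decide ((M.δ q o).1 = q')) fun q o => Ob.const _
  have hh : ∀ k h', Ob C l fun r => decide ((M.step (R r)).h k = h') := by
    intro k h'
    have h1 := LAY_case M hA hH (fun q o r => if k = M.κ q then
        decide (CL.newPtr (M.δ q o).2 o ((R r).h k) = h') else decide ((R r).h k = h')) (by
      intro q o
      by_cases hk : k = M.κ q
      · simp only [if_pos hk]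
        exact LAY_ptr hA hH k (fun h _ => decide (CL.newPtr (M.δ q o).2 o h = h'))
          fun h _ => Ob.const _
      · simp only [if_neg hk]
        exact LAY_ptr hA hH k (fun h _ => decide (h = h')) fun h _ => Ob.const _)
    convert h1 using 2 with r
    simp only [LAY_step_h]
    split_ifs <;> rfl
  have hm : ∀ k j o', j < H → Ob C l fun r => decide ((M.step (R r)).m k j = o') := by
    intro k j o' hj
    have h1 := LAY_case M hA hH (fun q o r => if k = M.κ q then
        decide (CL.newMem (M.δ q o).2 ((R r).h k) ((R r).m k) j = o')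
        else decide ((R r).m k j = o')) (by
      intro q o
      have h0 : Ob (2 * H) l fun r => decide ((R r).m k j = o') := Ob.of_MCa (hA.2.2 k j o' hj)
      by_cases hk : k = M.κ q
      · simp only [if_pos hk]
        cases hop : (M.δ q o).2 with
        | keep => exact h0
        | pop => exact h0
        | push a =>
          refine LAY_ptr hA hH k (fun h r => decide (CL.newMem (CL.Op.push a) h ((R r).m k) j = o')) ?_
          intro h _
          by_cases hjh : j = h
          · subst hjh
            simp only [CL.newMem, Function.update_self]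
            exact Ob.const _
          · simp only [CL.newMem, Function.update_of_ne hjh]
            exact Ob.of_MCa (hA.2.2 k j o' hj)
      · simp only [if_neg hk]
        exact h0)
    convert h1 using 2 with r
    simp only [LAY_step_m]
    split_ifs <;> rfl
  -- all bits
  let L1 : List (BF n) := (Finset.univ : Finset Q).toList.map
    fun q r => decide ((M.step (R r)).q = q)
  let L2 : List (BF n) := (Finset.univ : Finset K).toList.flatMap fun k =>
    (List.range H).map fun h r => decide ((M.step (R r)).h k = h)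
  let L3 : List (BF n) := (Finset.univ : Finset (K × Option A)).toList.flatMap fun k =>
    (List.range H).map fun j r => decide ((M.step (R r)).m k.1 j = k.2)
  have hL : ∀ f ∈ L1 ++ (L2 ++ L3), Ob C l f := by
    intro f hf
    rw [List.mem_append, List.mem_append] at hf
    rcases hf with hf | hf | hf
    · obtain ⟨q, _, rfl⟩ := List.mem_map.1 hf
      exact hq q
    · obtain ⟨k, _, hf⟩ := List.mem_flatMap.1 hf
      obtain ⟨h, _, rfl⟩ := List.mem_map.1 hf
      exact hh k h
    · obtain ⟨k, _, hf⟩ := List.mem_flatMap.1 hf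
      obtain ⟨j, hj, rfl⟩ := List.mem_map.1 hf
      exact hm k.1 j k.2 (List.mem_range.1 hj)
  obtain ⟨l', s', h1, h2, h3⟩ := Ob.family _ hL hs
  refine ⟨l', s', h1, ?_, ?_, ?_, ?_⟩
  · refine h2.trans ?_
    have hlen : (L1 ++ (L2 ++ L3)).length ≤
        (Fintype.card Q + Fintype.card K + Fintype.card K * (Fintype.card A + 1)) * (H + 1) := by
      have e1 : L1.length = Fintype.card Q := by
        simp [L1, Finset.length_toList]
      have e2 : L2.length = Fintype.card K * H := by
        simp [L2, List.length_flatMap, Finset.length_toList]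
      have e3 : L3.length = Fintype.card K * (Fintype.card A + 1) * H := by
        simp [L3, List.length_flatMap, Finset.length_toList]
      rw [List.length_append, List.length_append, e1, e2, e3]
      nlinarith [Nat.zero_le (Fintype.card Q * H), Nat.zero_le (Fintype.card K),
        Nat.zero_le (Fintype.card K * (Fintype.card A + 1))]
    have h4 := Nat.mul_le_mul_right C hlen
    refine (Nat.add_le_add_left h4 s).trans (le_of_eq ?_)
    rw [hC]
    ring
  · intro q
    exact h3 _ (List.mem_append_left _ (List.mem_map.2 ⟨q, by simp, rfl⟩))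
  · intro k h hh'
    exact h3 _ (List.mem_append_right _ (List.mem_append_left _
      (List.mem_flatMap.2 ⟨k, by simp, List.mem_map.2 ⟨h, List.mem_range.2 hh', rfl⟩⟩)))
  · intro k j o hj
    exact h3 _ (List.mem_append_right _ (List.mem_append_right _
      (List.mem_flatMap.2 ⟨(k, o), by simp, List.mem_map.2 ⟨j, List.mem_range.2 hj, rfl⟩⟩)))

end Pool.Agent.H547R8
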