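import Pool.Agent.H547R8.Stm

/-!
# Monotone circuits over a gate set that generates AND and OR
-/

set_option autoImplicit false

namespace Pool.Agent.H547R8

open Pool.Agent.H547R6 Pool.Agent.H547R7 Pool.Agent.NPC

theorem MBB_avail_append {n : ℕ} (l' l : List (BF n)) (f : BF n) (h : Avail l f) :
    Avail (l' ++ l) f := by
  rcases h with h | h
  · exact Or.inl (List.mem_append_right _ h)
  · exact Or.inr h

theorem MBB_subst {B : Set BFun} {k : ℕ} {g : (Fin k → Bool) → Bool}
    (hg : Gen B (Fin k) g) : ∃ c : ℕ, ∀ (n : ℕ) (l : List (BF n)), Gates B n l →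
      ∀ a : Fin k → BF n, (∀ j, Avail l (a j)) →
      ∃ l', Gates B n (l' ++ l) ∧ l'.length ≤ c ∧ Avail (l' ++ l) (fun x => g fun j => a j x) := by
  induction hg with
  | var i =>
    refine ⟨0, fun n l hl a ha => ⟨[], by simpa using hl, by simp, ?_⟩⟩
    simpa using ha i
  | app k' f hf h hh ih =>
    choose c hc using ih
    refine ⟨(∑ j, c j) + 1, fun n l hl a ha => ?_⟩
    have key : ∀ s : Finset (Fin k'), ∃ l', Gates B n (l' ++ l) ∧ l'.length ≤ ∑ j ∈ s, c j ∧
        ∀ j ∈ s, Avail (l' ++ l) (fun x => h j fun i => a i x) := by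
      intro s
      induction s using Finset.induction_on with
      | empty => exact ⟨[], by simpa using hl, by simp, by simp⟩
      | insert j s hj ihs =>
        obtain ⟨l1, h1, h2, h3⟩ := ihs
        obtain ⟨l2, h4, h5, h6⟩ := hc j n (l1 ++ l) h1 a
          (fun i => MBB_avail_append _ _ _ (ha i))
        refine ⟨l2 ++ l1, by rw [List.append_assoc]; exact h4, ?_, ?_⟩
        · rw [List.length_append, Finset.sum_insert hj]
          omega
        · intro i hi
          rw [List.append_assoc]
          rcases Finset.mem_insert.1 hi with rfl | hi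
          · exact h6
          · exact MBB_avail_append _ _ _ (h3 i hi)
    obtain ⟨l1, h1, h2, h3⟩ := key Finset.univ
    refine ⟨(fun x => f fun j => h j fun i => a i x) :: l1, ?_, ?_, ?_⟩
    · exact Gates.gate (l1 ++ l) k' f (fun j x => h j fun i => a i x) hf
        (fun j => h3 j (Finset.mem_univ j)) h1
    · rw [List.length_cons]; omega
    · exact Or.inl List.mem_cons_self

/-- MBB: monotone circuits are simulated over every gate set which generates AND and OR -/
theorem t_MBB : S_MBB := by
  intro B hA hO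
  obtain ⟨c1, hc1⟩ := MBB_subst hA
  obtain ⟨c2, hc2⟩ := MBB_subst hO
  refine ⟨c1 + c2, ?_⟩
  have main : ∀ (n : ℕ) (l : List (BF n)), Gates MB n l →
      ∃ L, Gates B n L ∧ L.length ≤ (c1 + c2) * l.length ∧ ∀ f, Avail l f → Avail L f := by
    intro n l hl
    induction hl with
    | nil =>
      exact ⟨[], Gates.nil, by simp, fun f hf => hf⟩
    | gate l k f g hf hg hl ih =>
      obtain ⟨L, hL1, hL2, hL3⟩ := ih
      have fin : ∀ (L' : List (BF n)), Gates B n (L' ++ L) →
          L'.length ≤ c1 + c2 → Avail (L' ++ L) (fun x => f fun j => g j x) →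
          ∃ L, Gates B n L ∧ L.length ≤ (c1 + c2) * (((fun x => f fun j => g j x) :: l).length) ∧
            ∀ f', Avail ((fun x => f fun j => g j x) :: l) f' → Avail L f' := by
        intro L' h1 h2 h3
        refine ⟨L' ++ L, h1, ?_, ?_⟩
        · rw [List.length_append, List.length_cons]
          nlinarith
        · rintro f' (hf' | hf')
          · rcases List.mem_cons.1 hf' with rfl | hf'
            · exact h3
            · exact MBB_avail_append _ _ _ (hL3 f' (Or.inl hf'))
          · exact MBB_avail_append _ _ _ (hL3 f' (Or.inr hf'))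
      rcases hf with hf | hf
      · obtain ⟨rfl, hf⟩ := Sigma.mk.inj hf
        obtain rfl := eq_of_heq hf
        obtain ⟨L', h1, h2, h3⟩ := hc1 n L hL1 g fun j => hL3 _ (hg j)
        exact fin L' h1 (by omega) h3
      · obtain ⟨rfl, hf⟩ := Sigma.mk.inj hf
        obtain rfl := eq_of_heq hf
        obtain ⟨L', h1, h2, h3⟩ := hc2 n L hL1 g fun j => hL3 _ (hg j)
        exact fin L' h1 (by omega) h3
  intro n s f hf
  obtain ⟨l, h1, h2, h3⟩ := hf
  obtain ⟨L, h4, h5, h6⟩ := main n l h1
  exact ⟨L, h4, h5.trans (Nat.mul_le_mul_left _ h2), h6 f h3⟩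

end Pool.Agent.H547R8
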