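import Pool.Agent.H547R8.Stm

/-!
# Circuits for `MJ` over gate sets with majority
-/

set_option autoImplicit false

namespace Pool.Agent.H547R8

open Pool.Agent.H547R6 Pool.Agent.H547R7 Pool.Agent.NPC

private theorem MJC_app {n : ℕ} (l' l : List (BF n)) (f : BF n) (h : Avail l f) :
    Avail (l' ++ l) f := by
  rcases h with h | h
  · exact Or.inl (List.mem_append_right _ h)
  · exact Or.inr h

private theorem MJC_subst {B : Set BFun} {k : ℕ} {g : (Fin k → Bool) → Bool}
    (hg : Gen B (Fin k) g) : ∃ c : ℕ, ∀ (n : ℕ) (l : List (BF n)), Gates B n l →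
      ∀ a : Fin k → BF n, (∀ j, Avail l (a j)) →
      ∃ l', Gates B n (l' ++ l) ∧ l'.length ≤ c ∧ Avail (l' ++ l) (fun x => g fun j => a j x) := by
  induction hg with
  | var i =>
    refine ⟨0, fun n l hl a ha => ⟨[], by simpa using hl, by simp, ?_⟩⟩
    simpa using ha i
  | app k' f hf h hh ih =>
    choose c hc using ih
    refine ⟨(∑ j, c j) + 1, fun n l hl a ha => ?_⟩
    have key : ∀ s : Finset (Fin k'), ∃ l', Gates B n (l' ++ l) ∧ l'.length ≤ ∑ j ∈ s, c j ∧
        ∀ j ∈ s, Avail (l' ++ l) (fun x => h j fun i => a i x) := by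
      intro s
      induction s using Finset.induction_on with
      | empty => exact ⟨[], by simpa using hl, by simp, by simp⟩
      | insert j s hj ihs =>
        obtain ⟨l1, h1, h2, h3⟩ := ihs
        obtain ⟨l2, h4, h5, h6⟩ := hc j n (l1 ++ l) h1 a
          (fun i => MJC_app _ _ _ (ha i))
        refine ⟨l2 ++ l1, by rw [List.append_assoc]; exact h4, ?_, ?_⟩
        · rw [List.length_append, Finset.sum_insert hj]
          omega
        · intro i hi
          rw [List.append_assoc]
          rcases Finset.mem_insert.1 hi with rfl | hi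
          · exact h6
          · exact MJC_app _ _ _ (h3 i hi)
    obtain ⟨l1, h1, h2, h3⟩ := key Finset.univ
    refine ⟨(fun x => f fun j => h j fun i => a i x) :: l1, ?_, ?_, ?_⟩
    · exact Gates.gate (l1 ++ l) k' f (fun j x => h j fun i => a i x) hf
        (fun j => h3 j (Finset.mem_univ j)) h1
    · rw [List.length_cons]; omega
    · exact Or.inl List.mem_cons_self

/-- the function is available in both frames -/
private def MJC_Rep {n : ℕ} (L : List (BF (n + 2))) (f : BF n) : Prop :=
  ∃ F : BF (n + 2), Avail L F ∧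
    (∀ y : Fin (n + 2) → Bool, y 0 = false → y 1 = true → F y = f (fun i => y i.succ.succ)) ∧
    (∀ y : Fin (n + 2) → Bool, y 0 = true → y 1 = false → F y = !f (fun i => !y i.succ.succ))

private theorem MJC_rep_app {n : ℕ} (L' L : List (BF (n + 2))) (f : BF n) (h : MJC_Rep L f) :
    MJC_Rep (L' ++ L) f := by
  obtain ⟨F, h1, h2⟩ := h
  exact ⟨F, MJC_app _ _ _ h1, h2⟩

theorem t_MJC : S_MJC := by
  intro B hB
  obtain ⟨c0, hc0⟩ := MJC_subst hB
  have hstep : ∀ (n : ℕ) (l : List (BF n)), Gates B n l → ∀ a b d : BF n, Avail l a → Avail l b →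
      Avail l d → ∃ l', Gates B n (l' ++ l) ∧ l'.length ≤ c0 ∧
        Avail (l' ++ l) (fun x => bmaj (a x) (b x) (d x)) := by
    intro n l hl a b d ha hb hd
    obtain ⟨l', h1, h2, h3⟩ := hc0 n l hl ![a, b, d] (by
      intro j
      fin_cases j
      · exact ha
      · exact hb
      · exact hd)
    exact ⟨l', h1, h2, h3⟩
  have main : ∀ (n : ℕ) (l : List (BF n)), Gates MB n l → ∃ L : List (BF (n + 2)),
      Gates B (n + 2) L ∧ L.length ≤ c0 * l.length ∧ ∀ f, Avail l f → MJC_Rep L f := by
    intro n l hl
    induction hl with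
    | nil =>
      refine ⟨[], Gates.nil, by simp, ?_⟩
      rintro f (hf | ⟨i, rfl⟩)
      · simp at hf
      · exact ⟨fun y => y i.succ.succ, Or.inr ⟨_, rfl⟩, fun y _ _ => rfl,
          fun y _ _ => by simp⟩
    | gate l k f g hf hg hl ih =>
      obtain ⟨L, hL1, hL2, hL3⟩ := ih
      have fin : ∀ (F : BF (n + 2)) (L' : List (BF (n + 2))), Gates B (n + 2) (L' ++ L) →
          L'.length ≤ c0 → Avail (L' ++ L) F →
          (∀ y : Fin (n + 2) → Bool, y 0 = false → y 1 = true →
            F y = f fun j => g j (fun i => y i.succ.succ)) →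
          (∀ y : Fin (n + 2) → Bool, y 0 = true → y 1 = false →
            F y = !f fun j => g j (fun i => !y i.succ.succ)) →
          ∃ L, Gates B (n + 2) L ∧ L.length ≤ c0 * (((fun x => f fun j => g j x) :: l).length) ∧
            ∀ f', Avail ((fun x => f fun j => g j x) :: l) f' → MJC_Rep L f' := by
        intro F L' h1 h2 h3 h4 h5
        refine ⟨L' ++ L, h1, ?_, ?_⟩
        · rw [List.length_append, List.length_cons, Nat.mul_succ]
          omega
        · rintro f' (hf' | hf')
          · rcases List.mem_cons.1 hf' with rfl | hf'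
            · exact ⟨F, h3, h4, h5⟩
            · exact MJC_rep_app _ _ _ (hL3 f' (Or.inl hf'))
          · exact MJC_rep_app _ _ _ (hL3 f' (Or.inr hf'))
      rcases hf with hf | hf
      · obtain ⟨rfl, hf⟩ := Sigma.mk.inj hf
        have hf := eq_of_heq hf
        subst hf
        obtain ⟨F0, h01, h02, h03⟩ := hL3 _ (hg 0)
        obtain ⟨F1, h11, h12, h13⟩ := hL3 _ (hg 1)
        obtain ⟨L', h1, h2, h3⟩ := hstep (n + 2) L hL1 (fun y => y 0) F0 F1 (Or.inr ⟨0, rfl⟩)
          h01 h11
        refine fin _ L' h1 h2 h3 ?_ ?_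
        · intro y h0 h1
          simp only [h0, h02 y h0 h1, h12 y h0 h1]
          generalize g 0 (fun i => y i.succ.succ) = u
          generalize g 1 (fun i => y i.succ.succ) = v
          cases u <;> cases v <;> rfl
        · intro y h0 h1
          simp only [h0, h03 y h0 h1, h13 y h0 h1]
          generalize g 0 (fun i => !y i.succ.succ) = u
          generalize g 1 (fun i => !y i.succ.succ) = v
          cases u <;> cases v <;> rfl
      · have hf := Set.mem_singleton_iff.1 hf
        obtain ⟨rfl, hf⟩ := Sigma.mk.inj hf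
        have hf := eq_of_heq hf
        subst hf
        obtain ⟨F0, h01, h02, h03⟩ := hL3 _ (hg 0)
        obtain ⟨F1, h11, h12, h13⟩ := hL3 _ (hg 1)
        obtain ⟨L', h1, h2, h3⟩ := hstep (n + 2) L hL1 (fun y => y 1) F0 F1 (Or.inr ⟨1, rfl⟩)
          h01 h11
        refine fin _ L' h1 h2 h3 ?_ ?_
        · intro y h0 h1
          simp only [h1, h02 y h0 h1, h12 y h0 h1]
          generalize g 0 (fun i => y i.succ.succ) = u
          generalize g 1 (fun i => y i.succ.succ) = v
          cases u <;> cases v <;> rfl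
        · intro y h0 h1
          simp only [h1, h03 y h0 h1, h13 y h0 h1]
          generalize g 0 (fun i => !y i.succ.succ) = u
          generalize g 1 (fun i => !y i.succ.succ) = v
          cases u <;> cases v <;> rfl
  refine ⟨c0, fun n s M hM => ?_⟩
  obtain ⟨l, hl, hls, hMl⟩ := hM
  obtain ⟨L, h1, h2, h3⟩ := main n l hl
  obtain ⟨F, g1, g2, g3⟩ := h3 M hMl
  obtain ⟨L1, k1, k2, k3⟩ := hstep (n + 2) L h1 (fun y => y 0) (fun y => y 1) F
    (Or.inr ⟨0, rfl⟩) (Or.inr ⟨1, rfl⟩) g1
  refine ⟨L1 ++ L, k1, ?_, ?_⟩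
  · rw [List.length_append]
    have e1 : c0 * (s + 1) = c0 * s + c0 := by ring
    have e2 : c0 * l.length ≤ c0 * s := Nat.mul_le_mul_left _ hls
    omega
  · have e : MJ n M = fun y : Fin (n + 2) → Bool => bmaj (y 0) (y 1) (F y) := by
      funext y
      unfold MJ
      cases h0 : y 0
      · cases h1 : y 1
        · simp only [if_true]
          cases F y <;> rfl
        · rw [g2 y h0 h1, if_neg (by simp), if_pos rfl]
          generalize M (fun i => y i.succ.succ) = u
          cases u <;> rfl
      · cases h1 : y 1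
        · rw [g3 y h0 h1, if_neg (by simp), if_neg (by simp)]
          generalize M (fun i => !y i.succ.succ) = u
          cases u <;> rfl
        · simp only [if_true]
          cases F y <;> rfl
    rw [e]
    exact k3

end Pool.Agent.H547R8
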