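import Pool.Agent.H547R8.T_TFR

/-!
# Normal form for `NP`
-/

set_option autoImplicit false

namespace Pool.Agent.H547R8

open Pool.Agent.H547R6 Pool.Agent.H547R7 Pool.Agent.NPC
open Pool.Agent.H583R2 Pool.Agent.H545R2.KS

/-- the positions before the last one -/
def NFN_l (r : List Bool) : List ℕ :=
  (List.range r.length).filter fun i => (r.drop (i + 1)).any fun b => b

/-- decoding: the part before the last one -/
def NFN_dec (r : List Bool) : List Bool := r.take (NFN_l r).length

theorem NFN_pf_dec {α : Type} [H583R2.TEnc α] {r : α → List Bool} (hr : PF r) :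
    PF (fun a => NFN_dec (r a)) := by
  unfold NFN_dec NFN_l
  refine PF.take (PF.length (PF.filter (f := fun a i => ((r a).drop (i + 1)).any fun b => b)
    (PF.range (PF.length hr)) ?_)) hr
  exact PF.any (f := fun (_ : α × ℕ) b => b) (PF.drop (PF.succ PF.snd) (hr.comp PF.fst)) PF.snd

theorem NFN_dec_eq (w : List Bool) (m : ℕ) :
    NFN_dec (w ++ true :: List.replicate m false) = w := by
  have h1 : NFN_l (w ++ true :: List.replicate m false) = List.range w.length := by
    unfold NFN_l
    have hlen : (w ++ true :: List.replicate m false).length = w.length + (m + 1) := by simp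
    rw [hlen]
    apply TFR_filter_lt
    · intro i hi
      rw [List.drop_append_of_le_length (by omega), List.any_append]
      simp
    · intro i _
      have e : (w ++ true :: List.replicate m false).drop (w.length + i + 1) =
          List.replicate (m - i) false := by
        rw [show w.length + i + 1 = w.length + (i + 1) by ring, List.drop_append,
          Nat.add_sub_cancel_left, List.drop_succ_cons, List.drop_replicate,
          List.drop_of_length_le (by omega), List.nil_append]
      rw [e]
      simp
  unfold NFN_dec
  rw [h1, List.length_range, List.take_left]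

theorem NFN_dec_len (r : List Bool) (n : ℕ) (h : r.length = n + 1) : (NFN_dec r).length ≤ n := by
  unfold NFN_dec
  rw [List.length_take]
  have h1 : (NFN_l r).length ≤ n := by
    unfold NFN_l
    rw [h, List.range_succ, List.filter_append]
    have e : List.filter (fun i => (r.drop (i + 1)).any fun b => b) [n] = [] := by
      rw [List.filter_eq_nil_iff]
      intro i hi
      rw [List.mem_singleton] at hi
      subst hi
      rw [List.drop_of_length_le (by omega)]
      simp
    rw [e, List.append_nil]
    refine (List.length_filter_le _ _).trans ?_
    simp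
  omega

theorem t_NFN : S_NFN := by
  intro L hL
  obtain ⟨V, p, hV, hL⟩ := hL
  obtain ⟨V', hV', h⟩ := TS2_mk (fun x w => UP1_A V x (NFN_dec w))
    (UP1_pf_A hV TS2_pfx (NFN_pf_dec TS2_pfw))
  have hev : ∀ m, (p + 1).eval m = p.eval m + 1 := by intro m; simp
  refine ⟨V', p + 1, hV', fun m => by rw [hev]; omega, fun x => ?_⟩
  have hA : ∀ w, UP1_A V x w = true ↔ V (pairBits x w) = [true] := by
    intro w
    unfold UP1_A
    rw [beq_iff_eq]
  constructor
  · intro hx
    obtain ⟨w, hw, hVw⟩ := (hL x).1 hx
    have hlen : (w ++ true :: List.replicate (p.eval x.length - w.length) false).length =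
        (p + 1).eval x.length := by
      rw [hev]
      simp
      omega
    refine ⟨fun i => (w ++ true :: List.replicate (p.eval x.length - w.length) false)[i.val]'(by
      rw [hlen]; exact i.2), ?_⟩
    rw [h]
    have e : (List.ofFn fun i : Fin ((p + 1).eval x.length) =>
        (w ++ true :: List.replicate (p.eval x.length - w.length) false)[i.val]'(by
          rw [hlen]; exact i.2)) = w ++ true :: List.replicate (p.eval x.length - w.length) false := by
      apply List.ext_getElem
      · rw [List.length_ofFn, hlen]
      · intro k h1 h2
        rw [List.getElem_ofFn]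
    rw [e, NFN_dec_eq]
    exact (hA w).2 hVw
  · rintro ⟨r, hr⟩
    rw [h] at hr
    refine (hL x).2 ⟨NFN_dec (List.ofFn r), ?_, (hA _).1 hr⟩
    exact NFN_dec_len _ _ (by rw [List.length_ofFn, hev])

end Pool.Agent.H547R8
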