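import Pool.Agent.H547R8.Stm
import Pool.Agent.H547R7.T_PRJ
import Pool.Agent.H545R2.KS.Base

set_option autoImplicit false

namespace Pool.Agent.H547R8

open Pool.Agent.H547R6 Pool.Agent.H547R7 Pool.Agent.NPC
open Pool.Agent.H583R2 (PF.fst' PF.snd' PF.spl PF.id PF.tail)
open Pool.Agent.H545R2.KS (polyTime_of_pf pf_of_polyTime pf_pairBits spl_pairBits)

theorem NFP_pr (n : ℕ) (f : BF n) :
    pr (fun r : Fin (n + 1) → Bool => f (fun i => r i.succ)) = pr f := by
  have e := PRJ_equiv
    ((Fin.consEquiv (fun _ : Fin (n + 1) => Bool)).symm.trans (Equiv.prodComm _ _))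
    (fun w : (Fin n → Bool) × Bool => f w.1)
  rw [PRJ_fst] at e
  rw [← e]
  rfl

/-- the algorithm that ignores the first random bit -/
def NFP_V (V : List Bool → List Bool) (z : List Bool) : List Bool :=
  V (pairBits (Pool.Agent.H583R2.spl z).1 (Pool.Agent.H583R2.spl z).2.tail)

theorem NFP_acc (V : List Bool → List Bool) (x : List Bool) (n : ℕ) :
    acc (NFP_V V) x (n + 1) = fun r => acc V x n (fun i => r i.succ) := by
  funext r
  unfold acc NFP_V
  rw [spl_pairBits, List.ofFn_succ]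
  rfl

theorem t_NFP : S_NFP := by
  rintro L ⟨V, p, hV, hL⟩
  refine ⟨NFP_V V, p + 1, ?_, fun m => ?_, fun x => ?_⟩
  · apply polyTime_of_pf
    exact (pf_of_polyTime hV).comp
      (pf_pairBits (PF.fst' (PF.spl PF.id)) (PF.tail (PF.snd' (PF.spl PF.id))))
  · simp
  · have h : (p + 1).eval x.length = p.eval x.length + 1 := by simp
    rw [hL x, h, NFP_acc, NFP_pr]

end Pool.Agent.H547R8
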