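import Pool.Agent.H547R8.Stm

/-!
# The probability of `FR`
-/

set_option autoImplicit false

namespace Pool.Agent.H547R8

open Pool.Agent.H547R6 Pool.Agent.H547R7 Pool.Agent.NPC

/-- sign of a Boolean value -/
noncomputable def PFR_s (b : Bool) : ℝ := if b = true then 1 else -1

theorem PFR_fnd_zero (u v : Fin 0 → Bool) (c : Bool) : fnd u v c = c := by
  simp [fnd]

theorem PFR_fnd_succ {n : ℕ} (a b : Bool) (u v : Fin n → Bool) (c : Bool) :
    fnd (Fin.cons a u : Fin (n + 1) → Bool) (Fin.cons b v : Fin (n + 1) → Bool) c =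
      if a = b then a else fnd u v c := by
  unfold fnd
  rw [List.ofFn_succ]
  simp only [Fin.cons_zero, Fin.cons_succ, List.filter_cons]
  by_cases h : a = b
  · simp [h]
  · simp [h]

theorem PFR_sum_cons {n : ℕ} (f : (Fin (n + 1) → Bool) → ℝ) :
    ∑ x, f x = ∑ a : Bool, ∑ u : Fin n → Bool, f (Fin.cons a u) := by
  rw [← Fintype.sum_prod_type' (f := fun a (u : Fin n → Bool) => f (Fin.cons a u))]
  exact (Fintype.sum_equiv (Fin.consEquiv fun _ => Bool) _ _ fun x => rfl).symm

theorem PFR_sum : ∀ (n : ℕ) (D : BF n),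
    ∑ u : Fin n → Bool, ∑ v : Fin n → Bool, PFR_s (fnd u v (D u)) = ∑ u, PFR_s (D u)
  | 0, D => by
    simp [PFR_fnd_zero]
  | n + 1, D => by
    have ih := PFR_sum n
    have h1 : ∀ a : Bool, ∑ u : Fin n → Bool, ∑ v : Fin n → Bool,
        PFR_s (fnd u v (D (Fin.cons a u))) = ∑ u : Fin n → Bool, PFR_s (D (Fin.cons a u)) :=
      fun a => ih fun u => D (Fin.cons a u)
    rw [PFR_sum_cons, PFR_sum_cons]
    have h2 : ∀ a : Bool, ∑ u : Fin n → Bool, ∑ v : Fin (n + 1) → Bool,
        PFR_s (fnd (Fin.cons a u : Fin (n + 1) → Bool) v (D (Fin.cons a u))) =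
        ∑ u : Fin n → Bool, ∑ v : Fin n → Bool,
          (PFR_s a + PFR_s (fnd u v (D (Fin.cons a u)))) := by
      intro a
      refine Finset.sum_congr rfl fun u _ => ?_
      rw [PFR_sum_cons]
      simp only [PFR_fnd_succ, Fintype.sum_bool]
      rw [← Finset.sum_add_distrib]
      refine Finset.sum_congr rfl fun v _ => ?_
      cases a <;> simp [add_comm]
    simp only [h2, Finset.sum_add_distrib, h1]
    simp [PFR_s]

theorem PFR_pr {X : Type} [Fintype X] [Nonempty X] (f : X → Bool) :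
    pr f - 1 / 2 = (∑ x, PFR_s (f x)) / (2 * Fintype.card X) := by
  have hc : (Fintype.card X : ℝ) ≠ 0 := by
    exact_mod_cast Fintype.card_ne_zero
  have h : ∑ x, PFR_s (f x) = 2 * ((Finset.univ.filter fun x => f x = true).card : ℝ) -
      Fintype.card X := by
    have h1 : ∀ x, PFR_s (f x) = 2 * (if f x = true then (1 : ℝ) else 0) - 1 := by
      intro x
      unfold PFR_s
      split_ifs <;> norm_num
    simp only [h1, Finset.sum_sub_distrib, ← Finset.mul_sum, Finset.sum_boole]
    simp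
  rw [h]
  unfold pr
  field_simp

theorem t_PFR : S_PFR := by
  intro n C
  rw [PFR_pr, PFR_pr]
  have h : ∑ z, PFR_s (FR n C z) = ∑ u, PFR_s (C u) := by
    rw [← PFR_sum n C, ← Fintype.sum_prod_type'
      (f := fun u v : Fin n → Bool => PFR_s (fnd u v (C u)))]
    refine (Fintype.sum_equiv (Fin.appendEquiv n n) _ _ fun x => ?_).symm
    have e : Fin.appendEquiv n n x = Fin.append x.1 x.2 := rfl
    rw [e]
    unfold FR
    simp only [Fin.append_left, Fin.append_right]
  rw [h]
  simp only [Fintype.card_fun, Fintype.card_bool, Fintype.card_fin, Nat.cast_pow, Nat.cast_ofNat]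
  rw [pow_add]
  field_simp

end Pool.Agent.H547R8
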