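import Pool.Agent.H547R8.Stm

/-!
# Probabilities for the classes, first part
-/

set_option autoImplicit false

namespace Pool.Agent.H547R8

open Pool.Agent.H547R6 Pool.Agent.H547R7 Pool.Agent.NPC

private def PR1_neg {n : ℕ} (x : Fin n → Bool) : Fin n → Bool := fun i => !x i

private lemma PR1_neg_neg {n : ℕ} (x : Fin n → Bool) : PR1_neg (PR1_neg x) = x := by
  funext i; simp [PR1_neg]

private lemma PR1_count {n : ℕ} (C : BF n) :
    2 * (Finset.univ.filter fun x => C x = true).card +
      (Finset.univ.filter fun x => C x = false ∧ C (PR1_neg x) = false).card =
      Fintype.card (Fin n → Bool) +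
      (Finset.univ.filter fun x => C x = true ∧ C (PR1_neg x) = true).card := by
  have h1 : (Finset.univ.filter fun x => C x = true).card =
      (Finset.univ.filter fun x => C (PR1_neg x) = true).card := by
    apply Finset.card_bij (fun x _ => PR1_neg x)
    · intro x hx
      simp only [Finset.mem_filter, Finset.mem_univ, true_and] at hx ⊢
      rw [PR1_neg_neg]; exact hx
    · intro x _ y _ h
      have := congrArg PR1_neg h
      rwa [PR1_neg_neg, PR1_neg_neg] at this
    · intro y hy
      simp only [Finset.mem_filter, Finset.mem_univ, true_and] at hy
      exact ⟨PR1_neg y, by simpa using hy, PR1_neg_neg y⟩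
  have h2 : 2 * (Finset.univ.filter fun x => C x = true).card =
      (Finset.univ.filter fun x => C x = true).card +
      (Finset.univ.filter fun x => C (PR1_neg x) = true).card := by
    rw [← h1]; ring
  rw [h2, Finset.card_filter, Finset.card_filter, Finset.card_filter, Finset.card_filter,
    ← Finset.card_univ, Finset.card_eq_sum_ones, ← Finset.sum_add_distrib,
    ← Finset.sum_add_distrib, ← Finset.sum_add_distrib]
  refine Finset.sum_congr rfl fun x _ => ?_
  cases C x <;> cases C (PR1_neg x) <;> simp

private lemma PR1_pos {n : ℕ} : (0 : ℝ) < Fintype.card (Fin n → Bool) := by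
  exact_mod_cast Fintype.card_pos

private lemma PR1_lt {n : ℕ} (C : BF n)
    (h : (Finset.univ.filter fun x => C x = false ∧ C (PR1_neg x) = false).card = 0) :
    1 / 2 < pr C ↔ ∃ x, C x = true ∧ C (fun i => !x i) = true := by
  have h1 := PR1_count C
  rw [h, add_zero] at h1
  have h2 : (2 : ℝ) * ((Finset.univ.filter fun x => C x = true).card : ℝ) =
      (Fintype.card (Fin n → Bool) : ℝ) +
      ((Finset.univ.filter fun x => C x = true ∧ C (PR1_neg x) = true).card : ℝ) := by
    exact_mod_cast h1
  have hp := PR1_pos (n := n)
  have h3 : 1 / 2 < pr C ↔
      0 < ((Finset.univ.filter fun x => C x = true ∧ C (PR1_neg x) = true).card : ℝ) := by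
    unfold pr
    rw [lt_div_iff₀ hp]
    constructor
    · intro h; linarith
    · intro h; linarith
  rw [h3, Nat.cast_pos, Finset.card_pos]
  constructor
  · rintro ⟨x, hx⟩
    simp only [Finset.mem_filter, Finset.mem_univ, true_and] at hx
    exact ⟨x, hx⟩
  · rintro ⟨x, hx⟩
    exact ⟨x, by simp only [Finset.mem_filter, Finset.mem_univ, true_and]; exact hx⟩

private lemma PR1_or2 {n : ℕ} (C : BF n) (h : (⟨n, C⟩ : BFun) ∈ Or2) :
    (Finset.univ.filter fun x => C x = false ∧ C (PR1_neg x) = false).card = 0 := by
  rw [Finset.card_eq_zero, Finset.filter_eq_empty_iff]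
  rintro x _ ⟨h1, h2⟩
  rcases h x (PR1_neg x) (fun i => by cases hx : x i <;> simp [PR1_neg, hx]) with h3 | h3
  · simp only at h3; rw [h1] at h3; exact absurd h3 (by simp)
  · simp only at h3; rw [h2] at h3; exact absurd h3 (by simp)

theorem t_PR1 : S_PR1 := by
  intro n C
  have hp := PR1_pos (n := n)
  have hc := PR1_count C
  refine ⟨fun h => ?_, fun h => ?_, fun h => PR1_lt C (PR1_or2 C h), fun hm h3 => ?_⟩
  · have e1 : (Finset.univ.filter fun x => C x = false ∧ C (PR1_neg x) = false).card = 0 := by
      rw [Finset.card_eq_zero, Finset.filter_eq_empty_iff]
      rintro x _ ⟨h1, h2⟩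
      have h4 : C (PR1_neg x) = !C x := h x
      rw [h1, h2] at h4; simp at h4
    have e2 : (Finset.univ.filter fun x => C x = true ∧ C (PR1_neg x) = true).card = 0 := by
      rw [Finset.card_eq_zero, Finset.filter_eq_empty_iff]
      rintro x _ ⟨h1, h2⟩
      have h4 : C (PR1_neg x) = !C x := h x
      rw [h1, h2] at h4; simp at h4
    rw [e1, e2] at hc
    have h2 : (2 : ℝ) * ((Finset.univ.filter fun x => C x = true).card : ℝ) =
      (Fintype.card (Fin n → Bool) : ℝ) := by exact_mod_cast hc
    unfold pr
    rw [div_eq_iff hp.ne']
    linarith
  · have e2 : (Finset.univ.filter fun x => C x = true ∧ C (PR1_neg x) = true).card = 0 := by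
      rw [Finset.card_eq_zero, Finset.filter_eq_empty_iff]
      rintro x _ ⟨h1, h2⟩
      rcases h x (PR1_neg x) (fun i => by cases hx : x i <;> simp [PR1_neg, hx]) with h3 | h3
      · simp only at h3; rw [h1] at h3; exact absurd h3 (by simp)
      · simp only at h3; rw [h2] at h3; exact absurd h3 (by simp)
    rw [e2] at hc
    have h2 : 2 * (Finset.univ.filter fun x => C x = true).card ≤
      Fintype.card (Fin n → Bool) := by omega
    have h2' : (2 : ℝ) * ((Finset.univ.filter fun x => C x = true).card : ℝ) ≤
      (Fintype.card (Fin n → Bool) : ℝ) := by exact_mod_cast h2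
    unfold pr
    rw [div_le_iff₀ hp]
    linarith
  · have h2 : (⟨n, C⟩ : BFun) ∈ Or2 := by
      intro x y hxy
      rcases h3 x y y (fun i => by rcases hxy i with h | h <;> simp [h]) with h | h | h
      · exact Or.inl h
      · exact Or.inr h
      · exact Or.inr h
    rw [PR1_lt C (PR1_or2 C h2)]
    have hm' : ∀ x y : Fin n → Bool, (∀ i, x i = true → y i = true) → C x = true →
        C y = true := hm
    have h3' : ∀ x y z : Fin n → Bool, (∀ i, x i = true ∨ y i = true ∨ z i = true) →
        C x = true ∨ C y = true ∨ C z = true := h3
    constructor
    · rintro ⟨x, hx1, hx2⟩ ⟨i, hi1, hi2⟩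
      have key : ∀ y : Fin n → Bool, C y = true → y i = true := by
        intro y hy
        by_contra hyi
        have : C (fun j => !ev i j) = true := by
          refine hm' y _ (fun j hj => ?_) hy
          have hji : j ≠ i := by
            rintro rfl; exact hyi hj
          simp [ev, hji]
        rw [this] at hi2
        exact absurd hi2 (by simp)
      have a1 := key x hx1
      have a2 := key _ hx2
      simp only [a1] at a2
      exact absurd a2 (by simp)
    · intro hno
      by_contra hne
      apply hno
      push Not at hne
      -- not both values are one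
      have hz : ∀ x, C x = true → C (PR1_neg x) = false := by
        intro x hx
        have := hne x hx
        have h9 : C (PR1_neg x) ≠ true := this
        simpa using h9
      have hsd : ∀ x, C x = false → C (PR1_neg x) = true := by
        intro x hx
        rcases h2 x (PR1_neg x) (fun i => by cases hx : x i <;> simp [PR1_neg, hx]) with h | h
        · simp only at h; rw [hx] at h; exact absurd h (by simp)
        · exact h
      have hor : ∀ x y : Fin n → Bool, C x = false → C y = false →
          C (fun i => x i || y i) = false := by
        intro x y hx hy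
        have hzz : C (PR1_neg fun i => x i || y i) = true := by
          rcases h3' x y (PR1_neg fun i => x i || y i) (fun i => by
            cases hx : x i <;> cases hy : y i <;> simp [PR1_neg, hx, hy]) with h | h | h
          · rw [hx] at h; exact absurd h (by simp)
          · rw [hy] at h; exact absurd h (by simp)
          · exact h
        have := hz _ hzz
        rwa [PR1_neg_neg] at this
      have h1 : C (fun _ => true) = true := by
        rcases h3' (fun _ => true) (fun _ => true) (fun _ => true) (fun i => by simp) with h | h | h
        <;> exact h
      have h0 : C (PR1_neg fun _ => true) = false := hz _ h1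
      obtain ⟨w, hw, hmax⟩ := Finset.exists_max_image
        (Finset.univ.filter fun x : Fin n → Bool => C x = false)
        (fun x => (Finset.univ.filter fun i => x i = true).card)
        ⟨PR1_neg fun _ => true, by simp only [Finset.mem_filter, Finset.mem_univ, true_and]; exact h0⟩
      simp only [Finset.mem_filter, Finset.mem_univ, true_and] at hw hmax
      have hle : ∀ x : Fin n → Bool, C x = false → ∀ i, x i = true → w i = true := by
        intro x hx i hi
        have h5 := hmax _ (hor w x hw hx)
        have h6 : (Finset.univ.filter fun i => w i = true) ⊆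
            (Finset.univ.filter fun i => (w i || x i) = true) := by
          intro j hj
          simp only [Finset.mem_filter, Finset.mem_univ, true_and] at hj ⊢
          simp [hj]
        have h7 := Finset.eq_of_subset_of_card_le h6 h5
        have h8 : i ∈ (Finset.univ.filter fun i => (w i || x i) = true) := by
          simp [hi]
        rw [← h7] at h8
        simpa using h8
      have hex : ∃ i, w i = false := by
        by_contra hcon
        push Not at hcon
        have : w = fun _ => true := by
          funext i
          have := hcon i
          simpa using this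
        rw [this, h1] at hw
        exact absurd hw (by simp)
      obtain ⟨i, hi⟩ := hex
      have e1 : C (ev i) = true := by
        by_contra hcon
        have hcon' : C (ev i) = false := by simpa using hcon
        have := hle _ hcon' i (by simp [ev])
        rw [hi] at this
        exact absurd this (by simp)
      exact ⟨i, e1, hz _ e1⟩

end Pool.Agent.H547R8
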