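import Pool.Agent.H547R8.Stm

set_option autoImplicit false

namespace Pool.Agent.H547R8

open Pool.Agent.H547R6 Pool.Agent.H547R7 Pool.Agent.NPC

theorem PR2_two {n : ℕ} (C : BF n) (φ : (Fin n → Bool) → (Fin n → Bool))
    (hφ : ∀ x, φ (φ x) = x) :
    2 * (Finset.univ.filter fun x => C x = true).card =
      ∑ x : Fin n → Bool, ((if C x = true then 1 else 0) + (if C (φ x) = true then 1 else 0)) := by
  rw [Finset.sum_add_distrib, Finset.card_filter]
  have h : ∑ x : Fin n → Bool, (if C (φ x) = true then 1 else 0) =
      ∑ x : Fin n → Bool, (if C x = true then 1 else 0) :=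
    Equiv.sum_comp (⟨φ, φ, hφ, hφ⟩ : (Fin n → Bool) ≃ (Fin n → Bool))
      (fun x => if C x = true then 1 else 0)
  rw [h, two_mul]

theorem PR2_card {n : ℕ} : 0 < Fintype.card (Fin n → Bool) := Fintype.card_pos

theorem PR2_le {n : ℕ} (C : BF n) (φ : (Fin n → Bool) → (Fin n → Bool))
    (hφ : ∀ x, φ (φ x) = x) (h : ∀ x, ¬ (C x = true ∧ C (φ x) = true)) : pr C ≤ 1 / 2 := by
  have h1 := PR2_two C φ hφ
  have h2 : ∑ x : Fin n → Bool, ((if C x = true then 1 else 0) +
      (if C (φ x) = true then 1 else 0)) ≤ Fintype.card (Fin n → Bool) := by
    rw [← Finset.card_univ, Finset.card_eq_sum_ones]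
    apply Finset.sum_le_sum
    intro x _
    have := h x
    by_cases a : C x = true <;> by_cases b : C (φ x) = true <;> simp_all
  rw [← h1] at h2
  unfold pr
  rw [div_le_iff₀ (by exact_mod_cast PR2_card)]
  have h3 : (2 : ℝ) * ((Finset.univ.filter fun x => C x = true).card : ℝ) ≤
      (Fintype.card (Fin n → Bool) : ℝ) := by exact_mod_cast h2
  linarith

theorem PR2_gt {n : ℕ} (C : BF n) (φ : (Fin n → Bool) → (Fin n → Bool))
    (hφ : ∀ x, φ (φ x) = x) (h : ∀ x, C x = true ∨ C (φ x) = true)
    (h' : ∃ x, C x = true ∧ C (φ x) = true) : 1 / 2 < pr C := by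
  have h1 := PR2_two C φ hφ
  have h2 : Fintype.card (Fin n → Bool) < ∑ x : Fin n → Bool, ((if C x = true then 1 else 0) +
      (if C (φ x) = true then 1 else 0)) := by
    rw [← Finset.card_univ, Finset.card_eq_sum_ones]
    obtain ⟨y, hy1, hy2⟩ := h'
    apply Finset.sum_lt_sum
    · intro x _
      have := h x
      by_cases a : C x = true <;> by_cases b : C (φ x) = true <;> simp_all
    · exact ⟨y, Finset.mem_univ _, by rw [if_pos hy1, if_pos hy2]; norm_num⟩
  rw [← h1] at h2
  unfold pr
  rw [lt_div_iff₀ (by exact_mod_cast PR2_card)]
  have h3 : (Fintype.card (Fin n → Bool) : ℝ) <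
      (2 : ℝ) * ((Finset.univ.filter fun x => C x = true).card : ℝ) := by exact_mod_cast h2
  linarith

theorem PR2_one {n : ℕ} (C : BF n) (h : ∀ x, C x = true) : 1 / 2 < pr C :=
  PR2_gt C id (fun _ => rfl) (fun x => Or.inl (h x)) ⟨fun _ => false, h _, h _⟩

theorem PR2_zero {n : ℕ} (C : BF n) (h : ∀ x, C x = false) : pr C ≤ 1 / 2 :=
  PR2_le C id (fun _ => rfl) (fun x hx => by rw [h x] at hx; exact absurd hx.1 (by decide))

theorem PR2_ind {n : ℕ} (Q : (Fin n → Bool) → Prop) (h0 : Q (fun _ => false))
    (hs : ∀ (s : Finset (Fin n)) (i : Fin n), i ∉ s → Q (fun j => decide (j ∈ s)) →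
      Q (fun j => decide (j ∈ insert i s))) (x : Fin n → Bool) : Q x := by
  have h : ∀ s : Finset (Fin n), Q (fun j => decide (j ∈ s)) := by
    intro s
    induction s using Finset.induction_on with
    | empty => simpa using h0
    | insert i s hi ih => exact hs s i hi ih
  have := h (Finset.univ.filter fun i => x i = true)
  have e : (fun j => decide (j ∈ Finset.univ.filter fun i => x i = true)) = x := by
    funext j
    cases hj : x j <;> simp [hj]
  rw [e] at this
  exact this

theorem PR2_aff {n : ℕ} {C : BF n} (hC : (⟨n, C⟩ : BFun) ∈ Aff)
    (h : ∀ i, C (ev i) = C (fun _ => false)) (x : Fin n → Bool) : C x = C (fun _ => false) := by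
  apply PR2_ind (fun x => C x = C (fun _ => false)) rfl
  intro s i hi ih
  have h1 : C (fun j => xor (decide (j ∈ s)) (xor (ev i j) false)) =
      xor (C (fun j => decide (j ∈ s))) (xor (C (ev i)) (C (fun _ => false))) :=
    hC (fun j => decide (j ∈ s)) (ev i) (fun _ => false)
  have e : (fun j => xor (decide (j ∈ s)) (xor (ev i j) false)) =
      fun j => decide (j ∈ insert i s) := by
    funext j
    unfold ev
    by_cases hj : j = i
    · subst hj; simp [hi]
    · simp [hj]
  rw [e, ih, h i] at h1
  show C (fun j => decide (j ∈ insert i s)) = _
  rw [h1]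
  cases C (fun _ => false) <;> rfl

theorem PR2_disj {n : ℕ} {C : BF n} (hC : (⟨n, C⟩ : BFun) ∈ Disj)
    (h0 : C (fun _ => false) = false) (x : Fin n → Bool) :
    C x = true → ∃ i, x i = true ∧ C (ev i) = true := by
  apply PR2_ind (fun x => C x = true → ∃ i, x i = true ∧ C (ev i) = true)
  · intro h
    rw [h0] at h
    exact absurd h (by decide)
  · intro s i hi ih h
    have h1 : C (fun j => decide (j ∈ s) || ev i j) =
        (C (fun j => decide (j ∈ s)) || C (ev i)) := hC (fun j => decide (j ∈ s)) (ev i)
    have e : (fun j => decide (j ∈ s) || ev i j) = fun j => decide (j ∈ insert i s) := by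
      funext j
      unfold ev
      by_cases hj : j = i
      · subst hj; simp
      · simp [hj]
    rw [e, h] at h1
    rcases Bool.eq_false_or_eq_true (C (ev i)) with h2 | h2
    · exact ⟨i, by simp, h2⟩
    · rw [h2, Bool.or_false] at h1
      obtain ⟨j, hj1, hj2⟩ := ih h1.symm
      refine ⟨j, ?_, hj2⟩
      simp only [decide_eq_true_eq] at hj1 ⊢
      exact Finset.mem_insert_of_mem hj1

theorem t_PR2 : S_PR2 := by
  intro n C
  refine ⟨?_, ?_, ?_⟩
  · intro hC
    constructor
    · intro hp
      have hall : ∀ i, C (ev i) = C (fun _ => false) := by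
        intro i
        by_contra hne
        apply absurd hp
        rw [not_lt]
        apply PR2_le C (fun x j => xor (x j) (ev i j))
        · intro x
          funext j
          simp
        · rintro x ⟨h1, h2⟩
          have h3 : C (fun j => xor (x j) (xor (ev i j) false)) =
              xor (C x) (xor (C (ev i)) (C (fun _ => false))) := hC x (ev i) (fun _ => false)
          have e : (fun j => xor (x j) (xor (ev i j) false)) = fun j => xor (x j) (ev i j) := by
            funext j; simp
          rw [e, h1, h2] at h3
          revert h3 hne
          generalize C (ev i) = a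
          generalize C (fun _ => false) = b
          cases a <;> cases b <;> decide
      have hconst := PR2_aff hC hall
      have h0 : C (fun _ => false) = true := by
        by_contra hne
        have hf : C (fun _ => false) = false := by simpa using hne
        have := PR2_zero C (fun x => by rw [hconst x, hf])
        linarith
      exact ⟨h0, fun i => by rw [hall i, h0]⟩
    · rintro ⟨h0, h1⟩
      exact PR2_one C (fun x => by rw [PR2_aff hC (fun i => by rw [h1 i, h0]) x, h0])
  · intro hC
    constructor
    · intro hp
      by_contra hne
      have hf : C (fun _ => false) = false := by simpa using hne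
      apply absurd hp
      rw [not_lt]
      apply PR2_le C (fun x j => !x j)
      · intro x; funext j; simp
      · rintro x ⟨h1, h2⟩
        have h3 : C (fun j => x j && !x j) = (C x && C (fun j => !x j)) := hC x (fun j => !x j)
        have e : (fun j => x j && !x j) = fun _ => false := by funext j; simp
        rw [e, hf, h1, h2] at h3
        exact absurd h3 (by decide)
    · intro h0
      apply PR2_one
      intro x
      have h3 : C (fun j => x j && false) = (C x && C (fun _ => false)) :=
        hC x (fun _ => false)
      have e : (fun j => x j && false) = fun _ => false := by funext j; simp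
      rw [e, h0, Bool.and_true] at h3
      exact h3.symm
  · intro hC
    constructor
    · intro hp
      by_contra hne
      push Not at hne
      obtain ⟨hne0, hne1⟩ := hne
      have hf : C (fun _ => false) = false := by simpa using hne0
      apply absurd hp
      rw [not_lt]
      apply PR2_le C (fun x j => !x j)
      · intro x; funext j; simp
      · rintro x ⟨h1, h2⟩
        obtain ⟨i, hi1, hi2⟩ := PR2_disj hC hf x h1
        obtain ⟨j, hj1, hj2⟩ := PR2_disj hC hf _ h2
        have hij : i ≠ j := by
          rintro rfl
          rw [hi1] at hj1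
          exact absurd hj1 (by decide)
        exact hne1 i j hij hi2 hj2
    · rintro (h0 | ⟨i, j, hij, hi, hj⟩)
      · apply PR2_one
        intro x
        have h3 : C (fun j => x j || false) = (C x || C (fun _ => false)) :=
          hC x (fun _ => false)
        have e : (fun j => x j || false) = x := by funext j; simp
        rw [e, h0, Bool.or_true] at h3
        exact h3
      · have hge : ∀ x y : Fin n → Bool, (∀ k, y k = true → x k = true) → C y = true →
            C x = true := by
          intro x y hxy hy
          have h3 : C (fun k => x k || y k) = (C x || C y) := hC x y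
          have e : (fun k => x k || y k) = x := by
            funext k
            cases hk : y k
            · simp
            · rw [hxy k hk]; rfl
          rw [e, hy, Bool.or_true] at h3
          exact h3
        apply PR2_gt C (fun x j => !x j)
        · intro x; funext k; simp
        · intro x
          have h3 : C (fun k => x k || !x k) = (C x || C (fun k => !x k)) := hC x (fun k => !x k)
          have h4 : C (fun k => x k || !x k) = true :=
            hge _ (ev i) (fun k _ => by simp) hi
          rw [h4] at h3
          have := h3.symm
          rw [Bool.or_eq_true] at this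
          exact this
        · refine ⟨ev i, hi, ?_⟩
          apply hge _ (ev j) _ hj
          intro k hk
          unfold ev at hk ⊢
          have hk' : k = j := by simpa using hk
          subst hk'
          simp [Ne.symm hij]

end Pool.Agent.H547R8
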