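import Pool.Agent.H547R8.Stm

set_option autoImplicit false

namespace Pool.Agent.H547R8

open Pool.Agent.H547R6 Pool.Agent.H547R7 Pool.Agent.NPC

theorem PS2_equiv {Ω Ω' : Type} [Fintype Ω] [Fintype Ω'] (e : Ω ≃ Ω') (p : Ω' → Bool) :
    pr (fun w => p (e w)) = pr p := by
  unfold pr
  have h : (Finset.univ.filter fun w : Ω => p (e w) = true).card =
      (Finset.univ.filter fun w : Ω' => p w = true).card := by
    apply Finset.card_bij (fun w _ => e w)
    · intro a ha
      simpa using ha
    · intro a _ b _ hab
      exact e.injective hab
    · intro b hb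
      exact ⟨e.symm b, by simpa using hb, by simp⟩
  rw [h, Fintype.card_congr e]

theorem PS2_bool {Ω : Type} [Fintype Ω] (p : Bool × Ω → Bool) :
    pr p = (pr (fun x => p (true, x)) + pr (fun x => p (false, x))) / 2 := by
  unfold pr
  have h : (Finset.univ.filter fun w : Bool × Ω => p w = true).card =
      (Finset.univ.filter fun x : Ω => p (true, x) = true).card +
      (Finset.univ.filter fun x : Ω => p (false, x) = true).card := by
    rw [Finset.card_filter, Finset.card_filter, Finset.card_filter, Fintype.sum_prod_type,
      Fintype.sum_bool]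
  rw [h, Fintype.card_prod, Fintype.card_bool]
  push_cast
  rw [← add_div, div_div, mul_comm (2 : ℝ)]

theorem PS2_half (n : ℕ) (p : BF (n + 1)) :
    pr p = (pr (fun y : Fin n → Bool => p (Fin.cons true y)) +
      pr (fun y : Fin n → Bool => p (Fin.cons false y))) / 2 := by
  have e := PS2_equiv (Fin.consEquiv (fun _ : Fin (n + 1) => Bool)) p
  rw [← e, PS2_bool]
  rfl

theorem PS2_const (n : ℕ) (b : Bool) :
    pr (fun _ : Fin n → Bool => b) = if b = true then 1 else 0 := by
  unfold pr
  cases b
  · simp
  · have h0 : (Fintype.card (Fin n → Bool) : ℝ) ≠ 0 := by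
      have := Fintype.card_pos (α := Fin n → Bool)
      exact_mod_cast this.ne'
    simp only [Finset.filter_true, Finset.card_univ, if_true]
    exact div_self h0

theorem t_PS2 : S_PS2 := by
  intro n C
  have e1 : pr (fun y : Fin (n + 1) → Bool => S2 n C (Fin.cons true y)) = 1 := by
    have : (fun y : Fin (n + 1) → Bool => S2 n C (Fin.cons true y)) = fun _ => true := by
      funext y
      simp [S2]
    rw [this, PS2_const]; rfl
  have e2 : pr (fun y : Fin (n + 1) → Bool => S2 n C (Fin.cons false y)) = pr C / 2 := by
    rw [PS2_half]
    have h1 : (fun y : Fin n → Bool => S2 n C (Fin.cons false (Fin.cons true y : Fin (n + 1) → Bool)))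
        = C := by
      funext y
      change (false || (true && C fun i => y i)) = C y
      simp
    have h2 : (fun y : Fin n → Bool => S2 n C (Fin.cons false (Fin.cons false y : Fin (n + 1) → Bool)))
        = fun _ => false := by
      funext y
      change (false || (false && C fun i => y i)) = false
      simp
    rw [h1, h2, PS2_const]
    simp
  rw [PS2_half (n + 1) (S2 n C), e1, e2]
  ring

end Pool.Agent.H547R8
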