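import Pool.Agent.H547R8.Stm

/-!
# The probability of `WM`
-/

set_option autoImplicit false

namespace Pool.Agent.H547R8

open Pool.Agent.H547R6 Pool.Agent.H547R7 Pool.Agent.NPC

private lemma PWM_fnd1 {n : ℕ} (u v : Fin n → Bool) (c c' : Bool) (h : ∃ i, u i = v i) :
    fnd u v c = fnd u v c' := by
  obtain ⟨i, hi⟩ := h
  unfold fnd
  have hne : (((List.ofFn fun i => (u i, v i)).filter fun p => p.1 == p.2).map Prod.fst) ≠ [] := by
    intro h0
    have h1 : (u i) ∈ (((List.ofFn fun i => (u i, v i)).filter fun p => p.1 == p.2).map Prod.fst) := by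
      rw [List.mem_map]
      refine ⟨(u i, v i), ?_, rfl⟩
      rw [List.mem_filter]
      refine ⟨?_, by simp [hi]⟩
      rw [List.mem_ofFn]
      exact ⟨i, rfl⟩
    rw [h0] at h1
    simp at h1
  cases hl : (((List.ofFn fun i => (u i, v i)).filter fun p => p.1 == p.2).map Prod.fst) with
  | nil => exact absurd hl hne
  | cons a l => simp

private lemma PWM_fnd2 {n : ℕ} (u v : Fin n → Bool) (c : Bool) (h : ∀ i, u i ≠ v i) :
    fnd u v c = c := by
  unfold fnd
  have h0 : ((List.ofFn fun i => (u i, v i)).filter fun p => p.1 == p.2) = [] := by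
    rw [List.filter_eq_nil_iff]
    intro p hp
    rw [List.mem_ofFn] at hp
    obtain ⟨i, rfl⟩ := hp
    simpa using h i
  rw [h0]; simp

private def PWM_neg {n : ℕ} (x : Fin n → Bool) : Fin n → Bool := fun i => !x i

private lemma PWM_neg_neg {n : ℕ} (x : Fin n → Bool) : PWM_neg (PWM_neg x) = x := by
  funext i; simp [PWM_neg]

private lemma PWM_sd (m : ℕ) (M : BF m) (y : Fin (m + 2) → Bool) :
    MJ m M (PWM_neg y) = !MJ m M y := by
  unfold MJ PWM_neg
  simp only [Bool.not_not]
  cases h0 : y 0 <;> cases h1 : y 1 <;> simp [h0, h1]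

private lemma PWM_half {n : ℕ} (A : BF n) (h : ∀ y, A (PWM_neg y) = !A y) :
    2 * (Finset.univ.filter fun x => A x = true).card = Fintype.card (Fin n → Bool) := by
  have h1 : (Finset.univ.filter fun x => A x = true).card =
      (Finset.univ.filter fun x => ¬ A x = true).card := by
    apply Finset.card_bij (fun x _ => PWM_neg x)
    · intro x hx
      simp only [Finset.mem_filter, Finset.mem_univ, true_and] at hx ⊢
      rw [h, hx]; simp
    · intro x _ y _ h
      have := congrArg PWM_neg h
      rwa [PWM_neg_neg, PWM_neg_neg] at this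
    · intro y hy
      simp only [Finset.mem_filter, Finset.mem_univ, true_and] at hy
      refine ⟨PWM_neg y, ?_, PWM_neg_neg y⟩
      simp only [Finset.mem_filter, Finset.mem_univ, true_and]
      rw [h]; simpa using hy
  have h2 := Finset.card_filter_add_card_filter_not (s := (Finset.univ : Finset (Fin n → Bool)))
    (fun x => A x = true)
  rw [Finset.card_univ] at h2
  omega

theorem t_PWM : S_PWM := by
  intro n C
  set A : BF (n + n + 2) := MJ (n + n) (FR n C) with hA
  set B : BF (n + n + 2) := MJ (n + n) (FR n fun _ => false) with hB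
  have h1 := PWM_half A (PWM_sd (n + n) (FR n C))
  have h2 : (Finset.univ.filter fun x => WM n C x = true).card =
      (Finset.univ.filter fun x => A x = true).card +
      (Finset.univ.filter fun x => A x = false ∧ B x = true).card := by
    rw [Finset.card_filter, Finset.card_filter, Finset.card_filter, ← Finset.sum_add_distrib]
    refine Finset.sum_congr rfl fun x _ => ?_
    have : WM n C x = (A x || B x) := rfl
    rw [this]
    cases A x <;> cases B x <;> simp
  have hp : (0 : ℝ) < Fintype.card (Fin (n + n + 2) → Bool) := by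
    exact_mod_cast Fintype.card_pos
  have h3 : 1 / 2 < pr (WM n C) ↔
      0 < (Finset.univ.filter fun x => A x = false ∧ B x = true).card := by
    unfold pr
    rw [lt_div_iff₀ hp, h2, ← h1]
    push_cast
    constructor
    · intro h
      have : (0 : ℝ) < ((Finset.univ.filter fun x => A x = false ∧ B x = true).card : ℝ) := by
        linarith
      exact_mod_cast this
    · intro h
      have : (0 : ℝ) < ((Finset.univ.filter fun x => A x = false ∧ B x = true).card : ℝ) := by
        exact_mod_cast h
      linarith
  rw [h3, Finset.card_pos]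
  constructor
  · rintro ⟨y, hy⟩
    simp only [Finset.mem_filter, Finset.mem_univ, true_and] at hy
    obtain ⟨ha, hb⟩ := hy
    simp only [hA, hB, MJ] at ha hb
    by_cases h01 : y 0 = y 1
    · rw [if_pos h01] at ha hb
      rw [ha] at hb; exact absurd hb (by simp)
    · rw [if_neg h01] at ha hb
      by_cases hy1 : y 1 = true
      · rw [if_pos hy1] at ha hb
        exfalso
        simp only [FR] at ha hb
        by_cases he : ∃ i : Fin n, y (Fin.castAdd n i).succ.succ = y (Fin.natAdd n i).succ.succ
        · rw [PWM_fnd1 _ _ _ false he] at ha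
          rw [ha] at hb; exact absurd hb (by simp)
        · push Not at he
          rw [PWM_fnd2 _ _ _ he] at hb
          exact absurd hb (by simp)
      · rw [if_neg hy1] at ha hb
        simp only [FR] at ha hb
        by_cases he : ∃ i : Fin n, (!y (Fin.castAdd n i).succ.succ) = !y (Fin.natAdd n i).succ.succ
        · rw [PWM_fnd1 _ _ _ false he] at ha
          rw [ha] at hb; exact absurd hb (by simp)
        · push Not at he
          rw [PWM_fnd2 _ _ _ he] at ha
          exact ⟨_, by simpa using ha⟩
  · rintro ⟨r, hr⟩
    let z : Fin (n + n) → Bool := Fin.append r fun i => !r i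
    let y : Fin (n + n + 2) → Bool := Fin.cons true (Fin.cons false fun i => !z i)
    have hy0 : y 0 = true := rfl
    have hy1 : y 1 = false := rfl
    have hys : ∀ i : Fin (n + n), y i.succ.succ = !z i := fun i => rfl
    have hz1 : ∀ i : Fin n, z (Fin.castAdd n i) = r i := fun i => Fin.append_left _ _ _
    have hz2 : ∀ i : Fin n, z (Fin.natAdd n i) = !r i := fun i => Fin.append_right _ _ _
    have hFR : ∀ D : BF n, FR n D (fun i => !y i.succ.succ) = D r := by
      intro D
      simp only [FR, hys, Bool.not_not, hz1, hz2]
      exact PWM_fnd2 _ _ _ (fun i => by cases r i <;> simp)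
    refine ⟨y, ?_⟩
    simp only [Finset.mem_filter, Finset.mem_univ, true_and]
    constructor
    · simp only [hA, MJ]
      rw [if_neg (by rw [hy0, hy1]; simp), if_neg (by rw [hy1]; simp), hFR, hr]; rfl
    · simp only [hB, MJ]
      rw [if_neg (by rw [hy0, hy1]; simp), if_neg (by rw [hy1]; simp), hFR]; rfl

end Pool.Agent.H547R8
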