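import Pool.Agent.H547R8.Stm

/-!
# Circuits for `S2` over gate sets with `a ∨ (b ∧ ¬ c)`
-/

set_option autoImplicit false

namespace Pool.Agent.H547R8

open Pool.Agent.H547R6 Pool.Agent.H547R7 Pool.Agent.NPC

private theorem S2C_app {n : ℕ} (l' l : List (BF n)) (f : BF n) (h : Avail l f) :
    Avail (l' ++ l) f := by
  rcases h with h | h
  · exact Or.inl (List.mem_append_right _ h)
  · exact Or.inr h

private theorem S2C_subst {B : Set BFun} {k : ℕ} {g : (Fin k → Bool) → Bool}
    (hg : Gen B (Fin k) g) : ∃ c : ℕ, ∀ (n : ℕ) (l : List (BF n)), Gates B n l →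
      ∀ a : Fin k → BF n, (∀ j, Avail l (a j)) →
      ∃ l', Gates B n (l' ++ l) ∧ l'.length ≤ c ∧ Avail (l' ++ l) (fun x => g fun j => a j x) := by
  induction hg with
  | var i =>
    refine ⟨0, fun n l hl a ha => ⟨[], by simpa using hl, by simp, ?_⟩⟩
    simpa using ha i
  | app k' f hf h hh ih =>
    choose c hc using ih
    refine ⟨(∑ j, c j) + 1, fun n l hl a ha => ?_⟩
    have key : ∀ s : Finset (Fin k'), ∃ l', Gates B n (l' ++ l) ∧ l'.length ≤ ∑ j ∈ s, c j ∧
        ∀ j ∈ s, Avail (l' ++ l) (fun x => h j fun i => a i x) := by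
      intro s
      induction s using Finset.induction_on with
      | empty => exact ⟨[], by simpa using hl, by simp, by simp⟩
      | insert j s hj ihs =>
        obtain ⟨l1, h1, h2, h3⟩ := ihs
        obtain ⟨l2, h4, h5, h6⟩ := hc j n (l1 ++ l) h1 a
          (fun i => S2C_app _ _ _ (ha i))
        refine ⟨l2 ++ l1, by rw [List.append_assoc]; exact h4, ?_, ?_⟩
        · rw [List.length_append, Finset.sum_insert hj]
          omega
        · intro i hi
          rw [List.append_assoc]
          rcases Finset.mem_insert.1 hi with rfl | hi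
          · exact h6
          · exact S2C_app _ _ _ (h3 i hi)
    obtain ⟨l1, h1, h2, h3⟩ := key Finset.univ
    refine ⟨(fun x => f fun j => h j fun i => a i x) :: l1, ?_, ?_, ?_⟩
    · exact Gates.gate (l1 ++ l) k' f (fun j x => h j fun i => a i x) hf
        (fun j => h3 j (Finset.mem_univ j)) h1
    · rw [List.length_cons]; omega
    · exact Or.inl List.mem_cons_self

/-- a function and its negation are available in the frame -/
private def S2C_Rep {n : ℕ} (L : List (BF (n + 2))) (f : BF n) : Prop :=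
  ∃ F F' : BF (n + 2), Avail L F ∧ Avail L F' ∧ ∀ y : Fin (n + 2) → Bool, y 0 = false → y 1 = true →
    F y = f (fun i => y i.succ.succ) ∧ F' y = !f (fun i => y i.succ.succ)

private theorem S2C_rep_app {n : ℕ} (L' L : List (BF (n + 2))) (f : BF n) (h : S2C_Rep L f) :
    S2C_Rep (L' ++ L) f := by
  obtain ⟨F, F', h1, h2, h3⟩ := h
  exact ⟨F, F', S2C_app _ _ _ h1, S2C_app _ _ _ h2, h3⟩

theorem t_S2C : S_S2C := by
  intro B hB
  obtain ⟨c0, hc0⟩ := S2C_subst hB
  -- one application of the operation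
  have hstep : ∀ (n : ℕ) (l : List (BF n)), Gates B n l → ∀ a b d : BF n, Avail l a → Avail l b →
      Avail l d → ∃ l', Gates B n (l' ++ l) ∧ l'.length ≤ c0 ∧
        Avail (l' ++ l) (fun x => a x || (b x && !d x)) := by
    intro n l hl a b d ha hb hd
    obtain ⟨l', h1, h2, h3⟩ := hc0 n l hl ![a, b, d] (by
      intro j
      fin_cases j
      · exact ha
      · exact hb
      · exact hd)
    exact ⟨l', h1, h2, h3⟩
  -- the negated variables
  have hvar : ∀ (n : ℕ) (s : Finset (Fin n)), ∃ L : List (BF (n + 2)), Gates B (n + 2) L ∧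
      L.length ≤ c0 * s.card ∧ ∀ i ∈ s, S2C_Rep L (fun x : Fin n → Bool => x i) := by
    intro n s
    induction s using Finset.induction_on with
    | empty => exact ⟨[], Gates.nil, by simp, by simp⟩
    | insert j s hj ih =>
      obtain ⟨L, h1, h2, h3⟩ := ih
      obtain ⟨L', h4, h5, h6⟩ := hstep (n + 2) L h1 (fun y => y 0) (fun y => y 1)
        (fun y => y j.succ.succ) (Or.inr ⟨0, rfl⟩) (Or.inr ⟨1, rfl⟩) (Or.inr ⟨_, rfl⟩)
      refine ⟨L' ++ L, h4, ?_, ?_⟩
      · rw [List.length_append, Finset.card_insert_of_notMem hj, Nat.mul_succ]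
        omega
      · intro i hi
        rcases Finset.mem_insert.1 hi with rfl | hi
        · refine ⟨fun y => y i.succ.succ, _, Or.inr ⟨_, rfl⟩, h6, ?_⟩
          intro y h0 h1
          simp [h0, h1]
        · exact S2C_rep_app _ _ _ (h3 i hi)
  -- negation in the frame
  have main : ∀ (n s : ℕ) (l : List (BF n)), AON n s l → ∃ L : List (BF (n + 2)),
      Gates B (n + 2) L ∧ L.length ≤ c0 * n + 2 * c0 * s ∧ ∀ f, Avail l f → S2C_Rep L f := by
    intro n s l hl
    -- a gate with two operations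
    have gate : ∀ (s : ℕ) (l : List (BF n)) (L : List (BF (n + 2))) (f : BF n)
        (A D : BF (n + 2)) (neg : Bool), Gates B (n + 2) L → L.length ≤ c0 * n + 2 * c0 * s →
        (∀ f, Avail l f → S2C_Rep L f) → Avail L A → Avail L D →
        (∀ y : Fin (n + 2) → Bool, y 0 = false → y 1 = true →
          (A y && !D y) = xor neg (f (fun i => y i.succ.succ))) →
        ∃ L : List (BF (n + 2)), Gates B (n + 2) L ∧ L.length ≤ c0 * n + 2 * c0 * (s + 1) ∧
          ∀ f', Avail (f :: l) f' → S2C_Rep L f' := by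
      intro s l L f A D neg h1 h2 h3 hA hD hAD
      obtain ⟨L1, g1, g2, g3⟩ := hstep (n + 2) L h1 (fun y => y 0) A D (Or.inr ⟨0, rfl⟩) hA hD
      obtain ⟨L2, g4, g5, g6⟩ := hstep (n + 2) (L1 ++ L) g1 (fun y => y 0) (fun y => y 1) _
        (Or.inr ⟨0, rfl⟩) (Or.inr ⟨1, rfl⟩) g3
      refine ⟨L2 ++ (L1 ++ L), g4, ?_, ?_⟩
      · rw [List.length_append, List.length_append]
        have : 2 * c0 * (s + 1) = 2 * c0 * s + 2 * c0 := by ring
        omega
      · rintro f' (hf' | hf')
        · rcases List.mem_cons.1 hf' with rfl | hf'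
          · have g3' := S2C_app L2 (L1 ++ L) _ g3
            cases neg
            · refine ⟨_, _, g3', g6, ?_⟩
              intro y h0 h1
              have := hAD y h0 h1
              rw [Bool.false_xor] at this
              simp only [h0, h1, Bool.false_or, Bool.true_and, this]
              exact ⟨trivial, trivial⟩
            · refine ⟨_, _, g6, g3', ?_⟩
              intro y h0 h1
              have := hAD y h0 h1
              rw [Bool.true_xor] at this
              simp only [h0, h1, Bool.false_or, Bool.true_and, this, Bool.not_not]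
              exact ⟨trivial, trivial⟩
          · exact S2C_rep_app _ _ _ (S2C_rep_app _ _ _ (h3 f' (Or.inl hf')))
        · exact S2C_rep_app _ _ _ (S2C_rep_app _ _ _ (h3 f' (Or.inr hf')))
    induction hl with
    | nil =>
      obtain ⟨L, h1, h2, h3⟩ := hvar n Finset.univ
      rw [Finset.card_univ, Fintype.card_fin] at h2
      refine ⟨L, h1, by omega, ?_⟩
      rintro f (hf | ⟨i, rfl⟩)
      · simp at hf
      · exact h3 i (Finset.mem_univ i)
    | not s l a h ha ih =>
      obtain ⟨L, h1, h2, h3⟩ := ih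
      refine ⟨L, h1, h2, ?_⟩
      rintro f (hf | hf)
      · rcases List.mem_cons.1 hf with rfl | hf
        · obtain ⟨F, F', g1, g2, g3⟩ := h3 a ha
          refine ⟨F', F, g2, g1, fun y h0 h1 => ?_⟩
          obtain ⟨e1, e2⟩ := g3 y h0 h1
          exact ⟨e2, by rw [e1, Bool.not_not]⟩
        · exact h3 f (Or.inl hf)
      · exact h3 f (Or.inr hf)
    | and s l a b h ha hb ih =>
      obtain ⟨L, h1, h2, h3⟩ := ih
      obtain ⟨Fa, Fa', p1, p2, p3⟩ := h3 a ha
      obtain ⟨Fb, Fb', q1, q2, q3⟩ := h3 b hb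
      refine gate s l L _ Fa Fb' false h1 h2 h3 p1 q2 ?_
      intro y h0 h1
      rw [(p3 y h0 h1).1, (q3 y h0 h1).2, Bool.not_not, Bool.false_xor]
    | or s l a b h ha hb ih =>
      obtain ⟨L, h1, h2, h3⟩ := ih
      obtain ⟨Fa, Fa', p1, p2, p3⟩ := h3 a ha
      obtain ⟨Fb, Fb', q1, q2, q3⟩ := h3 b hb
      refine gate s l L _ Fa' Fb true h1 h2 h3 p2 q1 ?_
      intro y h0 h1
      rw [(p3 y h0 h1).2, (q3 y h0 h1).1, Bool.true_xor, Bool.not_or]
  refine ⟨2 * c0, fun n s C hC => ?_⟩
  obtain ⟨l, s', hl, hs', hCl⟩ := hC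
  obtain ⟨L, h1, h2, h3⟩ := main n s' l hl
  obtain ⟨F, F', g1, g2, g3⟩ := h3 C hCl
  obtain ⟨L1, k1, k2, k3⟩ := hstep (n + 2) L h1 (fun y => y 0) (fun y => y 1) F
    (Or.inr ⟨0, rfl⟩) (Or.inr ⟨1, rfl⟩) g1
  obtain ⟨L2, k4, k5, k6⟩ := hstep (n + 2) (L1 ++ L) k1 (fun y => y 0) (fun y => y 1) _
    (Or.inr ⟨0, rfl⟩) (Or.inr ⟨1, rfl⟩) k3
  refine ⟨L2 ++ (L1 ++ L), k4, ?_, ?_⟩
  · rw [List.length_append, List.length_append]
    have e1 : 2 * c0 * (s + n + 1) = 2 * c0 * s + c0 * n + c0 * n + 2 * c0 := by ring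
    have e2 : 2 * c0 * s' ≤ 2 * c0 * s := Nat.mul_le_mul_left _ hs'
    omega
  · have e : S2 n C = fun y : Fin (n + 2) → Bool =>
        (y 0 || (y 1 && !(y 0 || (y 1 && !F y)))) := by
      funext y
      unfold S2
      cases h0 : y 0
      · cases h1 : y 1
        · rfl
        · rw [(g3 y h0 h1).1]
          simp
      · rfl
    rw [e]
    exact k6

end Pool.Agent.H547R8
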