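import Pool.Agent.H547R8.T_TS2

/-!
# `FR` in polynomial time
-/

set_option autoImplicit false

namespace Pool.Agent.H547R8

open Pool.Agent.H547R6 Pool.Agent.H547R7 Pool.Agent.NPC
open Pool.Agent.H583R2 Pool.Agent.H545R2.KS

theorem TFR_filter_lt (n k : ℕ) (g : ℕ → Bool) (h1 : ∀ i < n, g i = true)
    (h2 : ∀ i < k, g (n + i) = false) : (List.range (n + k)).filter g = List.range n := by
  rw [List.range_add, List.filter_append]
  have e1 : (List.range n).filter g = List.range n := by
    rw [List.filter_eq_self]
    intro i hi
    exact h1 i (List.mem_range.1 hi)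
  have e2 : ((List.range k).map (n + ·)).filter g = [] := by
    rw [List.filter_eq_nil_iff]
    intro i hi
    obtain ⟨j, hj, rfl⟩ := List.mem_map.1 hi
    simp [h2 j (List.mem_range.1 hj)]
  rw [e1, e2, List.append_nil]

/-- the numbers below `m / 2` -/
def TFR_half (m : ℕ) : List ℕ := (List.range m).filter fun k => decide (k + k < m)

theorem TFR_half_eq (n : ℕ) : TFR_half (n + n) = List.range n := by
  unfold TFR_half
  apply TFR_filter_lt
  · intro i hi
    simp only [decide_eq_true_eq]
    omega
  · intro i _
    simp only [decide_eq_false_iff_not]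
    omega

theorem TFR_pf_half {α : Type} [H583R2.TEnc α] {m : α → ℕ} (hm : PF m) :
    PF (fun a => TFR_half (m a)) := by
  unfold TFR_half
  exact PF.filter (f := fun a k => decide (k + k < m a)) (PF.range hm)
    (PF.lt (PF.add PF.snd PF.snd) (hm.comp PF.fst))

/-- the value -/
def TFR_b (V : List Bool → List Bool) (x w : List Bool) : Bool :=
  (((((TFR_half w.length).map fun i =>
    (w.getD i false, w.getD (i + (TFR_half w.length).length) false)).filter fun p =>
      p.1 == p.2).map Prod.fst) ++ [UP1_A V x (w.take (TFR_half w.length).length)]).headD false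

theorem TFR_pf {V : List Bool → List Bool} (hV : PolyTime V) :
    PF (fun z : List Bool => TFR_b V (spl z).1 (spl z).2) := by
  have hx := TS2_pfx
  have hw := TS2_pfw
  have hh : PF (fun z : List Bool => TFR_half (spl z).2.length) := TFR_pf_half (PF.length hw)
  unfold TFR_b
  refine PF.headD (PF.append (PF.map (f := fun _ p => Prod.fst p) (PF.filter (f := fun _ p => p.1 == p.2)
    (PF.map (f := fun z i => ((spl z).2.getD i false,
      (spl z).2.getD (i + (TFR_half (spl z).2.length).length) false)) hh ?_) ?_) ?_) ?_)
    (PF.const false)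
  · exact PF.pair (PF.listGetD PF.snd (hw.comp PF.fst) (PF.const false))
      (PF.listGetD (PF.add PF.snd (PF.length (hh.comp PF.fst))) (hw.comp PF.fst) (PF.const false))
  · exact PF.beqBool (PF.fst' PF.snd) (PF.snd' PF.snd)
  · exact PF.fst' PF.snd
  · exact PF.cons (UP1_pf_A hV hx (PF.take (PF.length hh) hw)) (PF.const [])

theorem t_TFR : S_TFR := by
  intro V hV
  obtain ⟨V', hV', h⟩ := TS2_mk (TFR_b V) (TFR_pf hV)
  refine ⟨V', hV', fun x n => ?_⟩
  funext z
  rw [h]
  unfold FR fnd TFR_b
  rw [UP1_acc, List.length_ofFn, TFR_half_eq, List.length_range]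
  have e1 : ((List.range n).map fun i => ((List.ofFn z).getD i false,
      (List.ofFn z).getD (i + n) false)) =
      List.ofFn fun i : Fin n => (z (Fin.castAdd n i), z (Fin.natAdd n i)) := by
    apply List.ext_getElem
    · simp
    · intro k h1 h2
      rw [List.length_map, List.length_range] at h1
      simp only [List.getElem_map, List.getElem_range, List.getElem_ofFn]
      rw [List.getD_eq_getElem _ _ (by rw [List.length_ofFn]; omega),
        List.getD_eq_getElem _ _ (by rw [List.length_ofFn]; omega), List.getElem_ofFn,
        List.getElem_ofFn]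
      have e3 : (⟨k, by omega⟩ : Fin (n + n)) = Fin.castAdd n ⟨k, h1⟩ := rfl
      have e4 : (⟨k + n, by omega⟩ : Fin (n + n)) = Fin.natAdd n ⟨k, h1⟩ := by
        apply Fin.ext
        simp only [Fin.natAdd_mk]
        omega
      rw [e3, e4]
  have e2 : (List.ofFn z).take n = List.ofFn fun i : Fin n => z (Fin.castAdd n i) := by
    apply List.ext_getElem
    · simp
    · intro k h1 h2
      simp only [List.getElem_take, List.getElem_ofFn]
      rfl
  rw [e1, e2]

end Pool.Agent.H547R8
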