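import Pool.Agent.H547R8.T_UP1

/-!
# `S2` in polynomial time
-/

set_option autoImplicit false

namespace Pool.Agent.H547R8

open Pool.Agent.H547R6 Pool.Agent.H547R7 Pool.Agent.NPC
open Pool.Agent.H583R2 Pool.Agent.H545R2.KS

theorem TS2_mk (b : List Bool → List Bool → Bool)
    (hb : PF (fun z : List Bool => b (spl z).1 (spl z).2)) :
    ∃ V' : List Bool → List Bool, PolyTime V' ∧ ∀ x n (r : Fin n → Bool),
      acc V' x n r = b x (List.ofFn r) := by
  refine ⟨fun z => if b (spl z).1 (spl z).2 = true then [true] else [],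
    polyTime_of_pf (PF.ite hb (PF.const [true]) (PF.const [])), fun x n r => ?_⟩
  unfold acc
  simp only [spl_pairBits]
  cases h : b x (List.ofFn r) <;> simp [h]

theorem TS2_pfx : PF (fun z : List Bool => (spl z).1) := PF.fst' (PF.spl PF.id)

theorem TS2_pfw : PF (fun z : List Bool => (spl z).2) := PF.snd' (PF.spl PF.id)

theorem t_TS2 : S_TS2 := by
  intro V hV
  obtain ⟨V', hV', h⟩ := TS2_mk (fun x w => w.headD false ||
    (w.tail.headD false && UP1_A V x w.tail.tail)) (by
      have hx := TS2_pfx
      have hw := TS2_pfw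
      exact PF.or (PF.headD hw (PF.const false)) (PF.and (PF.headD (PF.tail hw) (PF.const false))
        (UP1_pf_A hV hx (PF.tail (PF.tail hw)))))
  refine ⟨V', hV', fun x n => ?_⟩
  funext y
  rw [h]
  unfold S2
  rw [UP1_acc, List.ofFn_succ, List.ofFn_succ]
  rfl

end Pool.Agent.H547R8
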