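import Pool.Agent.H547R8.Stm

/-!
# `WM` in polynomial time
-/

set_option autoImplicit false

namespace Pool.Agent.H547R8

open Pool.Agent.H547R6 Pool.Agent.H547R7 Pool.Agent.NPC
open Pool.Agent.H583R2 Pool.Agent.H545R2.KS

/-- half of the length -/
def TWM_hf (z : List Bool) : ℕ :=
  ((List.range z.length).filter fun i => decide (i + i < z.length)).length

/-- `fnd` for lists -/
def TWM_F (z : List Bool) (c : Bool) : Bool :=
  ((((List.range (TWM_hf z)).map fun i => (z.getD i false, z.getD (TWM_hf z + i) false)).filter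
    fun p => p.1 == p.2).map Prod.fst ++ [c]).headD false

/-- the string is accepted -/
def TWM_A (V : List Bool → List Bool) (x w : List Bool) : Bool := V (pairBits x w) == [true]

/-- `FR` for lists -/
def TWM_K (V : List Bool → List Bool) (x z : List Bool) : Bool :=
  TWM_F z (TWM_A V x (z.take (TWM_hf z)))

/-- `WM` for lists -/
def TWM_W (V : List Bool → List Bool) (x w : List Bool) : Bool :=
  (if (w.getD 0 false == w.getD 1 false) = true then w.getD 0 false else
    if w.getD 1 false = true then TWM_K V x (w.drop 2) else !TWM_K V x ((w.drop 2).map not)) ||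
  (if (w.getD 0 false == w.getD 1 false) = true then w.getD 0 false else
    if w.getD 1 false = true then TWM_F (w.drop 2) false else !TWM_F ((w.drop 2).map not) false)

section
variable {α : Type} [H583R2.TEnc α]

theorem TWM_pf_hf {z : α → List Bool} (hz : PF z) : PF (fun a => TWM_hf (z a)) := by
  unfold TWM_hf
  exact PF.length (PF.filter (f := fun a i => decide (i + i < (z a).length))
    (PF.range (PF.length hz)) (PF.lt (PF.add PF.snd PF.snd) ((PF.length hz).comp PF.fst)))

theorem TWM_pf_F {z : α → List Bool} {c : α → Bool} (hz : PF z) (hc : PF c) :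
    PF (fun a => TWM_F (z a) (c a)) := by
  unfold TWM_F
  refine PF.headD (PF.append (PF.map (f := fun _ p => Prod.fst p) (PF.filter
    (f := fun _ (p : Bool × Bool) => p.1 == p.2)
    (PF.map (f := fun a i => ((z a).getD i false, (z a).getD (TWM_hf (z a) + i) false))
      (PF.range (TWM_pf_hf hz)) ?_) ?_) ?_) (PF.cons hc (PF.const []))) (PF.const false)
  · exact PF.pair (PF.listGetD PF.snd (hz.comp PF.fst) (PF.const false))
      (PF.listGetD (PF.add ((TWM_pf_hf hz).comp PF.fst) PF.snd) (hz.comp PF.fst) (PF.const false))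
  · exact PF.beqBool (PF.fst' PF.snd) (PF.snd' PF.snd)
  · exact PF.fst' PF.snd

theorem TWM_pf_A {V : List Bool → List Bool} (hV : PolyTime V)
    {x w : α → List Bool} (hx : PF x) (hw : PF w) : PF (fun a => TWM_A V (x a) (w a)) := by
  unfold TWM_A
  exact PF.beqStr ((pf_of_polyTime hV).comp (pf_pairBits hx hw)) (PF.const [true])

theorem TWM_pf_K {V : List Bool → List Bool} (hV : PolyTime V)
    {x w : α → List Bool} (hx : PF x) (hw : PF w) : PF (fun a => TWM_K V (x a) (w a)) := by
  unfold TWM_K
  exact TWM_pf_F hw (TWM_pf_A hV hx (PF.take (TWM_pf_hf hw) hw))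

theorem TWM_pf_W {V : List Bool → List Bool} (hV : PolyTime V)
    {x w : α → List Bool} (hx : PF x) (hw : PF w) : PF (fun a => TWM_W V (x a) (w a)) := by
  unfold TWM_W
  have h0 : PF (fun a => (w a).getD 0 false) := PF.listGetD (PF.const 0) hw (PF.const false)
  have h1 : PF (fun a => (w a).getD 1 false) := PF.listGetD (PF.const 1) hw (PF.const false)
  have hd : PF (fun a => (w a).drop 2) := PF.drop (PF.const 2) hw
  have hm : PF (fun a => ((w a).drop 2).map not) :=
    PF.map (f := fun _ b => !b) hd (PF.not PF.snd)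
  exact PF.or
    (PF.ite (PF.beqBool h0 h1) h0 (PF.ite h1 (TWM_pf_K hV hx hd) (PF.not (TWM_pf_K hV hx hm))))
    (PF.ite (PF.beqBool h0 h1) h0 (PF.ite h1 (TWM_pf_F hd (PF.const false))
      (PF.not (TWM_pf_F hm (PF.const false)))))

end

theorem TWM_filter (n : ℕ) :
    (List.range (n + n)).filter (fun i => decide (i + i < n + n)) = List.range n := by
  rw [List.range_add, List.filter_append]
  have h1 : (List.range n).filter (fun i => decide (i + i < n + n)) = List.range n := by
    rw [List.filter_eq_self]
    intro i hi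
    have := List.mem_range.1 hi
    simp only [decide_eq_true_eq]
    omega
  have h2 : ((List.range n).map fun x => n + x).filter (fun i => decide (i + i < n + n)) = [] := by
    rw [List.filter_eq_nil_iff]
    intro i hi
    obtain ⟨j, _, rfl⟩ := List.mem_map.1 hi
    simp only [decide_eq_true_eq]
    omega
  rw [h1, h2, List.append_nil]

theorem TWM_hf_ofFn {n : ℕ} (z : Fin (n + n) → Bool) : TWM_hf (List.ofFn z) = n := by
  unfold TWM_hf
  rw [List.length_ofFn, TWM_filter, List.length_range]

theorem TWM_fnd {n : ℕ} (z : Fin (n + n) → Bool) (c : Bool) :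
    fnd (fun i => z (Fin.castAdd n i)) (fun i => z (Fin.natAdd n i)) c =
      TWM_F (List.ofFn z) c := by
  unfold fnd TWM_F
  rw [TWM_hf_ofFn]
  have h : (List.ofFn fun i => (z (Fin.castAdd n i), z (Fin.natAdd n i))) =
      (List.range n).map fun i => ((List.ofFn z).getD i false, (List.ofFn z).getD (n + i) false) := by
    apply List.ext_getElem
    · simp
    · intro k h1 h2
      have hk : k < n := by simpa using h1
      simp only [List.getElem_ofFn, List.getElem_map, List.getElem_range, List.getD_eq_getElem?_getD]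
      rw [List.getElem?_eq_getElem (by simp; omega), List.getElem?_eq_getElem (by simp; omega)]
      simp only [Option.getD_some, List.getElem_ofFn]
      rfl
  rw [h]

theorem TWM_acc {V : List Bool → List Bool} {x : List Bool} {n : ℕ} (r : Fin n → Bool) :
    acc V x n r = TWM_A V x (List.ofFn r) := by
  unfold acc TWM_A
  by_cases h : V (pairBits x (List.ofFn r)) = [true] <;> simp [h]

theorem TWM_FR {V : List Bool → List Bool} {x : List Bool} {n : ℕ} (z : Fin (n + n) → Bool) :
    FR n (acc V x n) z = TWM_K V x (List.ofFn z) := by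
  unfold FR TWM_K
  rw [TWM_fnd, TWM_acc, TWM_hf_ofFn]
  congr 2
  apply List.ext_getElem
  · simp
  · intro k h1 h2
    have hk : k < n := by simpa using h1
    simp

theorem TWM_FR0 {n : ℕ} (z : Fin (n + n) → Bool) :
    FR n (fun _ => false) z = TWM_F (List.ofFn z) false := by
  unfold FR
  rw [TWM_fnd]

theorem TWM_drop {n : ℕ} (y : Fin (n + 2) → Bool) :
    (List.ofFn y).drop 2 = List.ofFn fun i : Fin n => y i.succ.succ := by
  rw [List.ofFn_succ, List.ofFn_succ]
  rfl

theorem TWM_WM {V : List Bool → List Bool} {x : List Bool} {n : ℕ} (y : Fin (n + n + 2) → Bool) :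
    WM n (acc V x n) y = TWM_W V x (List.ofFn y) := by
  have e0 : (List.ofFn y).getD 0 false = y 0 := by
    rw [List.ofFn_succ]; rfl
  have e1 : (List.ofFn y).getD 1 false = y 1 := by
    rw [List.ofFn_succ, List.ofFn_succ]; rfl
  have em : (List.ofFn fun i : Fin (n + n) => y i.succ.succ).map not =
      List.ofFn fun i : Fin (n + n) => !y i.succ.succ := by
    rw [List.map_ofFn]; rfl
  unfold WM MJ TWM_W
  rw [e0, e1, TWM_drop, em, TWM_FR, TWM_FR, TWM_FR0, TWM_FR0]
  simp only [beq_iff_eq]

theorem t_TWM : S_TWM := by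
  intro V hV
  refine ⟨fun s => if TWM_W V (spl s).1 (spl s).2 = true then [true] else [], polyTime_of_pf ?_,
    fun x n => ?_⟩
  · exact PF.ite (TWM_pf_W hV (PF.fst' (PF.spl PF.id)) (PF.snd' (PF.spl PF.id)))
      (PF.const [true]) (PF.const [])
  · funext y
    rw [TWM_WM]
    unfold acc
    simp only [spl_pairBits]
    cases h : TWM_W V x (List.ofFn y) <;> simp

end Pool.Agent.H547R8
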