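import Pool.Agent.H547R8.T_UP1

/-!
# Upper bounds, second part
-/

set_option autoImplicit false

namespace Pool.Agent.H547R8

open Pool.Agent.H547R6 Pool.Agent.H547R7 Pool.Agent.NPC
open Pool.Agent.H583R2 Pool.Agent.H545R2.KS

/-- the complement of the unit vector as a list -/
def UP2_cu (p : Polynomial ℕ) (x : List Bool) (i : ℕ) : List Bool :=
  (List.range (p.eval x.length)).map fun j => !decide (j = i)

theorem UP2_pf_cu {α : Type} [H583R2.TEnc α] (p : Polynomial ℕ) {x : α → List Bool} {i : α → ℕ}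
    (hx : PF x) (hi : PF i) : PF (fun a => UP2_cu p (x a) (i a)) := by
  unfold UP2_cu
  exact PF.map (f := fun a j => !decide (j = i a)) (PF.range (pf_eval (PF.length hx) p))
    (PF.not (PF.natEq PF.snd (hi.comp PF.fst)))

theorem UP2_cev {V : List Bool → List Bool} (p : Polynomial ℕ) {x : List Bool}
    (i : Fin (p.eval x.length)) :
    acc V x (p.eval x.length) (fun j => !ev i j) = UP1_A V x (UP2_cu p x i.val) := by
  rw [UP1_acc]
  congr 1
  unfold UP2_cu
  apply List.ext_getElem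
  · simp
  · intro k h1 h2
    simp [ev, Fin.ext_iff]

theorem UP2_empty {L : Set (List Bool)} (h : ∀ x, x ∉ L) : L ∈ P := by
  refine UP1_inP (b := fun _ => false) (PF.const false) fun x => ?_
  simp [h x]

theorem t_UP2 (h1 : S_CLS) (h2 : S_PR1) : S_UP2 := by
  intro B hB L hL
  obtain ⟨V, p, q, hV, hL⟩ := hL
  have hn : PF (fun x : List Bool => p.eval x.length) := pf_eval (PF.length PF.id) p
  rcases hB with hB | hB | ⟨hB, hB'⟩
  · have hcls : ∀ x : List Bool, (⟨_, acc V x (p.eval x.length)⟩ : BFun) ∈ SelfDual := fun x =>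
      h1 B SelfDual (Or.inr (Or.inr (Or.inr (Or.inl rfl)))) hB _ _ _ (hL x).1
    apply UP2_empty
    intro x hx
    have h3 := (hL x).2.1 hx
    rw [(h2 _ _).1 (hcls x)] at h3
    exact lt_irrefl _ h3
  · have hcls : ∀ x : List Bool, (⟨_, acc V x (p.eval x.length)⟩ : BFun) ∈ And2 := fun x =>
      h1 B And2 (Or.inr (Or.inr (Or.inr (Or.inr (Or.inl rfl))))) hB _ _ _ (hL x).1
    apply UP2_empty
    intro x hx
    have h3 := (hL x).2.1 hx
    exact absurd h3 (not_lt.2 ((h2 _ _).2.1 (hcls x)))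
  · have hcls : ∀ x : List Bool, (⟨_, acc V x (p.eval x.length)⟩ : BFun) ∈ Mon := fun x =>
      h1 B Mon (Or.inr (Or.inr (Or.inr (Or.inr (Or.inr (Or.inr (Or.inl rfl))))))) hB _ _ _ (hL x).1
    have hcls' : ∀ x : List Bool, (⟨_, acc V x (p.eval x.length)⟩ : BFun) ∈ Or3 := fun x =>
      h1 B Or3 (Or.inr (Or.inr (Or.inr (Or.inr (Or.inr (Or.inr (Or.inr rfl))))))) hB' _ _ _ (hL x).1
    refine UP1_inP (b := fun x => !((List.range (p.eval x.length)).any fun i =>
      UP1_A V x (UP1_u p x i) && !(UP1_A V x (UP2_cu p x i)))) ?_ fun x => ?_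
    · exact PF.not (PF.any (f := fun x i =>
        UP1_A V x (UP1_u p x i) && !(UP1_A V x (UP2_cu p x i))) (PF.range hn)
          (PF.and (UP1_pf_A hV PF.fst (UP1_pf_u p PF.fst PF.snd))
            (PF.not (UP1_pf_A hV PF.fst (UP2_pf_cu p PF.fst PF.snd)))))
    · rw [(hL x).2, (h2 _ _).2.2.2 (hcls x) (hcls' x), Bool.not_eq_true', ← Bool.not_eq_true]
      apply not_congr
      rw [List.any_eq_true]
      constructor
      · rintro ⟨i, hi, hj⟩
        rw [UP1_ev] at hi
        rw [UP2_cev] at hj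
        refine ⟨i.val, List.mem_range.2 i.2, ?_⟩
        rw [hi, hj]
        rfl
      · rintro ⟨i, hi, h⟩
        rw [Bool.and_eq_true, Bool.not_eq_true'] at h
        refine ⟨⟨i, List.mem_range.1 hi⟩, ?_, ?_⟩
        · rw [UP1_ev]; exact h.1
        · rw [UP2_cev]; exact h.2

end Pool.Agent.H547R8
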