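import Pool.Agent.H547R8.T_UP1

/-!
# Upper bounds, third part
-/

set_option autoImplicit false

namespace Pool.Agent.H547R8

open Pool.Agent.H547R6 Pool.Agent.H547R7 Pool.Agent.NPC
open Pool.Agent.H583R2 Pool.Agent.H545R2.KS

/-- the verifier -/
def UP3_b (V : List Bool → List Bool) (p : Polynomial ℕ) (x w : List Bool) : Bool :=
  decide (w.length = p.eval x.length) && (UP1_A V x w && UP1_A V x (w.map fun b => !b))

theorem UP3_pf {V : List Bool → List Bool} (hV : PolyTime V) (p : Polynomial ℕ) :
    PF (fun z : List Bool => UP3_b V p (spl z).1 (spl z).2) := by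
  have hz : PF (fun z : List Bool => spl z) := PF.spl PF.id
  have hx := PF.fst' hz
  have hw := PF.snd' hz
  unfold UP3_b
  refine PF.and (PF.natEq (PF.length hw) (pf_eval (PF.length hx) p))
    (PF.and (UP1_pf_A hV hx hw) (UP1_pf_A hV hx ?_))
  exact PF.map (f := fun _ b => !b) hw (PF.not PF.snd)

theorem t_UP3 (h1 : S_CLS) (h2 : S_PR1) : S_UP3 := by
  intro B hB L hL
  obtain ⟨V, p, q, hV, hL⟩ := hL
  have hcls : ∀ x : List Bool, (⟨_, acc V x (p.eval x.length)⟩ : BFun) ∈ Or2 := fun x =>
    h1 B Or2 (Or.inr (Or.inr (Or.inr (Or.inr (Or.inr (Or.inl rfl)))))) hB _ _ _ (hL x).1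
  refine ⟨fun z => if UP3_b V p (spl z).1 (spl z).2 = true then [true] else [], p,
    polyTime_of_pf (PF.ite (UP3_pf hV p) (PF.const [true]) (PF.const [])), fun x => ?_⟩
  rw [(hL x).2, (h2 _ _).2.2.1 (hcls x)]
  have hval : ∀ w : List Bool, (if UP3_b V p (spl (pairBits x w)).1 (spl (pairBits x w)).2 = true
      then [true] else []) = [true] ↔ UP3_b V p x w = true := by
    intro w
    rw [spl_pairBits]
    cases h : UP3_b V p x w <;> simp
  constructor
  · rintro ⟨r, hr1, hr2⟩
    rw [UP1_acc] at hr1 hr2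
    refine ⟨List.ofFn r, by simp, (hval _).2 ?_⟩
    unfold UP3_b
    have e : (List.ofFn r).map (fun b => !b) = List.ofFn fun i => !r i := by
      rw [List.map_ofFn]; rfl
    rw [e, hr1, hr2]
    simp
  · rintro ⟨w, _, hw⟩
    rw [hval] at hw
    unfold UP3_b at hw
    rw [Bool.and_eq_true, Bool.and_eq_true, decide_eq_true_eq] at hw
    obtain ⟨hlen, hw1, hw2⟩ := hw
    refine ⟨fun i => w[i.val]'(by rw [hlen]; exact i.2), ?_, ?_⟩
    · rw [UP1_acc]
      have e : (List.ofFn fun i : Fin (p.eval x.length) => w[i.val]'(by rw [hlen]; exact i.2)) = w := by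
        apply List.ext_getElem
        · simp [hlen]
        · intro k h1 h2
          simp
      rw [e]
      exact hw1
    · rw [UP1_acc]
      have e : (List.ofFn fun i : Fin (p.eval x.length) => !(w[i.val]'(by rw [hlen]; exact i.2))) =
          w.map fun b => !b := by
        apply List.ext_getElem
        · simp [hlen]
        · intro k h1 h2
          simp
      rw [e]
      exact hw2

end Pool.Agent.H547R8
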