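import Pool.Agent.H547R8.Stm

set_option autoImplicit false

namespace Pool.Agent.H547R8

open Pool.Agent.H547R6 Pool.Agent.H547R7 Pool.Agent.NPC

theorem WMC_avail_right {n : ℕ} (l' l : List (BF n)) (f : BF n) (h : Avail l f) :
    Avail (l' ++ l) f := by
  rcases h with h | h
  · exact Or.inl (List.mem_append_right _ h)
  · exact Or.inr h

theorem WMC_avail_left {n : ℕ} (l l' : List (BF n)) (f : BF n) (h : Avail l f) :
    Avail (l ++ l') f := by
  rcases h with h | h
  · exact Or.inl (List.mem_append_left _ h)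
  · exact Or.inr h

theorem WMC_gates_append {B : Set BFun} {n : ℕ} {l l' : List (BF n)}
    (h : Gates B n l) (h' : Gates B n l') : Gates B n (l ++ l') := by
  induction h with
  | nil => exact h'
  | gate l k f g hf hg _ ih =>
    exact Gates.gate (l ++ l') k f g hf (fun j => WMC_avail_left _ _ _ (hg j)) ih

theorem WMC_subst {B : Set BFun} {k : ℕ} {g : (Fin k → Bool) → Bool}
    (hg : Gen B (Fin k) g) : ∃ c : ℕ, ∀ (n : ℕ) (l : List (BF n)), Gates B n l →
      ∀ a : Fin k → BF n, (∀ j, Avail l (a j)) →
      ∃ l', Gates B n (l' ++ l) ∧ l'.length ≤ c ∧ Avail (l' ++ l) (fun x => g fun j => a j x) := by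
  induction hg with
  | var i =>
    refine ⟨0, fun n l hl a ha => ⟨[], by simpa using hl, by simp, ?_⟩⟩
    simpa using ha i
  | app k' f hf h hh ih =>
    choose c hc using ih
    refine ⟨(∑ j, c j) + 1, fun n l hl a ha => ?_⟩
    have key : ∀ s : Finset (Fin k'), ∃ l', Gates B n (l' ++ l) ∧ l'.length ≤ ∑ j ∈ s, c j ∧
        ∀ j ∈ s, Avail (l' ++ l) (fun x => h j fun i => a i x) := by
      intro s
      induction s using Finset.induction_on with
      | empty => exact ⟨[], by simpa using hl, by simp, by simp⟩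
      | insert j s hj ihs =>
        obtain ⟨l1, h1, h2, h3⟩ := ihs
        obtain ⟨l2, h4, h5, h6⟩ := hc j n (l1 ++ l) h1 a
          (fun i => WMC_avail_right _ _ _ (ha i))
        refine ⟨l2 ++ l1, by rw [List.append_assoc]; exact h4, ?_, ?_⟩
        · rw [List.length_append, Finset.sum_insert hj]
          omega
        · intro i hi
          rw [List.append_assoc]
          rcases Finset.mem_insert.1 hi with rfl | hi
          · exact h6
          · exact WMC_avail_right _ _ _ (h3 i hi)
    obtain ⟨l1, h1, h2, h3⟩ := key Finset.univ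
    refine ⟨(fun x => f fun j => h j fun i => a i x) :: l1, ?_, ?_, ?_⟩
    · exact Gates.gate (l1 ++ l) k' f (fun j x => h j fun i => a i x) hf
        (fun j => h3 j (Finset.mem_univ j)) h1
    · rw [List.length_cons]; omega
    · exact Or.inl List.mem_cons_self

theorem WMC_pos {n s : ℕ} {C : BF n} (h : Comp0 n s C) : 0 < n := by
  rcases Nat.eq_zero_or_pos n with h0 | h0
  · exfalso
    subst h0
    obtain ⟨l, s', hl, _, hC⟩ := h
    have key : ∀ (s' : ℕ) (l : List (BF 0)), AON 0 s' l → l = [] := by
      intro s' l hl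
      induction hl with
      | nil => rfl
      | not s l a h ha ih =>
        exfalso
        subst ih
        rcases ha with ha | ⟨i, _⟩
        · simp at ha
        · exact i.elim0
      | and s l a b h ha hb ih =>
        exfalso
        subst ih
        rcases ha with ha | ⟨i, _⟩
        · simp at ha
        · exact i.elim0
      | or s l a b h ha hb ih =>
        exfalso
        subst ih
        rcases ha with ha | ⟨i, _⟩
        · simp at ha
        · exact i.elim0
    have hl0 := key s' l hl
    subst hl0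
    rcases hC with hC | ⟨i, _⟩
    · simp at hC
    · exact i.elim0
  · exact h0

theorem WMC_zero {n : ℕ} (hn : 0 < n) : Comp0 n 1 (fun _ => false) := by
  let i : Fin n := ⟨0, hn⟩
  refine ⟨[fun x => x i && !x i, fun x => !x i], 1, ?_, le_rfl, ?_⟩
  · exact AON.and 0 [fun x => !x i] (fun x => x i) (fun x => !x i)
      (AON.not 0 [] (fun x => x i) AON.nil (Or.inr ⟨i, rfl⟩)) (Or.inr ⟨i, rfl⟩)
      (Or.inl (by simp))
  · left
    have : (fun _ => false : BF n) = fun x => x i && !x i := by
      funext x; simp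
    rw [this]
    exact List.mem_cons_self

theorem t_WMC (h1 : S_DRC) (h2 : S_MJC) : S_WMC := by
  intro B hM hO
  obtain ⟨c, hc⟩ := h2 B hM
  obtain ⟨d, hd⟩ := WMC_subst hO
  refine ⟨c * 10 + d, ?_⟩
  intro n s C hC
  have hn := WMC_pos hC
  obtain ⟨l1, g1, k1, a1⟩ := hc (n + n) _ _ (h1 n s C hC)
  obtain ⟨l2, g2, k2, a2⟩ := hc (n + n) _ _ (h1 n 1 _ (WMC_zero hn))
  have g3 := WMC_gates_append g1 g2
  have b1 := WMC_avail_left l1 l2 _ a1
  have b2 := WMC_avail_right l1 l2 _ a2
  obtain ⟨l3, g4, k4, a4⟩ := hd (n + n + 2) (l1 ++ l2) g3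
    ![MJ (n + n) (FR n C), MJ (n + n) (FR n fun _ => false)] (by
      intro j
      fin_cases j
      · exact b1
      · exact b2)
  refine ⟨l3 ++ (l1 ++ l2), g4, ?_, ?_⟩
  · rw [List.length_append, List.length_append]
    have e1 : c * (2 * s + 4 * n + 1) + c * (2 * 1 + 4 * n + 1) ≤ c * 10 * (s + n + 1) := by
      nlinarith [Nat.zero_le (c * s), Nat.zero_le (c * n), Nat.zero_le c]
    have e2 : d ≤ d * (s + n + 1) := Nat.le_mul_of_pos_right d (by omega)
    have e3 : (c * 10 + d) * (s + n + 1) = c * 10 * (s + n + 1) + d * (s + n + 1) := by ring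
    rw [e3]
    omega
  · have : WM n C = fun x => bor
        ((![MJ (n + n) (FR n C), MJ (n + n) (FR n fun _ => false)] 0 : BF (n + n + 2)) x)
        ((![MJ (n + n) (FR n C), MJ (n + n) (FR n fun _ => false)] 1 : BF (n + n + 2)) x) := rfl
    rw [this]
    exact a4

end Pool.Agent.H547R8
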